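import Pool.Agent.H22.KW.Bas

/-!
# Module AbK: the cyclotomic fields are abelian

`IntermediateField.adjoin_le_iff`: for `z ^ n = 1`, `n > 0`, let `w` be a primitive `n`-th root of unity (`exists_prim_root`); `L = ℚ_[p]⟮w⟯` is finite, Galois (it is normal: `g w` is a power of `w` for every `g`; or splitting field of `X ^ n - 1`; or `IsCyclotomicExtension`, `IsPrimitiveRoot.adjoin_isCyclotomicExtension`, `IsCyclotomicExtension.isGalois`),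
with commutative group (`σ w = w ^ i`, `τ w = w ^ j`; `IsCyclotomicExtension.isMulCommutative` or similar), so `L ≤` the supremum (`le_iSup`), and `z ∈ L` (`mem_adj_of_pow`).
-/

set_option autoImplicit false

namespace Pool.Agent.H22.KW

open Polynomial Pool.Agent.H55.Tilt Pool.Agent.H22.QA

open scoped IntermediateField

variable {p : ℕ} [hp : Fact p.Prime]

theorem KMu_le (p : ℕ) [Fact p.Prime] : KMu p ≤ ⨆ L : {L : IntermediateField ℚ_[p] (PadicAlgCl p) //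
    FiniteDimensional ℚ_[p] L ∧ IsGalois ℚ_[p] L ∧ ∀ σ τ : L ≃ₐ[ℚ_[p]] L, σ * τ = τ * σ}, L.1 := by
  refine IntermediateField.adjoin_le_iff.2 ?_
  rintro z ⟨n, hn, hz⟩
  have hn0 : NeZero n := ⟨hn.ne'⟩
  obtain ⟨w, hw⟩ := exists_prim_root (p := p) n hn.ne'
  have hcyc : IsCyclotomicExtension {n} ℚ_[p] ℚ_[p]⟮w⟯ :=
    hw.intermediateField_adjoin_isCyclotomicExtension ℚ_[p]
  have h1 : FiniteDimensional ℚ_[p] ℚ_[p]⟮w⟯ := IsCyclotomicExtension.finiteDimensional {n} ℚ_[p] _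
  have h2 : IsGalois ℚ_[p] ℚ_[p]⟮w⟯ := IsCyclotomicExtension.isGalois {n} ℚ_[p] _
  have h3 : IsMulCommutative (ℚ_[p]⟮w⟯ ≃ₐ[ℚ_[p]] ℚ_[p]⟮w⟯) :=
    IsCyclotomicExtension.isMulCommutative {n} ℚ_[p] _
  have h4 : ∀ σ τ : ℚ_[p]⟮w⟯ ≃ₐ[ℚ_[p]] ℚ_[p]⟮w⟯, σ * τ = τ * σ := fun σ τ => h3.is_comm.comm σ τ
  have h5 : ℚ_[p]⟮w⟯ ≤ ⨆ L : {L : IntermediateField ℚ_[p] (PadicAlgCl p) //
      FiniteDimensional ℚ_[p] L ∧ IsGalois ℚ_[p] L ∧ ∀ σ τ : L ≃ₐ[ℚ_[p]] L, σ * τ = τ * σ}, L.1 :=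
    le_iSup (fun L : {L : IntermediateField ℚ_[p] (PadicAlgCl p) //
      FiniteDimensional ℚ_[p] L ∧ IsGalois ℚ_[p] L ∧ ∀ σ τ : L ≃ₐ[ℚ_[p]] L, σ * τ = τ * σ} => L.1)
      ⟨ℚ_[p]⟮w⟯, h1, h2, h4⟩
  apply h5
  obtain ⟨i, _, rfl⟩ := hw.eq_pow_of_pow_eq_one hz
  exact pow_mem (IntermediateField.mem_adjoin_simple_self ℚ_[p] w) i

end Pool.Agent.H22.KW
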