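import Pool.Agent.H22.KW.Bas

/-!
# Module AbL: abelian extensions and characters

`mem_of_fixed`: let `x ∈ L`, `g ∈ (KMu p).fixingSubgroup`. If `g x ≠ x` then the restriction `τ` of `g` to `L` (`AlgEquiv.restrictNormalHom L`) is not the identity of the finite commutative group `L ≃ₐ[ℚ_[p]] L` (commutative by `hc`; make it a `CommGroup` by `{ (inferInstance : Group _) with mul_comm := hc }`), so there is a homomorphism
`ψ : (L ≃ₐ[ℚ_[p]] L) →* (PadicAlgCl p)ˣ` with `ψ τ ≠ 1` (`CommGroup.exists_apply_ne_one_of_hasEnoughRootsOfUnity`, algebraically closed of characteristic zero). `χ = ψ.comp (AlgEquiv.restrictNormalHom L)` is smooth (with `L`), so `χ g = 1` by `h`, contradiction.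
-/

set_option autoImplicit false

namespace Pool.Agent.H22.KW

open Polynomial Pool.Agent.H55.Tilt Pool.Agent.H22.QA

open scoped IntermediateField

variable {p : ℕ} [hp : Fact p.Prime]

theorem ab_le_KMu (h : ∀ χ : Chr p, Sm χ → X2 χ) (L : IntermediateField ℚ_[p] (PadicAlgCl p))
    [FiniteDimensional ℚ_[p] L] [IsGalois ℚ_[p] L] (hc : ∀ σ τ : L ≃ₐ[ℚ_[p]] L, σ * τ = τ * σ) :
    L ≤ KMu p := by
  intro x hx
  apply mem_of_fixed
  intro g hg
  by_contra hne
  let _ : CommGroup (L ≃ₐ[ℚ_[p]] L) := { (inferInstance : Group (L ≃ₐ[ℚ_[p]] L)) with mul_comm := hc }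
  have hchar : CharZero (PadicAlgCl p) := charZero_of_injective_algebraMap (algebraMap ℚ_[p] (PadicAlgCl p)).injective
  have hτ : AlgEquiv.restrictNormalHom L g ≠ 1 := by
    intro h1
    apply hne
    have h2 := AlgEquiv.restrictNormal_commutes g L ⟨x, hx⟩
    have h3 : AlgEquiv.restrictNormal g L = 1 := h1
    rw [h3] at h2
    exact h2.symm
  obtain ⟨ψ, hψ⟩ := CommGroup.exists_apply_ne_one_of_hasEnoughRootsOfUnity (L ≃ₐ[ℚ_[p]] L) (PadicAlgCl p) hτ
  apply hψ
  have hsm : Sm (ψ.comp (AlgEquiv.restrictNormalHom L) : Chr p) := by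
    refine ⟨L, inferInstance, fun g hg => ?_⟩
    have h1 : AlgEquiv.restrictNormalHom L g = 1 := by
      have h2 := IntermediateField.restrictNormalHom_ker (K := ℚ_[p]) (L := PadicAlgCl p) L
      rw [← MonoidHom.mem_ker, h2]
      exact hg
    rw [MonoidHom.comp_apply, h1, map_one]
  exact h _ hsm g hg

end Pool.Agent.H22.KW
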