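import Pool.Agent.H22.QA.UnrB

/-!
# Local Kronecker-Weber theorem: definitions and basic facts

`GG p` is the Galois group of `PadicAlgCl p` over `ℚ_[p]`, `Chr p` the type of its characters with values in the units
of `PadicAlgCl p`, `Sm χ`: the character `χ` is trivial on the automorphisms which fix a finite extension, `X2 χ`: it is
trivial on the automorphisms which fix all roots of unity. The theorem is: every smooth character is `X2`
(module `Top`).
-/

set_option autoImplicit false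

namespace Pool.Agent.H22.KW

open Polynomial Pool.Agent.H55.Tilt Pool.Agent.H22.QA

open scoped IntermediateField

variable {p : ℕ} [hp : Fact p.Prime]

/-- The absolute Galois group of `ℚ_p`. -/
abbrev GG (p : ℕ) [Fact p.Prime] : Type := PadicAlgCl p ≃ₐ[ℚ_[p]] PadicAlgCl p

/-- Its characters. -/
abbrev Chr (p : ℕ) [Fact p.Prime] : Type := GG p →* (PadicAlgCl p)ˣ

/-- Smooth characters. -/
def Sm (χ : Chr p) : Prop :=
  ∃ L : IntermediateField ℚ_[p] (PadicAlgCl p), FiniteDimensional ℚ_[p] L ∧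
    ∀ g ∈ L.fixingSubgroup, χ g = 1

/-- Characters which are trivial on the automorphisms fixing all roots of unity. -/
def X2 (χ : Chr p) : Prop := ∀ g ∈ (KMu p).fixingSubgroup, χ g = 1

/-- A topological generator of the wild inertia: it acts on the roots of unity of order a power of `p` as
the exponent `cc p`. -/
def cc (p : ℕ) : ℕ := if p = 2 then 5 else p + 1

/-- `g` is an automorphism which is trivial on the roots of unity of order prime to `p` and raises the roots of unity of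
order a power of `p` to the power `cc p`. -/
def IsG1 (g : GG p) : Prop :=
  (∀ z ∈ Mu p, g z = z) ∧ ∀ (n : ℕ) (z : PadicAlgCl p), z ^ p ^ n = 1 → g z = z ^ cc p

/-- `g` is a Frobenius automorphism: it raises the roots of unity of order prime to `p` to the power `p` and fixes
the roots of unity of order a power of `p`. -/
def IsG2 (g : GG p) : Prop :=
  (∀ z ∈ Mu p, g z = z ^ p) ∧ ∀ (n : ℕ) (z : PadicAlgCl p), z ^ p ^ n = 1 → g z = z

/-- The relation of Kummer theory over `ℚ_p(ζ)` for characters of order `p` of the whole group. -/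
def PP (ζ a : PadicAlgCl p) : Prop :=
  a ∈ ℚ_[p]⟮ζ⟯ ∧ a ≠ 0 ∧ ∀ (g : GG p) (c : ℕ), g ζ = ζ ^ c → ∃ b ∈ ℚ_[p]⟮ζ⟯, b ≠ 0 ∧ g a = a ^ c * b ^ p

theorem mem_fix {E : IntermediateField ℚ_[p] (PadicAlgCl p)} {g : GG p} :
    g ∈ E.fixingSubgroup ↔ ∀ x ∈ E, g x = x := by
  rw [IntermediateField.mem_fixingSubgroup_iff]

theorem norm_gal (g : GG p) (x : PadicAlgCl p) : ‖g x‖ = ‖x‖ := by
  have h := spectralNorm_eq_of_equiv (K := ℚ_[p]) g x
  exact h.symm

theorem mem_of_fixed {E : IntermediateField ℚ_[p] (PadicAlgCl p)} {x : PadicAlgCl p}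
    (h : ∀ g ∈ E.fixingSubgroup, g x = x) : x ∈ E := by
  rw [← InfiniteGalois.fixedField_fixingSubgroup E]
  rw [IntermediateField.mem_fixedField_iff]
  exact h

theorem mem_fix_UU {g : GG p} : g ∈ (UU p).fixingSubgroup ↔ ∀ z ∈ Mu p, g z = z := by
  rw [mem_fix]
  constructor
  · exact fun h z hz => h z (Mu_mem_UU hz)
  · intro h x hx
    induction hx using IntermediateField.adjoin_induction with
    | mem x hx => exact h x hx
    | algebraMap x => exact g.commutes x
    | add x y _ _ hx hy => rw [map_add, hx, hy]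
    | inv x _ hx => rw [map_inv₀, hx]
    | mul x y _ _ hx hy => rw [map_mul, hx, hy]

theorem mem_fix_KMu {g : GG p} :
    g ∈ (KMu p).fixingSubgroup ↔ ∀ (n : ℕ) (z : PadicAlgCl p), 0 < n → z ^ n = 1 → g z = z := by
  rw [mem_fix]
  constructor
  · exact fun h n z hn hz => h z (IntermediateField.subset_adjoin _ _ ⟨n, hn, hz⟩)
  · intro h x hx
    induction hx using IntermediateField.adjoin_induction with
    | mem x hx =>
      obtain ⟨n, hn, hz⟩ := hx
      exact h n x hn hz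
    | algebraMap x => exact g.commutes x
    | add x y _ _ hx hy => rw [map_add, hx, hy]
    | inv x _ hx => rw [map_inv₀, hx]
    | mul x y _ _ hx hy => rw [map_mul, hx, hy]

theorem root_mem_KMu {n : ℕ} (hn : 0 < n) {z : PadicAlgCl p} (hz : z ^ n = 1) : z ∈ KMu p :=
  IntermediateField.subset_adjoin _ _ ⟨n, hn, hz⟩

theorem UU_le_KMu : UU p ≤ KMu p :=
  IntermediateField.adjoin_le_iff.2 fun _ hz => Mu_mem_KMu hz

theorem KMu_fix_le {g : GG p} (hg : g ∈ (KMu p).fixingSubgroup) : ∀ z ∈ Mu p, g z = z :=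
  fun z hz => mem_fix.1 hg z (Mu_mem_KMu hz)

/-- An automorphism which fixes the roots of unity of order prime to `p` is trivial on the residue field. -/
theorem res_triv {g : GG p} (hg : ∀ z ∈ Mu p, g z = z) {x : PadicAlgCl p} (hx : ‖x‖ ≤ 1) :
    ‖g x - x‖ < 1 := by
  rcases hx.eq_or_lt with h | h
  · obtain ⟨z, hz, h1⟩ := exists_teich h
    have h2 : g x - x = g (x - z) - (x - z) := by rw [map_sub, hg z hz]; ring
    rw [h2, sub_eq_add_neg]
    refine lt_of_le_of_lt (PadicAlgCl.isNonarchimedean p _ _) (max_lt ?_ ?_)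
    · rw [norm_gal]; exact h1
    · rw [norm_neg]; exact h1
  · rw [sub_eq_add_neg]
    refine lt_of_le_of_lt (PadicAlgCl.isNonarchimedean p _ _) (max_lt ?_ ?_)
    · rw [norm_gal]; exact h
    · rw [norm_neg]; exact h

theorem norm_add_le_max' (x y : PadicAlgCl p) : ‖x + y‖ ≤ max ‖x‖ ‖y‖ :=
  PadicAlgCl.isNonarchimedean p x y

theorem norm_sub_le_max' (x y : PadicAlgCl p) : ‖x - y‖ ≤ max ‖x‖ ‖y‖ := by
  rw [sub_eq_add_neg, ← norm_neg y]
  exact norm_add_le_max' x (-y)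

theorem norm_root {n : ℕ} (hn : 0 < n) {z : PadicAlgCl p} (hz : z ^ n = 1) : ‖z‖ = 1 :=
  norm_Mu hn.ne' hz

section chars

variable {χ ψ : Chr p}

theorem Sm.one : Sm (1 : Chr p) :=
  ⟨⊥, inferInstance, fun _ _ => rfl⟩

theorem Sm.mul (h : Sm χ) (h' : Sm ψ) : Sm (χ * ψ) := by
  obtain ⟨L, hL, h1⟩ := h
  obtain ⟨L', hL', h2⟩ := h'
  refine ⟨L ⊔ L', IntermediateField.finiteDimensional_sup L L', fun g hg => ?_⟩
  have h3 : g ∈ L.fixingSubgroup := mem_fix.2 fun x hx => mem_fix.1 hg x (le_sup_left (a := L) (b := L') hx)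
  have h4 : g ∈ L'.fixingSubgroup := mem_fix.2 fun x hx => mem_fix.1 hg x (le_sup_right (a := L) (b := L') hx)
  rw [MonoidHom.mul_apply, h1 g h3, h2 g h4, one_mul]

theorem Sm.inv (h : Sm χ) : Sm χ⁻¹ := by
  obtain ⟨L, hL, h1⟩ := h
  exact ⟨L, hL, fun g hg => by rw [MonoidHom.inv_apply, h1 g hg, inv_one]⟩

theorem Sm.pow (h : Sm χ) (n : ℕ) : Sm (χ ^ n) := by
  obtain ⟨L, hL, h1⟩ := h
  exact ⟨L, hL, fun g hg => by rw [MonoidHom.pow_apply, h1 g hg, one_pow]⟩

theorem X2.one : X2 (1 : Chr p) := fun _ _ => rfl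

theorem X2.mul (h : X2 χ) (h' : X2 ψ) : X2 (χ * ψ) := fun g hg => by
  rw [MonoidHom.mul_apply, h g hg, h' g hg, one_mul]

theorem X2.inv (h : X2 χ) : X2 χ⁻¹ := fun g hg => by
  rw [MonoidHom.inv_apply, h g hg, inv_one]

/-- (`pow_mul` does not apply syntactically to characters) -/
theorem chr_pow_mul (χ : Chr p) (m n : ℕ) : χ ^ (m * n) = (χ ^ m) ^ n := by
  refine MonoidHom.ext fun g => ?_
  rw [MonoidHom.pow_apply, MonoidHom.pow_apply, MonoidHom.pow_apply, pow_mul]

theorem chr_pow_apply (χ : Chr p) (n : ℕ) (g : GG p) : (χ ^ n) g = χ g ^ n := MonoidHom.pow_apply χ n g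

theorem chr_pow_one_iff (χ : Chr p) (n : ℕ) : χ ^ n = 1 ↔ ∀ g, χ g ^ n = 1 := by
  constructor
  · intro h g
    rw [← chr_pow_apply, h]
    rfl
  · intro h
    refine MonoidHom.ext fun g => ?_
    rw [chr_pow_apply, h g]
    rfl

theorem X2.pow (h : X2 χ) (n : ℕ) : X2 (χ ^ n) := fun g hg => by
  rw [MonoidHom.pow_apply, h g hg, one_pow]

end chars

/-- The distance of the primitive roots of unity of order `p ^ (n + 1)` to one. -/
theorem norm_sub_one (n : ℕ) (ζ : PadicAlgCl p) (hζ : IsPrimitiveRoot ζ (p ^ (n + 1))) :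
    ‖ζ - 1‖ ^ ((p - 1) * p ^ n) = (p : ℝ)⁻¹ := by
  have hpos : 0 < p ^ (n + 1) := pow_pos hp.out.pos _
  have hle : ∀ a b : PadicAlgCl p, IsPrimitiveRoot a (p ^ (n + 1)) → IsPrimitiveRoot b (p ^ (n + 1)) →
      ‖b - 1‖ ≤ ‖a - 1‖ := by
    intro a b ha hb
    obtain ⟨i, _, rfl⟩ := ha.eq_pow_of_pow_eq_one hb.pow_eq_one
    have h1 : a ^ i - 1 = (a - 1) * ∑ j ∈ Finset.range i, a ^ j := by
      rw [mul_comm, geom_sum_mul]
    have ha1 : ‖a‖ = 1 := by
      have h2 : ‖a‖ ^ (p ^ (n + 1)) = 1 := by rw [← norm_pow, ha.pow_eq_one, norm_one]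
      exact (pow_eq_one_iff_of_nonneg (norm_nonneg _) hpos.ne').1 h2
    rw [h1, norm_mul]
    apply mul_le_of_le_one_right (norm_nonneg _)
    apply IsUltrametricDist.norm_sum_le_of_forall_le_of_nonneg zero_le_one
    intro j _
    rw [norm_pow, ha1, one_pow]
  have hprod : (p : PadicAlgCl p) = ∏ μ ∈ primitiveRoots (p ^ (n + 1)) (PadicAlgCl p), (1 - μ) := by
    have h1 := cyclotomic_eq_prod_X_sub_primitiveRoots hζ
    have h2 := congrArg (eval 1) h1
    rw [eval_one_cyclotomic_prime_pow, eval_prod] at h2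
    rw [h2]
    apply Finset.prod_congr rfl
    intro μ _
    simp
  have hn := congrArg norm hprod
  rw [norm_prod] at hn
  have h3 : ∀ μ ∈ primitiveRoots (p ^ (n + 1)) (PadicAlgCl p), ‖1 - μ‖ = ‖ζ - 1‖ := by
    intro μ hμ
    rw [mem_primitiveRoots hpos] at hμ
    rw [norm_sub_rev]
    exact le_antisymm (hle ζ μ hζ hμ) (hle μ ζ hμ hζ)
  rw [Finset.prod_congr rfl h3, Finset.prod_const, hζ.card_primitiveRoots,
    Nat.totient_prime_pow_succ hp.out] at hn
  rw [mul_comm, ← hn]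
  exact norm_p_cl

/-- The norm of `ζ - 1`, `ζ` a primitive `p`-th root of unity. -/
theorem norm_lam {ζ : PadicAlgCl p} (hζ : IsPrimitiveRoot ζ p) : ‖ζ - 1‖ ^ (p - 1) = (p : ℝ)⁻¹ := by
  have := norm_sub_one 0 ζ (by rw [zero_add, pow_one]; exact hζ)
  rwa [pow_zero, mul_one] at this

theorem lam_pos {ζ : PadicAlgCl p} (hζ : IsPrimitiveRoot ζ p) : 0 < ‖ζ - 1‖ := by
  rw [norm_pos_iff, sub_ne_zero]
  exact hζ.ne_one hp.out.one_lt

theorem lam_lt {ζ : PadicAlgCl p} (hζ : IsPrimitiveRoot ζ p) : ‖ζ - 1‖ < 1 := by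
  by_contra hc
  rw [not_lt] at hc
  have h1 := norm_lam hζ
  have h2 : (p : ℝ)⁻¹ < 1 := inv_lt_one_of_one_lt₀ one_lt_p
  exact absurd (h1 ▸ one_le_pow₀ hc) (not_le.2 h2)

/-- `|p| = |λ| ^ (p - 1)`, written without subtraction. -/
theorem norm_p_lam {ζ : PadicAlgCl p} (hζ : IsPrimitiveRoot ζ p) :
    ‖(p : PadicAlgCl p)‖ * ‖ζ - 1‖ = ‖ζ - 1‖ ^ p := by
  rw [norm_p_cl, ← norm_lam hζ, ← pow_succ, Nat.sub_add_cancel hp.out.one_lt.le]

end Pool.Agent.H22.KW
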