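import Pool.Agent.H22.KW.Bas

/-!
# Module Chars: characters of finite commutative groups with a given value

There is a character `Θ` of `B` with `Θ u = ω`: the character `u ^ k ↦ ω ^ k` of `zpowers u` extends to `B`, since the units of an algebraically closed field are divisible (or since `Mathlib/GroupTheory/FiniteAbelian/Duality.lean` has the extension of characters: look for `restrict`, `surjective`;
or count: the restriction from the characters of `B` to those of `zpowers u` has kernel the characters of the quotient; or by induction on a finite generating set). Let `|B| = p ^ r * n'` with `p ∤ n'`, and choose a natural number `e` with `e ≡ 1` modulo `p ^ m`, `n' ∣ e` (`Nat.chineseRemainder`). `Θ ^ e`: `ω ^ e = ω`, and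
`(Θ ^ e) ^ p ^ r = 1` since `|B| ∣ e p ^ r`. (`chr_pow_mul` of `Bas` shows how to treat powers of homomorphisms, for which `pow_mul` does not apply.)
-/

set_option autoImplicit false

namespace Pool.Agent.H22.KW

open Polynomial Pool.Agent.H55.Tilt Pool.Agent.H22.QA

open scoped IntermediateField

variable {p : ℕ} [hp : Fact p.Prime]

private theorem exists_char_aux {B : Type} [CommGroup B] [Finite B] (u : B) (ω : (PadicAlgCl p)ˣ)
    (hu : ω ^ orderOf u = 1) : ∃ Θ : B →* (PadicAlgCl p)ˣ, Θ u = ω := by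
  have hne : NeZero ((Monoid.exponent B : ℕ) : PadicAlgCl p) :=
    ⟨Nat.cast_ne_zero.2 (Monoid.exponent_ne_zero_of_finite)⟩
  have hEn : HasEnoughRootsOfUnity (PadicAlgCl p) (Monoid.exponent B) :=
    IsSepClosed.hasEnoughRootsOfUnity (PadicAlgCl p) (Monoid.exponent B)
  have hg : ∀ x : Subgroup.zpowers u, x ∈ Subgroup.zpowers (⟨u, Subgroup.mem_zpowers u⟩ : Subgroup.zpowers u) := by
    rintro ⟨x, k, rfl⟩
    exact ⟨k, Subtype.ext (by simp)⟩
  have ho : orderOf ω ∣ orderOf (⟨u, Subgroup.mem_zpowers u⟩ : Subgroup.zpowers u) := by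
    rw [Subgroup.orderOf_mk]
    exact orderOf_dvd_of_pow_eq_one hu
  obtain ⟨Θ, hΘ⟩ := MonoidHom.domRestrict_surjective (M := PadicAlgCl p) (Subgroup.zpowers u)
    (monoidHomOfForallMemZpowers hg ho)
  refine ⟨Θ, ?_⟩
  have h1 := DFunLike.congr_fun hΘ (⟨u, Subgroup.mem_zpowers u⟩ : Subgroup.zpowers u)
  rw [monoidHomOfForallMemZpowers_apply_gen] at h1
  exact h1

theorem exists_char {B : Type} [CommGroup B] [Finite B] (u : B) {m : ℕ} (ω : (PadicAlgCl p)ˣ)
    (h : ω ^ p ^ m = 1) (hu : ω ^ orderOf u = 1) :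
    ∃ Θ : B →* (PadicAlgCl p)ˣ, Θ u = ω ∧ ∃ r : ℕ, Θ ^ p ^ r = 1 := by
  obtain ⟨Θ, hΘ⟩ := exists_char_aux u ω hu
  obtain ⟨r, n', hn', hB⟩ := Nat.exists_eq_pow_mul_and_not_dvd (n := Nat.card B) Nat.card_pos.ne' p hp.out.ne_one
  have hco : Nat.Coprime (p ^ m) n' := Nat.Coprime.pow_left m ((Nat.Prime.coprime_iff_not_dvd hp.out).2 hn')
  obtain ⟨e, he1, he2⟩ := Nat.chineseRemainder hco 1 0
  have hdv : n' ∣ e := (Nat.modEq_zero_iff_dvd).1 he2
  obtain ⟨c, rfl⟩ := hdv
  refine ⟨Θ ^ (n' * c), ?_, r, ?_⟩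
  · rw [MonoidHom.pow_apply, hΘ]
    have h2 : (n' * c) ≡ 1 [MOD orderOf ω] :=
      he1.of_dvd (orderOf_dvd_of_pow_eq_one h)
    have h3 := (pow_eq_pow_iff_modEq (x := ω)).2 h2
    rw [h3, pow_one]
  · refine MonoidHom.ext fun b => ?_
    rw [MonoidHom.pow_apply, MonoidHom.pow_apply, ← pow_mul, ← map_pow]
    have h4 : n' * c * p ^ r = Nat.card B * c := by rw [hB]; ring
    rw [h4, pow_mul, pow_card_eq_one', one_pow, map_one]
    rfl

end Pool.Agent.H22.KW
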