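import Pool.Agent.H22.KW.Bas

/-!
# Module Cpt: compactness of the Galois group

The Krull topology on `PadicAlgCl p ≃ₐ[ℚ_[p]] PadicAlgCl p` is compact (`Mathlib/FieldTheory/Galois/Profinite.lean`, instance `CompactSpace Gal(K/k)` for Galois extensions) and the stabiliser of an element
(`(ℚ_[p]⟮x⟯).fixingSubgroup`, a finite extension) is open (`IntermediateField.fixingSubgroup_isOpen`); so `{g | g x = y}` is empty or a coset of an open subgroup, which is clopen. `cpt`: nested nonempty closed subsets of a compact space.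
`isOpen_ker`: `χ.ker` contains the open subgroup `L.fixingSubgroup` (`Subgroup.isOpen_mono`).
-/

set_option autoImplicit false

namespace Pool.Agent.H22.KW

open Polynomial Pool.Agent.H55.Tilt Pool.Agent.H22.QA

open scoped IntermediateField

variable {p : ℕ} [hp : Fact p.Prime]

theorem isClosed_eval (x y : PadicAlgCl p) : IsClosed {g : GG p | g x = y} := by
  rcases Set.eq_empty_or_nonempty {g : GG p | g x = y} with he | ⟨g₀, hg₀⟩
  · rw [he]
    exact isClosed_empty
  · have hint : IsIntegral ℚ_[p] x := Algebra.IsIntegral.isIntegral x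
    haveI : FiniteDimensional ℚ_[p] ℚ_[p]⟮x⟯ := IntermediateField.adjoin.finiteDimensional hint
    have hcl : IsClosed ((ℚ_[p]⟮x⟯).fixingSubgroup : Set (GG p)) :=
      IntermediateField.fixingSubgroup_isClosed _
    have heq : {g : GG p | g x = y} = (fun g => g₀⁻¹ * g) ⁻¹' ((ℚ_[p]⟮x⟯).fixingSubgroup : Set (GG p)) := by
      ext g
      simp only [Set.mem_setOf_eq, Set.mem_preimage, SetLike.mem_coe]
      have hg₀' : g₀ x = y := hg₀
      have hinv : ∀ z : PadicAlgCl p, g₀⁻¹ (g₀ z) = z := fun z => by
        rw [← AlgEquiv.mul_apply, inv_mul_cancel, AlgEquiv.one_apply]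
      constructor
      · intro hg
        have h1 : (g₀⁻¹ * g) x = x := by
          rw [AlgEquiv.mul_apply, hg, ← hg₀', hinv]
        rw [mem_fix]
        intro z hz
        induction hz using IntermediateField.adjoin_induction with
        | mem z hz =>
          rw [Set.mem_singleton_iff] at hz
          rw [hz, h1]
        | algebraMap z => exact (g₀⁻¹ * g).commutes z
        | add z w _ _ hz hw => rw [map_add, hz, hw]
        | inv z _ hz => rw [map_inv₀, hz]
        | mul z w _ _ hz hw => rw [map_mul, hz, hw]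
      · intro hg
        have h1 : (g₀⁻¹ * g) x = x := mem_fix.1 hg x (IntermediateField.mem_adjoin_simple_self _ _)
        rw [AlgEquiv.mul_apply] at h1
        have h2 := congrArg g₀ h1
        rw [← AlgEquiv.mul_apply, mul_inv_cancel, AlgEquiv.one_apply] at h2
        rw [h2, hg₀']
    rw [heq]
    exact hcl.preimage (continuous_const.mul continuous_id)

theorem isOpen_ker {χ : Chr p} (hχ : Sm χ) : IsOpen {g : GG p | χ g = 1} := by
  obtain ⟨L, hL, h⟩ := hχ
  haveI := hL
  have h1 : IsOpen (L.fixingSubgroup : Set (GG p)) := IntermediateField.fixingSubgroup_isOpen L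
  have h2 : L.fixingSubgroup ≤ χ.ker := fun g hg => by
    rw [MonoidHom.mem_ker]
    exact h g hg
  have h3 : IsOpen (χ.ker : Set (GG p)) := Subgroup.isOpen_mono h2 h1
  have h4 : {g : GG p | χ g = 1} = (χ.ker : Set (GG p)) := by
    ext g
    simp [MonoidHom.mem_ker]
  rw [h4]
  exact h3

theorem cpt (S : ℕ → Set (GG p)) (hcl : ∀ n, IsClosed (S n)) (hmono : ∀ n, S (n + 1) ⊆ S n)
    (hne : ∀ n, (S n).Nonempty) : ∃ g, ∀ n, g ∈ S n := by
  haveI : CompactSpace (GG p) := inferInstance
  obtain ⟨g, hg⟩ := IsCompact.nonempty_iInter_of_sequence_nonempty_isCompact_isClosed S hmono hne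
    (hcl 0).isCompact hcl
  exact ⟨g, fun n => Set.mem_iInter.1 hg n⟩

end Pool.Agent.H22.KW
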