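import Pool.Agent.H22.KW.Bas

/-!
# Module Cyc: the cyclotomic character modulo `M`

`modularCyclotomicCharacter` (`Mathlib/NumberTheory/Cyclotomic/CyclotomicCharacter.lean`; the number of `M`-th roots of unity of an algebraically closed field of characteristic zero is `M`), restricted to the algebra automorphisms; or from a primitive root by
`IsPrimitiveRoot.autToPow`, which is defined for `L ≃ₐ[K] L`.
-/

set_option autoImplicit false

namespace Pool.Agent.H22.KW

open Polynomial Pool.Agent.H55.Tilt Pool.Agent.H22.QA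

open scoped IntermediateField

variable {p : ℕ} [hp : Fact p.Prime]

theorem exists_cyc (p : ℕ) [Fact p.Prime] (M : ℕ) (hM : 0 < M) : ∃ κ : GG p →* (ZMod M)ˣ,
    ∀ (g : GG p) (z : PadicAlgCl p), z ^ M = 1 → g z = z ^ ((κ g : (ZMod M)ˣ) : ZMod M).val := by
  have hM0 : NeZero M := ⟨hM.ne'⟩
  have hMp : NeZero (M : PadicAlgCl p) := ⟨by exact_mod_cast hM.ne'⟩
  obtain ⟨ζ, hζ⟩ := HasEnoughRootsOfUnity.exists_primitiveRoot (PadicAlgCl p) M
  refine ⟨hζ.autToPow ℚ_[p], fun g z hz => ?_⟩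
  obtain ⟨i, -, rfl⟩ := hζ.eq_pow_of_pow_eq_one hz
  rw [map_pow, ← hζ.autToPow_spec ℚ_[p] g, ← pow_mul, ← pow_mul, mul_comm]

end Pool.Agent.H22.KW
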