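import Pool.Agent.H22.KW.Cpt

/-!
# Module Fac: a smooth character trivial on the automorphisms fixing all roots of unity has finite level

Otherwise `cpt` with `S n = {g | (∀ z, z ^ n ! = 1 → g z = z) ∧ χ g ≠ 1}`: closed by `isClosed_eval` and `isOpen_ker`, decreasing (`n ! ∣ (n + 1) !`), nonempty by assumption (`M = n !`). The element `g` obtained fixes all roots of unity (`z ^ n = 1` implies `z ^ n ! = 1`), so
`g ∈ (KMu p).fixingSubgroup` (`mem_fix_KMu`) and `χ g = 1` by `h2`, contradiction.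
-/

set_option autoImplicit false

namespace Pool.Agent.H22.KW

open Polynomial Pool.Agent.H55.Tilt Pool.Agent.H22.QA

open scoped IntermediateField

variable {p : ℕ} [hp : Fact p.Prime]

theorem fac {χ : Chr p} (hχ : Sm χ) (h2 : X2 χ) :
    ∃ M : ℕ, 0 < M ∧ ∀ g : GG p, (∀ z : PadicAlgCl p, z ^ M = 1 → g z = z) → χ g = 1 := by
  by_contra hcon
  push Not at hcon
  obtain ⟨g, hg⟩ := cpt (p := p)
    (fun n => {g : GG p | (∀ z : PadicAlgCl p, z ^ n.factorial = 1 → g z = z) ∧ χ g ≠ 1})
    (fun n => by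
      have h3 : {g : GG p | (∀ z : PadicAlgCl p, z ^ n.factorial = 1 → g z = z) ∧ χ g ≠ 1} =
          (⋂ z : PadicAlgCl p, ⋂ _ : z ^ n.factorial = 1, {g : GG p | g z = z}) ∩
            {g : GG p | χ g = 1}ᶜ := by
        ext g
        simp only [Set.mem_ofPred_eq, Set.mem_inter_iff, Set.mem_iInter, Set.mem_compl_iff, ne_eq]
      rw [h3]
      exact (isClosed_iInter fun z => isClosed_iInter fun _ => isClosed_eval z z).inter
        (isOpen_ker hχ).isClosed_compl)
    (fun n g hg => by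
      refine ⟨fun z hz => hg.1 z ?_, hg.2⟩
      obtain ⟨k, hk⟩ := Nat.factorial_dvd_factorial (Nat.le_succ n)
      rw [hk, pow_mul, hz, one_pow])
    (fun n => by
      obtain ⟨g, hg, hne⟩ := hcon n.factorial (Nat.factorial_pos n)
      exact ⟨g, hg, hne⟩)
  refine (hg 0).2 (h2 g (mem_fix_KMu.2 fun n z hn hz => ?_))
  refine (hg n).1 z ?_
  obtain ⟨k, hk⟩ := Nat.dvd_factorial hn le_rfl
  rw [hk, pow_mul, hz, one_pow]

end Pool.Agent.H22.KW
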