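import Pool.Agent.H22.KW.Bas

/-!
# Module Fld: the field `ℚ_p(ζ)`, `ζ` a primitive `p`-th root of unity

Write `λ = ζ - 1`, `‖λ‖ ^ (p - 1) = p⁻¹` (`norm_lam`), `0 < ‖λ‖ < 1` (`lam_pos`, `lam_lt`), `‖p‖ * ‖λ‖ = ‖λ‖ ^ p` (`norm_p_lam`). `rep`: `adj_poly` for `λ`, `ℚ_[p]⟮ζ⟯ = ℚ_[p]⟮λ⟯`; division with remainder by the monic polynomial
`(cyclotomic p ℚ_[p]).comp (X + 1)` of degree `p - 1` with root `λ` (cf. `exists_poly_lt` in `Pool/Agent/H55/Tilt/Root.lean`); `aeval_eq_sum`. Then `term_le`, `norm_eq_term` of `Pool/Agent/H55/Tilt/Sys.lean` (`m = p - 1`).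
`norm_int_iff`: `norm_int_lt_one_iff` and `norm_algebraMap`. `F1_norm`: `norm_eq_term`, `‖x‖ = ‖c k‖ * ‖λ‖ ^ k`, `‖c k‖ = p ^ j = ‖λ‖ ^ (-(p - 1) j)`. `F1_lt`: from `F1_norm` (if `x ≠ 0`), `‖λ‖ < 1`. `F1_int`: `‖c j‖ * ‖λ‖ ^ j ≤ 1` (`term_le`), so `‖c j‖ < p` for `j < p - 1` and
`‖c j‖ ≤ 1` (`norm_le_one_of_lt`); `c 0` is congruent to an integer modulo `p` (`exists_int_sub`), the other terms have norm `≤ ‖λ‖`; `p⁻¹ ≤ ‖λ‖`; replace the integer by its residue modulo `p` (for `p = 2` the sum has one term).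
-/

set_option autoImplicit false

namespace Pool.Agent.H22.KW

open Polynomial Pool.Agent.H55.Tilt Pool.Agent.H22.QA

open scoped IntermediateField

variable {p : ℕ} [hp : Fact p.Prime]

variable {ζ : PadicAlgCl p}

private theorem p_sub_pos : 0 < p - 1 := by
  have := hp.out.two_le
  omega

theorem rep (hζ : IsPrimitiveRoot ζ p) {x : PadicAlgCl p} (hx : x ∈ ℚ_[p]⟮ζ⟯) : ∃ c : ℕ → ℚ_[p],
    x = ∑ j ∈ Finset.range (p - 1), algebraMap ℚ_[p] (PadicAlgCl p) (c j) * (ζ - 1) ^ j := by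
  obtain ⟨P, hP⟩ := adj_poly ζ x hx
  set q : Polynomial ℚ_[p] := (cyclotomic p ℚ_[p]).comp (X + C 1) with hq
  have hqdeg : q.natDegree = p - 1 := by
    rw [hq, natDegree_comp, natDegree_X_add_C, mul_one, natDegree_cyclotomic,
      Nat.totient_prime hp.out]
  have hqm : q.Monic := by
    rw [hq]
    refine (cyclotomic.monic p ℚ_[p]).comp (monic_X_add_C 1) ?_
    rw [natDegree_X_add_C]
    exact one_ne_zero
  have hcomp : ∀ R : Polynomial ℚ_[p], aeval (ζ - 1) (R.comp (X + C 1)) = aeval ζ R := by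
    intro R
    rw [aeval_comp]
    congr 1
    simp
  have hq0 : aeval (ζ - 1) q = 0 := by
    rw [hq, hcomp, aeval_def, eval₂_eq_eval_map, map_cyclotomic]
    exact hζ.isRoot_cyclotomic hp.out.pos
  have hne : q ≠ 1 := by
    intro h
    rw [h, natDegree_one] at hqdeg
    have := p_sub_pos (p := p)
    omega
  have hlt := natDegree_modByMonic_lt (P.comp (X + C 1)) hqm hne
  rw [hqdeg] at hlt
  refine ⟨fun j => ((P.comp (X + C 1)) %ₘ q).coeff j, ?_⟩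
  rw [← aeval_eq_sum (ζ - 1) _ hlt]
  have h1 := Polynomial.modByMonic_add_div (P.comp (X + C 1)) q
  have h2 := congrArg (aeval (ζ - 1)) h1
  rw [map_add, map_mul, hq0, zero_mul, add_zero, hcomp, hP] at h2
  exact h2.symm

theorem norm_int_iff (k : ℤ) : ‖(k : PadicAlgCl p)‖ < 1 ↔ (p : ℤ) ∣ k := by
  have h := Pool.Agent.H55.Tilt.norm_algebraMap (p := p) (k : ℚ_[p])
  rw [map_intCast] at h
  rw [h]
  exact norm_int_lt_one_iff k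

theorem F1_norm (hζ : IsPrimitiveRoot ζ p) {x : PadicAlgCl p} (hx : x ∈ ℚ_[p]⟮ζ⟯) (hx0 : x ≠ 0) :
    ∃ n : ℤ, ‖x‖ = ‖ζ - 1‖ ^ n := by
  obtain ⟨c, hc⟩ := rep hζ hx
  obtain ⟨k, hk, hk'⟩ := norm_eq_term (ζ - 1) (p - 1) p_sub_pos (norm_lam hζ) c
  rw [← hc] at hk'
  have hck : c k ≠ 0 := by
    intro h
    rw [h, norm_zero, zero_mul] at hk'
    exact hx0 (norm_eq_zero.1 hk')
  have hl := lam_pos hζ
  refine ⟨((p - 1 : ℕ) : ℤ) * (c k).valuation + k, ?_⟩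
  have hpl : (p : ℝ) = ‖ζ - 1‖ ^ (-(((p - 1 : ℕ) : ℤ))) := by
    rw [zpow_neg, zpow_natCast, norm_lam hζ, inv_inv]
  rw [hk', Padic.norm_eq_zpow_neg_valuation hck, hpl, ← zpow_mul, zpow_add₀ hl.ne', zpow_natCast]
  congr 2
  ring

theorem F1_lt (hζ : IsPrimitiveRoot ζ p) {x : PadicAlgCl p} (hx : x ∈ ℚ_[p]⟮ζ⟯) {n : ℕ}
    (h : ‖x‖ < ‖ζ - 1‖ ^ n) : ‖x‖ ≤ ‖ζ - 1‖ ^ (n + 1) := by
  have hl := lam_pos hζ
  by_cases hx0 : x = 0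
  · rw [hx0, norm_zero]
    positivity
  · obtain ⟨m, hm⟩ := F1_norm hζ hx hx0
    rw [hm] at h ⊢
    rw [← zpow_natCast] at h ⊢
    have h1 : (n : ℤ) < m := (zpow_lt_zpow_iff_right_of_lt_one₀ hl (lam_lt hζ)).1 h
    exact (zpow_le_zpow_iff_right_of_lt_one₀ hl (lam_lt hζ)).2 (by push_cast; omega)

theorem F1_int (hζ : IsPrimitiveRoot ζ p) {x : PadicAlgCl p} (hx : x ∈ ℚ_[p]⟮ζ⟯) (h : ‖x‖ ≤ 1) :
    ∃ k : ℕ, k < p ∧ ‖x - k‖ ≤ ‖ζ - 1‖ := by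
  obtain ⟨c, hc⟩ := rep hζ hx
  have hl := lam_pos hζ
  have hl1 := lam_lt hζ
  have hterm : ∀ j, j < p - 1 → ‖c j‖ ≤ 1 := by
    intro j hj
    apply norm_le_one_of_lt
    have h1 := term_le (ζ - 1) (p - 1) (norm_lam hζ) c hj
    rw [← hc] at h1
    have h2 : ‖c j‖ * ‖ζ - 1‖ ^ j ≤ 1 := h1.trans h
    have h3 : ‖ζ - 1‖ ^ (p - 1) < ‖ζ - 1‖ ^ j := pow_lt_pow_right_of_lt_one₀ hl hl1 hj
    rw [norm_lam hζ] at h3
    have hp0 : (0 : ℝ) < p := p_pos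
    by_contra hcon
    push Not at hcon
    have h4 : (p : ℝ) * (p : ℝ)⁻¹ < ‖c j‖ * ‖ζ - 1‖ ^ j :=
      mul_lt_mul' hcon h3 (inv_pos.2 hp0).le (lt_of_lt_of_le hp0 hcon)
    rw [mul_inv_cancel₀ hp0.ne'] at h4
    linarith
  have hple : (p : ℝ)⁻¹ ≤ ‖ζ - 1‖ := by
    rw [← norm_lam hζ]
    exact pow_le_of_le_one hl.le hl1.le p_sub_pos.ne'
  obtain ⟨k₀, hk₀⟩ := exists_int_sub (hterm 0 p_sub_pos)
  have hp0 : (0 : ℤ) < p := by exact_mod_cast hp.out.pos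
  have hmod0 : 0 ≤ k₀ % (p : ℤ) := Int.emod_nonneg _ hp0.ne'
  have hmod1 : k₀ % (p : ℤ) < p := Int.emod_lt_of_pos _ hp0
  refine ⟨(k₀ % (p : ℤ)).toNat, by omega, ?_⟩
  have hcast : (((k₀ % (p : ℤ)).toNat : ℕ) : ℚ_[p]) = ((k₀ % (p : ℤ) : ℤ) : ℚ_[p]) := by
    have : (((k₀ % (p : ℤ)).toNat : ℕ) : ℤ) = k₀ % (p : ℤ) := Int.toNat_of_nonneg hmod0
    rw [← Int.cast_natCast, this]
  have hk1 : ‖(k₀ : ℚ_[p]) - (((k₀ % (p : ℤ)).toNat : ℕ) : ℚ_[p])‖ ≤ (p : ℝ)⁻¹ := by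
    rw [hcast, ← Int.cast_sub]
    apply norm_int_le_of_dvd
    exact Int.dvd_self_sub_emod
  have hc0 : ‖c 0 - (((k₀ % (p : ℤ)).toNat : ℕ) : ℚ_[p])‖ ≤ (p : ℝ)⁻¹ := by
    have h5 : c 0 - (((k₀ % (p : ℤ)).toNat : ℕ) : ℚ_[p]) =
        (c 0 - k₀) + ((k₀ : ℚ_[p]) - (((k₀ % (p : ℤ)).toNat : ℕ) : ℚ_[p])) := by ring
    rw [h5]
    exact (IsUltrametricDist.norm_add_le_max _ _).trans (max_le hk₀ hk1)
  obtain ⟨m, hm⟩ : ∃ m, p - 1 = m + 1 := ⟨p - 2, by have := hp.out.two_le; omega⟩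
  have hx2 : x - (((k₀ % (p : ℤ)).toNat : ℕ) : PadicAlgCl p) =
      ∑ j ∈ Finset.range m, algebraMap ℚ_[p] (PadicAlgCl p) (c (j + 1)) * (ζ - 1) ^ (j + 1) +
        algebraMap ℚ_[p] (PadicAlgCl p) (c 0 - (((k₀ % (p : ℤ)).toNat : ℕ) : ℚ_[p])) := by
    conv_lhs => rw [hc]
    rw [hm, Finset.sum_range_succ', pow_zero, mul_one, map_sub, map_natCast]
    ring
  rw [hx2]
  refine (norm_add_le_max' _ _).trans (max_le ?_ ?_)
  · apply IsUltrametricDist.norm_sum_le_of_forall_le_of_nonneg hl.le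
    intro j hj
    have hj' : j + 1 < p - 1 := by
      have := Finset.mem_range.1 hj
      omega
    rw [norm_mul, norm_pow, Pool.Agent.H55.Tilt.norm_algebraMap]
    calc ‖c (j + 1)‖ * ‖ζ - 1‖ ^ (j + 1) ≤ 1 * ‖ζ - 1‖ := by
          apply mul_le_mul (hterm _ hj') _ (by positivity) zero_le_one
          exact pow_le_of_le_one hl.le hl1.le (Nat.succ_ne_zero j)
      _ = ‖ζ - 1‖ := one_mul _
  · rw [Pool.Agent.H55.Tilt.norm_algebraMap]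
    exact hc0.trans hple

end Pool.Agent.H22.KW
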