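import Pool.Agent.H22.KW.Fld

/-!
# Module FldB: the field `ℚ_p(ζ)`, continued

`λ = ζ - 1`. `F1_mem`: `g ζ` is a power of `ζ`. `F1_lam`: `g λ = ζ ^ c - 1 = λ ∑ j < c, ζ ^ j` and `‖ζ ^ j - 1‖ ≤ ‖λ‖`. `F1_triv`: `F1_int`, `g x - x = g (x - k) - (x - k)`, `norm_gal`. `F1_powp`: `‖b ^ p - 1‖ < 1` gives `‖b‖ = 1` (`b ^ p` has norm one) and `‖b - 1‖ < 1`
(`cong_one_of_pow` of `Pool/Agent/H22/QA/UnrB`, `s = 1`), so `‖b - 1‖ ≤ ‖λ‖` (`F1_lt`, `n = 0`); `b = 1 + w`, `b ^ p - 1 = w ^ p + p w (..)` with an integral factor (`exists_add_pow_prime_eq` in the ring `OC p`, as in the proof of `cong_one_of_pow`), and `‖p‖ ‖w‖ ≤ ‖p‖ ‖λ‖ = ‖λ‖ ^ p`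
(`norm_p_lam`).
-/

set_option autoImplicit false

namespace Pool.Agent.H22.KW

open Polynomial Pool.Agent.H55.Tilt Pool.Agent.H22.QA

open scoped IntermediateField

variable {p : ℕ} [hp : Fact p.Prime]

variable {ζ : PadicAlgCl p}

theorem F1_mem (hζ : IsPrimitiveRoot ζ p) (g : GG p) {x : PadicAlgCl p} (hx : x ∈ ℚ_[p]⟮ζ⟯) :
    g x ∈ ℚ_[p]⟮ζ⟯ := by
  have : NeZero p := ⟨hp.out.ne_zero⟩
  have hg : (g ζ) ^ p = 1 := by rw [← map_pow, hζ.pow_eq_one, map_one]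
  obtain ⟨i, _, hi⟩ := hζ.eq_pow_of_pow_eq_one hg
  induction hx using IntermediateField.adjoin_induction with
  | mem x hx =>
    have hx' : x = ζ := hx
    rw [hx', ← hi]
    exact pow_mem (IntermediateField.mem_adjoin_simple_self ℚ_[p] ζ) i
  | algebraMap x =>
    rw [g.commutes]
    exact (ℚ_[p]⟮ζ⟯).algebraMap_mem x
  | add x y _ _ hx hy => rw [map_add]; exact add_mem hx hy
  | inv x _ hx => rw [map_inv₀]; exact inv_mem hx
  | mul x y _ _ hx hy => rw [map_mul]; exact mul_mem hx hy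

private lemma norm_zeta_pow (hζ : IsPrimitiveRoot ζ p) (j : ℕ) : ‖ζ ^ j‖ = 1 := by
  rw [norm_pow, norm_root hp.out.pos hζ.pow_eq_one, one_pow]

private lemma norm_pow_sub_one (hζ : IsPrimitiveRoot ζ p) (j : ℕ) : ‖ζ ^ j - 1‖ ≤ ‖ζ - 1‖ := by
  have h1 : ζ ^ j - 1 = (ζ - 1) * ∑ i ∈ Finset.range j, ζ ^ i := by
    rw [mul_comm, geom_sum_mul]
  rw [h1, norm_mul]
  apply mul_le_of_le_one_right (norm_nonneg _)
  apply IsUltrametricDist.norm_sum_le_of_forall_le_of_nonneg zero_le_one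
  intro i _
  rw [norm_zeta_pow hζ]

theorem F1_lam (hζ : IsPrimitiveRoot ζ p) {g : GG p} {c : ℕ} (hc : g ζ = ζ ^ c) :
    ‖g (ζ - 1) - c * (ζ - 1)‖ ≤ ‖ζ - 1‖ ^ 2 := by
  have h1 : g (ζ - 1) - c * (ζ - 1) = (ζ - 1) * ∑ j ∈ Finset.range c, (ζ ^ j - 1) := by
    rw [map_sub, map_one, hc, Finset.sum_sub_distrib, mul_sub]
    have h2 : ζ ^ c - 1 = (ζ - 1) * ∑ i ∈ Finset.range c, ζ ^ i := by
      rw [mul_comm, geom_sum_mul]
    rw [h2]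
    simp
    ring
  rw [h1, norm_mul, pow_two]
  apply mul_le_mul_of_nonneg_left _ (norm_nonneg _)
  apply IsUltrametricDist.norm_sum_le_of_forall_le_of_nonneg (norm_nonneg _)
  intro j _
  exact norm_pow_sub_one hζ j

theorem F1_triv (hζ : IsPrimitiveRoot ζ p) (g : GG p) {x : PadicAlgCl p} (hx : x ∈ ℚ_[p]⟮ζ⟯)
    (h : ‖x‖ ≤ 1) : ‖g x - x‖ ≤ ‖ζ - 1‖ := by
  obtain ⟨k, _, hk⟩ := F1_int hζ hx h
  have h2 : g x - x = g (x - k) - (x - k) := by rw [map_sub, map_natCast]; ring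
  rw [h2]
  refine (norm_sub_le_max' _ _).trans (max_le ?_ hk)
  rw [norm_gal]
  exact hk

theorem F1_powp (hζ : IsPrimitiveRoot ζ p) {b : PadicAlgCl p} (hb : b ∈ ℚ_[p]⟮ζ⟯)
    (h : ‖b ^ p - 1‖ < 1) : ‖b ^ p - 1‖ ≤ ‖ζ - 1‖ ^ p := by
  have hb1 : ‖b‖ ≤ 1 := by
    have h1 : ‖b ^ p‖ ≤ 1 := by
      have h2 : b ^ p = (b ^ p - 1) + 1 := by ring
      rw [h2]
      refine (norm_add_le_max' _ _).trans (max_le h.le ?_)
      rw [norm_one]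
    rw [norm_pow] at h1
    exact (pow_le_one_iff_of_nonneg (norm_nonneg _) hp.out.ne_zero).1 h1
  have h1 : ‖b - 1‖ < 1 := cong_one_of_pow hb1 (s := 1) (by rw [pow_one]; exact h)
  have h2 : ‖b - 1‖ ≤ ‖ζ - 1‖ := by
    have h3 := F1_lt hζ (sub_mem hb (one_mem _)) (n := 0) (by rw [pow_zero]; exact h1)
    rwa [zero_add, pow_one] at h3
  let w : OC p := ⟨b - 1, sub_mem (mem_OC.2 hb1) (one_mem _)⟩
  obtain ⟨r, hr⟩ := exists_add_pow_prime_pow_eq hp.out (1 : OC p) w 1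
  have h3 := congrArg (fun t : OC p => (t : PadicAlgCl p)) hr
  simp only [Subring.coe_add, Subring.coe_mul, Subring.coe_pow, Subring.coe_one] at h3
  have hw : (w : PadicAlgCl p) = b - 1 := rfl
  rw [hw, add_sub_cancel, one_pow, mul_one, pow_one] at h3
  have h4 : ((p : OC p) : PadicAlgCl p) = (p : PadicAlgCl p) := by simp
  have h5 : b ^ p - 1 = (b - 1) ^ p + ((p : OC p) : PadicAlgCl p) * (b - 1) * r := by
    rw [h3]; ring
  have h6 : ‖(r : PadicAlgCl p)‖ ≤ 1 := r.2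
  rw [h5, h4]
  refine (norm_add_le_max' _ _).trans (max_le ?_ ?_)
  · rw [norm_pow]
    exact pow_le_pow_left₀ (norm_nonneg _) h2 p
  · rw [norm_mul, norm_mul]
    calc ‖(p : PadicAlgCl p)‖ * ‖b - 1‖ * ‖(r : PadicAlgCl p)‖
        ≤ ‖(p : PadicAlgCl p)‖ * ‖ζ - 1‖ * 1 := by
          apply mul_le_mul (mul_le_mul_of_nonneg_left h2 (norm_nonneg _)) h6 (norm_nonneg _)
            (by positivity)
      _ = ‖ζ - 1‖ ^ p := by rw [mul_one, norm_p_lam hζ]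

end Pool.Agent.H22.KW
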