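import Pool.Agent.H22.KW.Bas

/-!
# Module Frb: a Frobenius lift on the roots of unity of order `m`, `p ∤ m`

Let `ζ` be a primitive `m`-th root of unity (`exists_prim_root`). It is integral over `ℤ_[p]`; let `f = minpoly ℤ_[p] ζ` (use `ph p : ℤ_[p] →+* PadicAlgCl p` or the algebra structure; `minpoly.isIntegrallyClosed_eq_field_fractions'`:
`minpoly ℚ_[p] ζ` is the image of `f`). The polynomial `expand ℤ_[p] p f - f ^ p` maps to `0` in `ZMod p` (`ZMod.expand_card`, `PadicInt.toZMod`), so its coefficients have norm `≤ p⁻¹`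
(`PadicInt.ker_toZMod`, `PadicInt.maximalIdeal_eq_span_p`), and evaluating at `ζ` (`‖ζ‖ = 1`): `‖f (ζ ^ p)‖ = ‖f (ζ ^ p) - f (ζ) ^ p‖ ≤ p⁻¹ < 1`. Over `PadicAlgCl p`, `f = ∏ (X - ζᵢ)`, so some root `ζ'` of `f` has `‖ζ ^ p - ζ'‖ < 1`.
`ζ' ^ m = 1` since `f` divides `X ^ m - 1` (`minpoly.dvd`). So `ζ' = ζ ^ p` (`Mu_inj`), and `minpoly.exists_algEquiv_of_root'` gives `g` with `g ζ = ζ ^ p`. All `z` with `z ^ m = 1` are powers of `ζ`.
-/

set_option autoImplicit false

namespace Pool.Agent.H22.KW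

open Polynomial Pool.Agent.H55.Tilt Pool.Agent.H22.QA

open scoped IntermediateField

variable {p : ℕ} [hp : Fact p.Prime]

/-- A polynomial with integral coefficients which vanishes modulo `p` is small at the elements of norm one. -/
private theorem small_of_map {h : ℤ_[p][X]} (hh : h.map PadicInt.toZMod = 0) {z : PadicAlgCl p}
    (hz : ‖z‖ = 1) : ‖aeval z h‖ < 1 := by
  have h1 : ∀ i, ‖h.coeff i‖ ≤ (p : ℝ)⁻¹ := by
    intro i
    have h2 : PadicInt.toZMod (h.coeff i) = 0 := by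
      rw [← coeff_map, hh, coeff_zero]
    have h3 : h.coeff i ∈ RingHom.ker (PadicInt.toZMod (p := p)) := h2
    rw [PadicInt.ker_toZMod, PadicInt.maximalIdeal_eq_span_p, Ideal.mem_span_singleton] at h3
    obtain ⟨c, hc⟩ := h3
    rw [hc, norm_mul, PadicInt.norm_p]
    exact mul_le_of_le_one_right (inv_pos.2 p_pos).le (PadicInt.norm_le_one c)
  have h4 : ‖aeval z h‖ ≤ (p : ℝ)⁻¹ := by
    rw [aeval_eq_sum_range]
    apply IsUltrametricDist.norm_sum_le_of_forall_le_of_nonneg (inv_pos.2 p_pos).le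
    intro i _
    rw [Algebra.smul_def, norm_mul, norm_pow, hz, one_pow, mul_one,
      IsScalarTower.algebraMap_apply ℤ_[p] ℚ_[p] (PadicAlgCl p), Pool.Agent.H55.Tilt.norm_algebraMap]
    exact h1 i
  exact lt_of_le_of_lt h4 (inv_lt_one_of_one_lt₀ one_lt_p)

theorem exists_gal_frob {m : ℕ} (hm : ¬ p ∣ m) :
    ∃ g : GG p, ∀ z : PadicAlgCl p, z ^ m = 1 → g z = z ^ p := by
  have hm0 : m ≠ 0 := by rintro rfl; exact hm (dvd_zero p)
  obtain ⟨ζ, hζ⟩ := exists_prim_root (p := p) m hm0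
  have hζ1 : ‖ζ‖ = 1 := norm_Mu hm0 hζ.pow_eq_one
  have hint : IsIntegral ℤ_[p] ζ := by
    refine ⟨X ^ m - 1, ?_, ?_⟩
    · have := monic_X_pow_sub_C (1 : ℤ_[p]) hm0
      rwa [C_1] at this
    · simp [hζ.pow_eq_one]
  set f : ℤ_[p][X] := minpoly ℤ_[p] ζ with hf
  have hfm : f.Monic := minpoly.monic hint
  have hmin : minpoly ℚ_[p] ζ = f.map (algebraMap ℤ_[p] ℚ_[p]) :=
    minpoly.isIntegrallyClosed_eq_field_fractions' ℚ_[p] hint
  have hmap : (expand ℤ_[p] p f - f ^ p).map (PadicInt.toZMod (p := p)) = 0 := by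
    rw [Polynomial.map_sub, Polynomial.map_pow, map_expand, ZMod.expand_card, sub_self]
  have h1 := small_of_map hmap hζ1
  rw [map_sub, map_pow, expand_aeval, hf, minpoly.aeval, zero_pow hp.out.ne_zero, sub_zero, ← hf] at h1
  -- the factorisation
  set F : (PadicAlgCl p)[X] := f.map (algebraMap ℤ_[p] (PadicAlgCl p)) with hF
  have hFm : F.Monic := hfm.map _
  have h2 : aeval (ζ ^ p) f = F.eval (ζ ^ p) := by
    rw [hF, eval_map, aeval_def]
  rw [h2, (IsAlgClosed.splits F).eval_eq_prod_roots_of_monic hFm] at h1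
  obtain ⟨a, ha, hlt⟩ : ∃ a ∈ F.roots, ‖ζ ^ p - a‖ < 1 := by
    by_contra hcon
    push Not at hcon
    have h3 : ∀ S : Multiset (PadicAlgCl p), (∀ a ∈ S, 1 ≤ ‖ζ ^ p - a‖) →
        1 ≤ ‖(S.map (ζ ^ p - ·)).prod‖ := by
      intro S
      induction S using Multiset.induction_on with
      | empty => intro _; simp
      | cons a S ih =>
        intro hS
        rw [Multiset.map_cons, Multiset.prod_cons, norm_mul]
        exact one_le_mul_of_one_le_of_one_le (hS a (Multiset.mem_cons_self a S))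
          (ih fun b hb => hS b (Multiset.mem_cons_of_mem hb))
    exact absurd h1 (not_lt.2 (h3 _ hcon))
  have haF : F.eval a = 0 := (mem_roots'.1 ha).2
  have haK : aeval a (minpoly ℚ_[p] ζ) = 0 := by
    rw [hmin, aeval_map_algebraMap, aeval_def, ← eval_map]
    exact haF
  have ham : a ^ m = 1 := by
    have hd : minpoly ℚ_[p] ζ ∣ X ^ m - 1 := by
      apply minpoly.dvd
      simp [hζ.pow_eq_one]
    obtain ⟨r, hr⟩ := hd
    have h4 := congrArg (aeval a) hr
    rw [map_mul, haK, zero_mul, map_sub, map_pow, aeval_X, map_one] at h4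
    exact sub_eq_zero.1 h4
  have hpm : (ζ ^ p) ^ m = 1 := by
    rw [← pow_mul, mul_comm, pow_mul, hζ.pow_eq_one, one_pow]
  have heq : ζ ^ p = a := Mu_inj hm hpm ham hlt
  obtain ⟨g, hg⟩ := minpoly.exists_algEquiv_of_root' (K := ℚ_[p]) (L := PadicAlgCl p)
    (Algebra.IsAlgebraic.isAlgebraic ζ) haK
  refine ⟨g, fun z hz => ?_⟩
  have : NeZero m := ⟨hm0⟩
  obtain ⟨i, _, rfl⟩ := hζ.eq_pow_of_pow_eq_one hz
  rw [map_pow, hg, ← heq, ← pow_mul, ← pow_mul, mul_comm]

end Pool.Agent.H22.KW
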