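import Pool.Agent.H22.KW.Bas

/-!
# Module GMu: every automorphism acts on the roots of unity of order `m`, `p ∤ m`, as a power of Frobenius

Let `z` be a primitive `m`-th root of unity, `z ^ p ^ n = z` with `n > 0` (`exists_frob` of `Pool/Agent/H22/QA/UnrA`). Let `I` be the ideal `{x | ‖x‖ < 1}` of the ring `OC p` (unit ball), `κ = OC p ⧸ I`,
a field (or only a domain: if `‖x y‖ < 1` then `‖x‖ < 1` or `‖y‖ < 1`) of characteristic `p`; `x̄` is the class of `x`. The polynomial `T̄ = ∏ i ∈ range n, (X - C (z̄ ^ p ^ i))` is invariant under the Frobenius of the coefficients (which permutes the factors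
cyclically, as `z̄ ^ p ^ n = z̄`), so its coefficients `c` satisfy `c ^ p = c`, and in a domain of characteristic `p` these are the images of the integers (`X ^ p - X` has at most `p` roots; `FiniteField.X_pow_card_sub_X_...` or
`card_roots'`; or `FiniteField.prod_X_sub_X`: `∏ a : ZMod p, (X - C a) = X ^ p - X`). So there is an integer polynomial `T₀` with image `T̄`. `T₀ (z)` has class `T̄ (z̄) = 0` (factor `i = 0`): `‖T₀ (z)‖ < 1`. So `‖T₀ (g z)‖ = ‖g (T₀ (z))‖ < 1` (`norm_gal`), so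
`T̄` vanishes at the class of `g z`: for some `i < n` the class of `g z` is `z̄ ^ p ^ i`, `‖g z - z ^ p ^ i‖ < 1`, so `g z = z ^ p ^ i` (`Mu_inj`). All `z'` with `z' ^ m = 1` are powers of `z`.
(Alternatively: `Gal` of the finite field generated by `z̄` is generated by the Frobenius, e.g. `FiniteField.bijective_frobeniusAlgEquivOfAlgebraic_pow`.)
-/

set_option autoImplicit false

namespace Pool.Agent.H22.KW

open Polynomial Pool.Agent.H55.Tilt Pool.Agent.H22.QA

open scoped IntermediateField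

variable {p : ℕ} [hp : Fact p.Prime]

/-- The maximal ideal of the unit ball. -/
def II (p : ℕ) [Fact p.Prime] : Ideal (OC p) where
  carrier := {x | ‖(x : PadicAlgCl p)‖ < 1}
  add_mem' := by
    intro a b ha hb
    exact (PadicAlgCl.isNonarchimedean p _ _).trans_lt (max_lt ha hb)
  zero_mem' := by
    show ‖(0 : PadicAlgCl p)‖ < 1
    rw [norm_zero]
    exact zero_lt_one
  smul_mem' := by
    intro c x hx
    show ‖(c : PadicAlgCl p) * (x : PadicAlgCl p)‖ < 1
    rw [norm_mul]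
    have h1 : ‖(c : PadicAlgCl p)‖ ≤ 1 := c.2
    have h2 : ‖(x : PadicAlgCl p)‖ < 1 := hx
    exact (mul_le_of_le_one_left (norm_nonneg _) h1).trans_lt h2

theorem mem_II {x : OC p} : x ∈ II p ↔ ‖(x : PadicAlgCl p)‖ < 1 := Iff.rfl

instance II_max : (II p).IsMaximal := by
  rw [Ideal.isMaximal_iff]
  refine ⟨?_, ?_⟩
  · rw [mem_II]
    simp
  · intro J x _ hx hxJ
    rw [mem_II, not_lt] at hx
    have h1 : ‖(x : PadicAlgCl p)‖ = 1 := le_antisymm x.2 hx
    have h0 : (x : PadicAlgCl p) ≠ 0 := by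
      intro h
      rw [h, norm_zero] at h1
      exact zero_ne_one h1
    have h2 : ‖(x : PadicAlgCl p)⁻¹‖ ≤ 1 := by rw [norm_inv, h1, inv_one]
    have h3 : (⟨(x : PadicAlgCl p)⁻¹, h2⟩ : OC p) * x = 1 := by
      apply Subtype.ext
      show (x : PadicAlgCl p)⁻¹ * (x : PadicAlgCl p) = 1
      exact inv_mul_cancel₀ h0
    rw [← h3]
    exact J.mul_mem_left _ hxJ

theorem charP_of_field {F : Type*} [Field F] (h : (p : F) = 0) {c : F} (hc : c ^ p = c) :
    ∃ n : ℤ, (n : F) = c := by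
  have hchar : CharP F p := (CharP.charP_iff_prime_eq_zero hp.out).2 h
  have h1 := (Subfield.mem_bot_iff_pow_eq_self F p (x := c)).2 hc
  rw [← ZMod.fieldRange_castHom_eq_bot p] at h1
  obtain ⟨a, ha⟩ := h1
  refine ⟨(a.val : ℤ), ?_⟩
  rw [← ha]
  simp

/-- A product over a Frobenius orbit has coefficients in the prime field. -/
theorem orbit_lift {F : Type*} [Field F] (h : (p : F) = 0) {z : F} {n : ℕ} (hn : 0 < n)
    (hz : z ^ p ^ n = z) :
    ∃ T : ℤ[X], T.map (Int.castRingHom F) = ∏ i ∈ Finset.range n, (X - C (z ^ p ^ i)) := by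
  have hchar : CharP F p := (CharP.charP_iff_prime_eq_zero hp.out).2 h
  set T : F[X] := ∏ i ∈ Finset.range n, (X - C (z ^ p ^ i)) with hT
  have hmap : T.map (frobenius F p) = T := by
    obtain ⟨k, rfl⟩ : ∃ k, n = k + 1 := ⟨n - 1, by omega⟩
    rw [hT, Polynomial.map_prod, Finset.prod_range_succ, Finset.prod_range_succ' _ k]
    have h1 : ∀ i, (X - C (z ^ p ^ i) : F[X]).map (frobenius F p) = X - C (z ^ p ^ (i + 1)) := by
      intro i
      rw [Polynomial.map_sub, map_X, map_C, frobenius_def, ← pow_mul, ← pow_succ]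
    simp_rw [h1]
    rw [hz, pow_zero, pow_one]
  have hl : T ∈ lifts (Int.castRingHom F) := by
    rw [lifts_iff_coeff_lifts]
    intro j
    have h2 : (T.coeff j) ^ p = T.coeff j := by
      have := congrArg (fun Q : F[X] => Q.coeff j) hmap
      simpa [coeff_map, frobenius_def] using this
    obtain ⟨c, hc⟩ := charP_of_field (p := p) h h2
    exact ⟨c, hc⟩
  exact (mem_lifts _).1 hl

theorem gal_Mu (g : GG p) {m : ℕ} (hm : ¬ p ∣ m) :
    ∃ f : ℕ, ∀ z : PadicAlgCl p, z ^ m = 1 → g z = z ^ p ^ f := by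
  have hm0 : m ≠ 0 := by rintro rfl; exact hm (dvd_zero p)
  obtain ⟨z, hz⟩ := exists_prim_root (p := p) m hm0
  obtain ⟨n, hn, hzn⟩ := exists_frob hm hz.pow_eq_one
  let _ : Field (OC p ⧸ II p) := Ideal.Quotient.field (II p)
  set π : OC p →+* OC p ⧸ II p := Ideal.Quotient.mk (II p) with hπ
  have hπ0 : ∀ x : OC p, π x = 0 ↔ ‖(x : PadicAlgCl p)‖ < 1 := fun x => by
    rw [hπ, Ideal.Quotient.eq_zero_iff_mem, mem_II]
  have hp0 : ((p : ℕ) : OC p ⧸ II p) = 0 := by
    have h1 : π ((p : ℕ) : OC p) = 0 := by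
      rw [hπ0]
      have : (((p : ℕ) : OC p) : PadicAlgCl p) = ((p : ℕ) : PadicAlgCl p) := by simp
      rw [this, norm_p_cl]
      exact inv_lt_one_of_one_lt₀ one_lt_p
    rwa [map_natCast] at h1
  have hz1 : ‖z‖ ≤ 1 := (norm_Mu hm0 hz.pow_eq_one).le
  set z' : OC p := ⟨z, hz1⟩ with hz'
  have hzn' : (π z') ^ p ^ n = π z' := by
    rw [← map_pow]
    exact congrArg π (Subtype.ext hzn)
  obtain ⟨T, hT⟩ := orbit_lift (p := p) hp0 hn hzn'
  -- evaluation of `T`
  have hev : ∀ y : OC p, π (aeval y T) = ∏ i ∈ Finset.range n, (π y - (π z') ^ p ^ i) := by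
    intro y
    have h1 : π (aeval y T) = eval (π y) (T.map (Int.castRingHom (OC p ⧸ II p))) := by
      rw [eval_map, aeval_def, hom_eval₂]
      congr 1
    rw [h1, hT, eval_prod]
    apply Finset.prod_congr rfl
    intro i _
    rw [eval_sub, eval_X, eval_C]
  have hco : ∀ y : OC p, ((aeval y T : OC p) : PadicAlgCl p) = aeval (y : PadicAlgCl p) T := by
    intro y
    rw [aeval_def, aeval_def]
    have := hom_eval₂ T (algebraMap ℤ (OC p)) (OC p).subtype y
    rw [Subring.coe_subtype] at this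
    rw [this]
    congr 1
  have h1 : ‖aeval z T‖ < 1 := by
    have h2 := hev z'
    rw [Finset.prod_eq_zero (Finset.mem_range.2 hn) (by rw [pow_zero, pow_one, sub_self]), hπ0, hco] at h2
    exact h2
  have h2 : ‖aeval (g z) T‖ < 1 := by
    have h3 : aeval (g z) T = g (aeval z T) := by
      rw [aeval_def, aeval_def]
      have := hom_eval₂ T (algebraMap ℤ (PadicAlgCl p)) (g : PadicAlgCl p →+* PadicAlgCl p) z
      have h4 : ((g : PadicAlgCl p →+* PadicAlgCl p)).comp (algebraMap ℤ (PadicAlgCl p)) =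
        algebraMap ℤ (PadicAlgCl p) := Subsingleton.elim _ _
      rw [h4] at this
      exact this.symm
    rw [h3, norm_gal]
    exact h1
  have hgz : ‖g z‖ ≤ 1 := by rw [norm_gal]; exact hz1
  have h3 := hev ⟨g z, hgz⟩
  have h4 : π (aeval (⟨g z, hgz⟩ : OC p) T) = 0 := by
    rw [hπ0, hco]
    exact h2
  rw [h4] at h3
  obtain ⟨i, _, hi⟩ := Finset.prod_eq_zero_iff.1 h3.symm
  have h5 : ‖g z - z ^ p ^ i‖ < 1 := by
    rw [← map_pow, ← map_sub, hπ0] at hi
    exact hi
  have h6 : g z = z ^ p ^ i := by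
    apply Mu_inj hm _ _ h5
    · rw [← map_pow, hz.pow_eq_one, map_one]
    · rw [← pow_mul, mul_comm, pow_mul, hz.pow_eq_one, one_pow]
  refine ⟨i, fun w hw => ?_⟩
  have : NeZero m := ⟨hm0⟩
  obtain ⟨k, _, rfl⟩ := hz.eq_pow_of_pow_eq_one hw
  rw [map_pow, h6, ← pow_mul, ← pow_mul, mul_comm]

end Pool.Agent.H22.KW
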