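import Pool.Agent.H22.KW.Bas

/-!
# Module NTb: generators of the principal units modulo `p ^ s`

`gen_cc_odd`: by induction on `s`: if `a ^ (p - 1) ≡ (1 + p) ^ k` modulo `p ^ s` (`s ≥ 1`) then correct `k` by a multiple of `p ^ (s - 1)`, as `(1 + p) ^ (p ^ (s - 1)) ≡ 1 + p ^ s` modulo `p ^ (s + 1)`. (Or: the subgroup of the elements of `(ZMod (p ^ s))ˣ` congruent to one modulo `p` has
`p ^ (s - 1)` elements and `1 + p` has this order in it, so it generates it, and `a ^ (p - 1)` is in it; or from the cyclicity of `(ZMod (p ^ s))ˣ`, `ZMod.isCyclic_units_...`: in a cyclic group of order `(p - 1) p ^ (s - 1)` an element of order `p ^ (s - 1)` generates all `(p - 1)`-th powers.) `gen_cc_two`: the same with `4` and `5`: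
`5 ^ (2 ^ (s - 2)) ≡ 1 + 2 ^ s` modulo `2 ^ (s + 1)` for `s ≥ 2`; possibly `ZMod.orderOf_five` is in Mathlib.
-/

set_option autoImplicit false

namespace Pool.Agent.H22.KW

open Polynomial Pool.Agent.H55.Tilt Pool.Agent.H22.QA

open scoped IntermediateField

variable {p : ℕ} [hp : Fact p.Prime]

private theorem ntb_one_add_pow (X : ℤ) (j : ℕ) : ∃ w : ℤ, (1 + X) ^ j = 1 + j * X + X ^ 2 * w := by
  induction j with
  | zero => exact ⟨0, by simp⟩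
  | succ j ih =>
    obtain ⟨w, hw⟩ := ih
    refine ⟨w + j + X * w, ?_⟩
    rw [pow_succ, hw]
    push_cast
    ring

private theorem ntb_gen {p m : ℕ} (hp : p.Prime) (hm : 1 ≤ m) (hpm : m + 2 ≤ p * m) {A : ℤ}
    (hA : (p : ℤ) ^ m ∣ A - 1) (s : ℕ) :
    ∃ k : ℕ, (p : ℤ) ^ (s + m) ∣ A - (1 + (p : ℤ) ^ m) ^ k := by
  have hp0 : (0 : ℤ) < p := by exact_mod_cast hp.pos
  have hpu : (p : ℤ) * (p : ℤ) ^ m * p ∣ ((p : ℤ) ^ m) ^ p := by
    rw [← pow_succ', ← pow_succ, ← pow_mul, mul_comm m p]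
    exact pow_dvd_pow _ hpm
  have hpd : (p : ℤ) ∣ (p : ℤ) ^ m := dvd_pow_self _ (by omega)
  induction s with
  | zero =>
    refine ⟨0, ?_⟩
    rw [pow_zero, zero_add]
    exact hA
  | succ s ih =>
    obtain ⟨k, t, ht⟩ := ih
    obtain ⟨y, hy⟩ := ZMod.exists_one_add_mul_pow_prime_pow_eq (R := ℤ) (u := (p : ℤ) ^ m)
      (v := (p : ℤ)) hp hpd hpu 1 s
    rw [mul_one] at hy
    obtain ⟨w, hw⟩ := ntb_one_add_pow ((p : ℤ) ^ s * (p : ℤ) ^ m * (1 + p * y)) (t % p).toNat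
    have hj : (((t % p).toNat : ℕ) : ℤ) = t % p := Int.toNat_of_nonneg (Int.emod_nonneg _ hp0.ne')
    rw [hj] at hw
    obtain ⟨r, hr⟩ : (p : ℤ) ∣ (1 + (p : ℤ) ^ m) ^ k - 1 := by
      have h1 : (1 + (p : ℤ) ^ m) - 1 ∣ (1 + (p : ℤ) ^ m) ^ k - 1 ^ k := sub_dvd_pow_sub_pow _ _ k
      rw [one_pow, add_sub_cancel_left] at h1
      exact hpd.trans h1
    obtain ⟨q, hq⟩ : (p : ℤ) ∣ (p : ℤ) ^ (s + m) := dvd_pow_self _ (by omega)
    have htd : t = p * (t / p) + t % p := (Int.mul_ediv_add_emod t p).symm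
    refine ⟨k + p ^ s * (t % p).toNat, ?_⟩
    have e0 : (1 + (p : ℤ) ^ m) ^ (k + p ^ s * (t % p).toNat) =
        (1 + (p : ℤ) ^ m) ^ k * ((1 + (p : ℤ) ^ m) ^ (p ^ s)) ^ (t % p).toNat := by
      rw [pow_add, pow_mul]
    rw [e0, hy, hw]
    have hc : (1 + (p : ℤ) ^ m) ^ k = 1 + p * r := by linarith
    have hAe : A = (1 + (p : ℤ) ^ m) ^ k + (p : ℤ) ^ (s + m) * t := by linarith
    rw [hAe, hc]
    have e1 : (p : ℤ) ^ (s + 1 + m) = (p : ℤ) ^ (s + m) * p := by ring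
    have e2 : (p : ℤ) ^ s * (p : ℤ) ^ m = (p : ℤ) ^ (s + m) := by ring
    rw [e1, e2]
    generalize hP : (p : ℤ) ^ (s + m) = P at *
    have key : 1 + (p : ℤ) * r + P * t - (1 + p * r) * (1 + t % p * (P * (1 + p * y)) +
        (P * (1 + p * y)) ^ 2 * w) =
      P * (t - t % p) - P * (p * (r * (t % p) * (1 + p * y) + t % p * y)) -
        P * (P * ((1 + p * r) * (1 + p * y) ^ 2 * w)) := by ring
    rw [key]
    have h1 : t - t % p = p * (t / p) := by linarith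
    rw [h1]
    refine dvd_sub (dvd_sub (mul_dvd_mul_left _ (Dvd.intro _ rfl))
      (mul_dvd_mul_left _ (Dvd.intro _ rfl))) (mul_dvd_mul_left _ ?_)
    exact (Dvd.intro _ hq.symm).mul_right _

theorem gen_cc_odd (p : ℕ) [Fact p.Prime] (hp2 : p ≠ 2) {a : ℕ} (ha : ¬ p ∣ a) (s : ℕ) :
    ∃ k : ℕ, a ^ (p - 1) ≡ cc p ^ k [MOD p ^ s] := by
  have hpp : p.Prime := Fact.out
  have hcc : cc p = p + 1 := if_neg hp2
  have h3 : 3 ≤ p := by
    have := hpp.two_le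
    omega
  have hA : (p : ℤ) ^ 1 ∣ (a : ℤ) ^ (p - 1) - 1 := by
    have hco : IsCoprime (a : ℤ) p :=
      Nat.isCoprime_iff_coprime.2 ((Nat.Prime.coprime_iff_not_dvd hpp).2 ha).symm
    have h1 := (Int.ModEq.pow_card_sub_one_eq_one hpp hco).symm
    rw [pow_one]
    exact h1.dvd
  obtain ⟨k, hk⟩ := ntb_gen hpp le_rfl (by omega) hA s
  refine ⟨k, ?_⟩
  rw [Nat.ModEq.comm, Nat.modEq_iff_dvd, hcc]
  push_cast
  rw [pow_one, add_comm (1 : ℤ)] at hk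
  exact (pow_dvd_pow _ (by omega)).trans hk

theorem gen_cc_two {a : ℕ} (ha : a % 4 = 1) (s : ℕ) : ∃ k : ℕ, a ≡ cc 2 ^ k [MOD 2 ^ s] := by
  have hcc : cc 2 = 5 := if_pos rfl
  have hA : ((2 : ℕ) : ℤ) ^ 2 ∣ (a : ℤ) - 1 := by
    push_cast
    omega
  obtain ⟨k, hk⟩ := ntb_gen Nat.prime_two (by norm_num) (by norm_num) hA s
  refine ⟨k, ?_⟩
  rw [Nat.ModEq.comm, Nat.modEq_iff_dvd, hcc]
  have h5 : (1 : ℤ) + ((2 : ℕ) : ℤ) ^ 2 = 5 := by norm_num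
  rw [h5] at hk
  push_cast at hk ⊢
  exact (pow_dvd_pow _ (by omega)).trans hk

end Pool.Agent.H22.KW
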