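import Pool.Agent.H22.KW.Fac
import Pool.Agent.H22.KW.GMu
import Pool.Agent.H22.KW.NTb

/-!
# Module Gen: `g₁`, `g₂` generate the pro-`p` part of the Galois group of the field of all roots of unity

`fac` gives `M > 0` such that `ε g = 1` if `g` fixes the `M`-th roots of unity. `M = p ^ s * n'`, `p ∤ n'` (`Nat.exists_eq_pow_mul_and_not_dvd`). Every `M`-th root of unity is a product of a `p ^ s`-th and an `n'`-th root of unity (Bezout, or from a primitive root), so an automorphism which fixes both kinds fixes the `M`-th roots of unity.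
Let `g` be given; `gal_Mu`: `g z = z ^ p ^ f` if `z ^ n' = 1`. `h = (g₂ ^ f)⁻¹ * g` fixes the `n'`-th roots of unity (`g₂ ^ f` raises them to the power `p ^ f`), and if `g z = z ^ a` on the `p ^ s`-th roots of unity (`a` from a primitive one, prime to `p`) then `h z = z ^ a` as `g₂` fixes them.
`gen_odd`: `a ^ (p - 1) ≡ cc p ^ k` modulo `p ^ s` (`gen_cc_odd`), so `(g₁ ^ k)⁻¹ * h ^ (p - 1)` fixes the `M`-th roots of unity, `ε (h) ^ (p - 1) = ε (g₁) ^ k = 1`, `ε (h) ^ p = 1`, so `ε h = 1` and `ε g = ε (g₂) ^ f = 1`.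
`gen_two`: `i ^ 2 = -1`, `i` is a primitive fourth root of unity; we may take `s ≥ 2` (replace `M` by `4 M`), `g i = i = i ^ a` gives `a ≡ 1` modulo `4`, `a ≡ 5 ^ k` modulo `2 ^ s` (`gen_cc_two`), `(g₁ ^ k)⁻¹ * h` fixes the `M`-th roots of unity, so `ε g = ε (g₂) ^ f * ε (g₁) ^ k = 1`.
-/

set_option autoImplicit false

namespace Pool.Agent.H22.KW

open Polynomial Pool.Agent.H55.Tilt Pool.Agent.H22.QA

open scoped IntermediateField

variable {p : ℕ} [hp : Fact p.Prime]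

private theorem gen_pow_act {g : GG p} {z : PadicAlgCl p} {c : ℕ} (h : g z = z ^ c) (k : ℕ) :
    (g ^ k) z = z ^ c ^ k := by
  induction k with
  | zero => simp
  | succ k ih =>
    rw [pow_succ', AlgEquiv.mul_apply, ih, map_pow, h, ← pow_mul, pow_succ']

private theorem gen_inv_mul {u v : GG p} {z : PadicAlgCl p} (h : v z = u z) : (u⁻¹ * v) z = z := by
  rw [AlgEquiv.mul_apply, h]
  exact u.symm_apply_apply z

private theorem gen_modEq {y : PadicAlgCl p} {N i j : ℕ} (hy : y ^ N = 1) (h : i ≡ j [MOD N]) :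
    y ^ i = y ^ j := by
  have h1 : ∀ i : ℕ, y ^ i = y ^ (i % N) := by
    intro i
    conv_lhs => rw [← Nat.div_add_mod i N, pow_add, pow_mul, hy, one_pow, one_mul]
  rw [h1 i, h1 j, h]

private theorem gen_fix {g : GG p} {s n : ℕ} (hn : ¬ p ∣ n)
    (h1 : ∀ z : PadicAlgCl p, z ^ p ^ s = 1 → g z = z) (h2 : ∀ z : PadicAlgCl p, z ^ n = 1 → g z = z)
    (z : PadicAlgCl p) (hz : z ^ (p ^ s * n) = 1) : g z = z := by
  have hpp : p.Prime := hp.out
  have hn0 : n ≠ 0 := fun h => hn (h ▸ dvd_zero p)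
  have hM : p ^ s * n ≠ 0 := mul_ne_zero (pow_ne_zero _ hpp.ne_zero) hn0
  have hz0 : z ≠ 0 := by
    rintro rfl
    rw [zero_pow hM] at hz
    exact zero_ne_one hz
  have hco : IsCoprime ((p ^ s : ℕ) : ℤ) (n : ℤ) :=
    Nat.isCoprime_iff_coprime.2 (((Nat.Prime.coprime_iff_not_dvd hpp).2 hn).pow_left s)
  obtain ⟨u, v, huv⟩ := hco
  have ha : g (z ^ p ^ s) = z ^ p ^ s := h2 _ (by rw [← pow_mul, hz])
  have hb : g (z ^ n) = z ^ n := h1 _ (by rw [← pow_mul, mul_comm, hz])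
  have hz1 : z = (z ^ p ^ s) ^ u * (z ^ n) ^ v := by
    rw [← zpow_natCast z (p ^ s), ← zpow_natCast z n, ← zpow_mul, ← zpow_mul, ← zpow_add₀ hz0]
    have : ((p ^ s : ℕ) : ℤ) * u + (n : ℤ) * v = 1 := by linarith
    rw [this, zpow_one]
  have hg : g ((z ^ p ^ s) ^ u * (z ^ n) ^ v) = (z ^ p ^ s) ^ u * (z ^ n) ^ v := by
    rw [map_mul, map_zpow₀, map_zpow₀, ha, hb]
  rw [← hz1] at hg
  exact hg

private theorem gen_key {g₁ g₂ : GG p} (h1 : IsG1 g₁) (h2 : IsG2 g₂) {ε : Chr p} (hε : Sm ε)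
    (hx : X2 ε) (e1 : ε g₁ = 1) (e2 : ε g₂ = 1) :
    ∃ s : ℕ, 2 ≤ s ∧ ∀ (g : GG p) (a e k : ℕ), (∀ z : PadicAlgCl p, z ^ p ^ s = 1 → g z = z ^ a) →
      a ^ e ≡ cc p ^ k [MOD p ^ s] → ε g ^ e = 1 := by
  have hpp : p.Prime := hp.out
  obtain ⟨M, hM, hfac⟩ := fac hε hx
  obtain ⟨s₀, n, hn, hMn⟩ := Nat.exists_eq_pow_mul_and_not_dvd hM.ne' p hpp.ne_one
  refine ⟨s₀ + 2, by omega, ?_⟩
  intro g a e k hg hak
  obtain ⟨f, hf⟩ := gal_Mu g hn
  set h : GG p := (g₂ ^ f)⁻¹ * g with hh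
  have hεh : ε h = ε g := by
    rw [hh, map_mul, map_inv, map_pow, e2, one_pow, inv_one, one_mul]
  have hMu : ∀ z : PadicAlgCl p, z ^ n = 1 → z ∈ Mu p := fun z hz => ⟨n, hn, hz⟩
  have hn' : ∀ z : PadicAlgCl p, z ^ n = 1 → h z = z := by
    intro z hz
    apply gen_inv_mul
    rw [hf z hz, gen_pow_act (h2.1 z (hMu z hz))]
  have hs' : ∀ z : PadicAlgCl p, z ^ p ^ (s₀ + 2) = 1 → h z = z ^ a := by
    intro z hz
    have h3 : (z ^ a) ^ p ^ (s₀ + 2) = 1 := by rw [← pow_mul, mul_comm, pow_mul, hz, one_pow]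
    have h4 : (g₂ ^ f) (z ^ a) = z ^ a := by
      have h5 : g₂ (z ^ a) = (z ^ a) ^ 1 := by rw [h2.2 _ _ h3, pow_one]
      rw [gen_pow_act h5, one_pow, pow_one]
    rw [hh, AlgEquiv.mul_apply, hg z hz]
    conv_lhs => rw [← h4]
    exact (g₂ ^ f).symm_apply_apply (z ^ a)
  have hw : ε ((g₁ ^ k)⁻¹ * h ^ e) = 1 := by
    apply hfac
    intro z hz
    refine gen_fix (s := s₀ + 2) hn ?_ ?_ z ?_
    · intro y hy
      apply gen_inv_mul
      rw [gen_pow_act (hs' y hy), gen_pow_act (h1.2 _ y hy)]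
      exact gen_modEq hy hak
    · intro y hy
      apply gen_inv_mul
      have h7 : h y = y ^ 1 := by rw [hn' y hy, pow_one]
      have h8 : g₁ y = y ^ 1 := by rw [h1.1 y (hMu y hy), pow_one]
      rw [gen_pow_act h7, gen_pow_act h8, one_pow, one_pow]
    · have h9 : p ^ (s₀ + 2) * n = M * p ^ 2 := by rw [hMn]; ring
      rw [h9, pow_mul, hz, one_pow]
  rw [map_mul, map_inv, map_pow, map_pow, e1, one_pow, inv_one, one_mul, hεh] at hw
  exact hw

private theorem gen_exists_a (g : GG p) {s : ℕ} (hs : 2 ≤ s) :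
    ∃ a : ℕ, ¬ p ∣ a ∧ ∀ z : PadicAlgCl p, z ^ p ^ s = 1 → g z = z ^ a := by
  have hpp : p.Prime := hp.out
  have hps : p ^ s ≠ 0 := pow_ne_zero _ hpp.ne_zero
  have : NeZero (p ^ s) := ⟨hps⟩
  obtain ⟨ζ, hζ⟩ := exists_prim_root (p := p) (p ^ s) hps
  have hgζ : IsPrimitiveRoot (g ζ) (p ^ s) := hζ.map_of_injective g.injective
  obtain ⟨a, _, ha⟩ := hζ.eq_pow_of_pow_eq_one hgζ.pow_eq_one
  refine ⟨a, ?_, ?_⟩
  · intro hpa
    have h1 : IsPrimitiveRoot (ζ ^ a) (p ^ s) := by rw [ha]; exact hgζ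
    have h2 := (hζ.pow_iff_coprime (Nat.pos_of_ne_zero hps) a).1 h1
    have h3 : Nat.Coprime a p := Nat.Coprime.coprime_dvd_right (dvd_pow_self p (by omega)) h2
    exact (Nat.Prime.coprime_iff_not_dvd hpp).1 h3.symm hpa
  · intro z hz
    obtain ⟨i, _, rfl⟩ := hζ.eq_pow_of_pow_eq_one hz
    rw [map_pow, ← ha, ← pow_mul, ← pow_mul, mul_comm]

theorem gen_odd (hp2 : p ≠ 2) {g₁ g₂ : GG p} (h1 : IsG1 g₁) (h2 : IsG2 g₂) {ε : Chr p} (hε : Sm ε) (hx : X2 ε)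
    (he : ε ^ p = 1) (e1 : ε g₁ = 1) (e2 : ε g₂ = 1) : ε = 1 := by
  have hpp : p.Prime := hp.out
  obtain ⟨s, hs, hkey⟩ := gen_key h1 h2 hε hx e1 e2
  refine MonoidHom.ext fun g => ?_
  obtain ⟨a, ha, hg⟩ := gen_exists_a g hs
  obtain ⟨k, hk⟩ := gen_cc_odd p hp2 ha s
  have h3 := hkey g a (p - 1) k hg hk
  have h4 : ε g ^ p = 1 := (chr_pow_one_iff ε p).1 he g
  have h5 : ε g ^ p = ε g ^ (p - 1) * ε g := by
    rw [← pow_succ]
    congr 1
    have := hpp.one_lt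
    omega
  rw [h4, h3, one_mul] at h5
  exact h5.symm

theorem gen_two {g₁ g₂ : GG 2} (h1 : IsG1 g₁) (h2 : IsG2 g₂) {ε : Chr 2} (hε : Sm ε) (hx : X2 ε)
    (e1 : ε g₁ = 1) (e2 : ε g₂ = 1) {i : PadicAlgCl 2} (hi : i ^ 2 = -1) {g : GG 2} (hg : g i = i) : ε g = 1 := by
  obtain ⟨s, hs, hkey⟩ := gen_key h1 h2 hε hx e1 e2
  obtain ⟨a, ha, hga⟩ := gen_exists_a g hs
  have hne : (1 : PadicAlgCl 2) ≠ -1 := by
    intro h
    have h2' : (2 : PadicAlgCl 2) = 0 := by linear_combination h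
    exact two_ne_zero h2'
  have hi0 : i ≠ 0 := by
    rintro rfl
    rw [zero_pow two_ne_zero] at hi
    exact (neg_ne_zero.2 one_ne_zero) hi.symm
  have hi4 : i ^ 4 = 1 := by
    have : i ^ 4 = (i ^ 2) ^ 2 := by ring
    rw [this, hi]
    ring
  have his : i ^ 2 ^ s = 1 := by
    have h3 : 2 ^ s = 4 * 2 ^ (s - 2) := by
      have : (4 : ℕ) = 2 ^ 2 := by norm_num
      rw [this, ← pow_add]
      congr 1
      omega
    rw [h3, pow_mul, hi4, one_pow]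
  have hia : i ^ a = i := by rw [← hga i his, hg]
  have ha4 : a % 4 = 1 := by
    have h3 : a % 4 = 1 ∨ a % 4 = 3 := by omega
    rcases h3 with h3 | h3
    · exact h3
    · exfalso
      have h4 : i ^ a = i ^ 3 := by
        conv_lhs => rw [← Nat.div_add_mod a 4, pow_add, pow_mul, hi4, one_pow, one_mul, h3]
      rw [hia] at h4
      have h5 : i * (1 - i ^ 2) = 0 := by linear_combination h4
      rcases mul_eq_zero.1 h5 with h6 | h6
      · exact hi0 h6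
      · exact hne (by rw [← hi]; linear_combination h6)
  obtain ⟨k, hk⟩ := gen_cc_two ha4 s
  have h3 := hkey g a 1 k hga (by rw [pow_one]; exact hk)
  rwa [pow_one] at h3

end Pool.Agent.H22.KW
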