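import Pool.Agent.H22.KW.Bas

/-!
# Module Irr: the cyclotomic polynomial of order a power of `p` is irreducible over the maximal unramified extension

`n = 0`: `ζ = 1 = ζ'`, take `g = 1`. Now `n + 1`: let `π = ζ - 1`, `m = (p - 1) * p ^ n = φ (p ^ (n + 1))`, so `‖π‖ ^ m = p⁻¹` (`norm_sub_one`). If `c : ℕ → PadicAlgCl p` has values in
`UU p` and `∑ j ∈ range m, c j * π ^ j = 0` then `c j = 0` for all `j < m` (`termU_le` of `Pool/Agent/H22/QA/UnrB`). So the minimal polynomial of `π` over the field `UU p` has degree `≥ m` (write `aeval π P`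
as such a sum, `aeval_eq_sum_range'`), so that of `ζ` too (translate by `1`: `P.comp (X + 1)` has the same degree). It divides the cyclotomic polynomial `cyclotomic (p ^ (n + 1)) (UU p)`, which is monic
of degree `m`; so they are equal, and `ζ'` is a root of `minpoly (UU p) ζ`. Take the automorphism of `PadicAlgCl p` over `UU p` with `ζ ↦ ζ'` (`minpoly.exists_algEquiv_of_root'` or similar,
`PadicAlgCl p` is normal over `UU p`) and restrict scalars to `ℚ_[p]`. It fixes `UU p`, and so `Mu p` (`Mu_mem_UU`).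
-/

set_option autoImplicit false

namespace Pool.Agent.H22.KW

open Polynomial Pool.Agent.H55.Tilt Pool.Agent.H22.QA

open scoped IntermediateField

variable {p : ℕ} [hp : Fact p.Prime]

theorem exists_gal_zeta (n : ℕ) {ζ ζ' : PadicAlgCl p} (h : IsPrimitiveRoot ζ (p ^ n))
    (h' : IsPrimitiveRoot ζ' (p ^ n)) : ∃ g : GG p, (∀ z ∈ Mu p, g z = z) ∧ g ζ = ζ' := by
  rcases n with _ | n
  · rw [pow_zero, IsPrimitiveRoot.one_right_iff] at h h'
    refine ⟨1, fun z _ => rfl, ?_⟩
    rw [h, h']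
    rfl
  have hint : IsIntegral (UU p) ζ := (Algebra.IsAlgebraic.isAlgebraic ζ).isIntegral
  have hpos : 0 < p ^ (n + 1) := pow_pos hp.out.pos _
  have hm0 : 0 < (p - 1) * p ^ n := Nat.mul_pos (by have := hp.out.one_lt; omega) (pow_pos hp.out.pos _)
  have hroot : ∀ x : PadicAlgCl p, IsPrimitiveRoot x (p ^ (n + 1)) →
      aeval x (cyclotomic (p ^ (n + 1)) (UU p)) = 0 := by
    intro x hx
    rw [aeval_def, eval₂_eq_eval_map, map_cyclotomic]
    exact hx.isRoot_cyclotomic hpos
  have hdeg : (p - 1) * p ^ n ≤ (minpoly (UU p) ζ).natDegree := by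
    by_contra hcon
    rw [not_le] at hcon
    have hq1 : ((minpoly (UU p) ζ).comp (X + C 1)).Monic :=
      (minpoly.monic hint).comp_X_add_C 1
    have hq2 : ((minpoly (UU p) ζ).comp (X + C 1)).natDegree < (p - 1) * p ^ n := by
      rw [natDegree_comp, natDegree_X_add_C, mul_one]
      exact hcon
    have hq3 : aeval (ζ - 1) ((minpoly (UU p) ζ).comp (X + C 1)) = 0 := by
      rw [aeval_comp, map_add, aeval_X, aeval_C, map_one, sub_add_cancel]
      exact minpoly.aeval _ _
    rw [aeval_eq_sum_range' hq2] at hq3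
    have hq4 : ∑ i ∈ Finset.range ((p - 1) * p ^ n),
        ((((minpoly (UU p) ζ).comp (X + C 1)).coeff i : UU p) : PadicAlgCl p) * (ζ - 1) ^ i = 0 := by
      rw [← hq3]
      exact Finset.sum_congr rfl fun i _ => rfl
    have hπ : ζ - 1 ≠ 0 := by
      rw [sub_ne_zero]
      exact h.ne_one (Nat.one_lt_pow (by omega) hp.out.one_lt)
    have hlt := termU_le (ζ - 1) _ (norm_sub_one n ζ h)
      (fun i => ((((minpoly (UU p) ζ).comp (X + C 1)).coeff i : UU p) : PadicAlgCl p))
      (fun i => SetLike.coe_mem _) hq2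
    rw [hq4, norm_zero] at hlt
    rw [coeff_natDegree, hq1.leadingCoeff] at hlt
    have h1 : (((1 : UU p)) : PadicAlgCl p) = 1 := rfl
    rw [h1, norm_one, one_mul] at hlt
    exact absurd hlt (not_le.2 (pow_pos (norm_pos_iff.2 hπ) _))
  have heq : cyclotomic (p ^ (n + 1)) (UU p) = minpoly (UU p) ζ := by
    apply eq_of_monic_of_dvd_of_natDegree_le (minpoly.monic hint) (cyclotomic.monic _ _)
      (minpoly.dvd _ _ (hroot ζ h))
    rw [natDegree_cyclotomic, Nat.totient_prime_pow_succ hp.out, mul_comm]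
    exact hdeg
  have hζ' : aeval ζ' (minpoly (UU p) ζ) = 0 := by
    rw [← heq]
    exact hroot ζ' h'
  have hn : Normal (UU p) (PadicAlgCl p) := Normal.tower_top_of_normal ℚ_[p] (UU p) (PadicAlgCl p)
  obtain ⟨σ, hσ⟩ := minpoly.exists_algEquiv_of_root' (K := UU p) (L := PadicAlgCl p) hint.isAlgebraic hζ'
  refine ⟨σ.restrictScalars ℚ_[p], fun z hz => ?_, hσ⟩
  exact σ.commutes (⟨z, Mu_mem_UU hz⟩ : UU p)

end Pool.Agent.H22.KW
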