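import Pool.Agent.H22.KW.Bas

/-!
# Module Kum: Kummer theory by Lagrange resolvents

`hχ` gives a finite extension `L₀`; let `L` be its normal closure (`IntermediateField.normalClosure L₀ ..`, or the field generated by all `g x`,
`x` in a finite generating set): finite, stable under all `g`, and `χ g = 1` if `g` fixes `L`. Let `S` be the (finite) set of the algebra
homomorphisms `L →ₐ[ℚ_[p]] PadicAlgCl p` which are restrictions of some `g ∈ F.fixingSubgroup`; `χ g` depends only on the restriction of `g` to `L`: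
call it `ψ σ`. The homomorphisms are linearly independent (`linearIndependent_monoidHom` or `linearIndependent_algHom_toLinearMap`), so there is `x ∈ L` with
`α := ∑ σ ∈ S, (ψ σ)⁻¹ * σ x ≠ 0`. For `g ∈ F.fixingSubgroup`: `g` fixes `(ψ σ)⁻¹ ∈ F` (`hF`), so
`g α = ∑ σ, (ψ σ)⁻¹ * (g ∘ σ) x = χ g * ∑ σ, (ψ (g ∘ σ))⁻¹ * (g ∘ σ) x = χ g * α`, as `ψ (g ∘ σ) = χ g * ψ σ` and `σ ↦ g ∘ σ` is a
bijection of `S`.
(Any other proof is welcome: for example with `Gal(L/L ∩ F)` and Hilbert 90, `groupCohomology.isMulCoboundary₁_of_isMulCocycle₁_of_aut_to_units`.)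
-/

set_option autoImplicit false

namespace Pool.Agent.H22.KW

open Polynomial Pool.Agent.H55.Tilt Pool.Agent.H22.QA

open scoped IntermediateField

variable {p : ℕ} [hp : Fact p.Prime]

theorem kummer (F : IntermediateField ℚ_[p] (PadicAlgCl p)) {χ : Chr p} (hχ : Sm χ)
    (hF : ∀ g ∈ F.fixingSubgroup, (χ g : PadicAlgCl p) ∈ F) :
    ∃ α : PadicAlgCl p, α ≠ 0 ∧ ∀ g ∈ F.fixingSubgroup, g α = χ g * α := by
  classical
  obtain ⟨L, hL, h1⟩ := hχ
  have := hL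
  let φ : GG p → (L →ₐ[ℚ_[p]] PadicAlgCl p) := fun g =>
    (g : PadicAlgCl p →ₐ[ℚ_[p]] PadicAlgCl p).comp L.val
  have hφa : ∀ (g : GG p) (x : L), φ g x = g (x : PadicAlgCl p) := fun _ _ => rfl
  have hφ : ∀ g h : GG p, φ g = φ h → χ g = χ h := by
    intro g h hgh
    have h2 : g⁻¹ * h ∈ L.fixingSubgroup := by
      rw [mem_fix]
      intro x hx
      have h3 : g x = h x := by
        have := DFunLike.congr_fun hgh (⟨x, hx⟩ : L)
        exact this
      rw [AlgEquiv.mul_apply, ← h3, ← AlgEquiv.mul_apply, inv_mul_cancel, AlgEquiv.one_apply]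
    have h4 := h1 _ h2
    rw [map_mul, map_inv, inv_mul_eq_one] at h4
    exact h4
  let ψ : (L →ₐ[ℚ_[p]] PadicAlgCl p) → PadicAlgCl p := fun σ =>
    if h : ∃ g ∈ F.fixingSubgroup, φ g = σ then (((χ h.choose)⁻¹ : (PadicAlgCl p)ˣ) : PadicAlgCl p) else 0
  have hψ : ∀ g ∈ F.fixingSubgroup, ψ (φ g) = (((χ g)⁻¹ : (PadicAlgCl p)ˣ) : PadicAlgCl p) := by
    intro g hg
    have hex : ∃ g' ∈ F.fixingSubgroup, φ g' = φ g := ⟨g, hg, rfl⟩
    have h2 : ψ (φ g) = (((χ hex.choose)⁻¹ : (PadicAlgCl p)ˣ) : PadicAlgCl p) := dif_pos hex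
    rw [h2, hφ _ _ hex.choose_spec.2]
  have hψ0 : ∀ σ, (¬ ∃ g ∈ F.fixingSubgroup, φ g = σ) → ψ σ = 0 := fun σ h => dif_neg h
  -- linear independence of the homomorphisms
  have hli := linearIndependent_toLinearMap ℚ_[p] L (PadicAlgCl p)
  have hex : ∃ x : L, ∑ σ : (L →ₐ[ℚ_[p]] PadicAlgCl p), ψ σ * σ x ≠ 0 := by
    by_contra hcon
    push Not at hcon
    rw [Fintype.linearIndependent_iff] at hli
    have h2 := hli ψ (by
      refine LinearMap.ext fun x => ?_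
      rw [LinearMap.sum_apply]
      simpa using hcon x) (φ 1)
    rw [hψ 1 (one_mem _)] at h2
    exact Units.ne_zero _ h2
  obtain ⟨x, hx⟩ := hex
  refine ⟨_, hx, fun g hg => ?_⟩
  rw [map_sum, Finset.mul_sum]
  let e : (L →ₐ[ℚ_[p]] PadicAlgCl p) ≃ (L →ₐ[ℚ_[p]] PadicAlgCl p) :=
    { toFun := fun σ => (g : PadicAlgCl p →ₐ[ℚ_[p]] PadicAlgCl p).comp σ
      invFun := fun σ => ((g⁻¹ : GG p) : PadicAlgCl p →ₐ[ℚ_[p]] PadicAlgCl p).comp σ
      left_inv := fun σ => by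
        refine AlgHom.ext fun y => ?_
        change (g⁻¹ : GG p) (g (σ y)) = σ y
        rw [← AlgEquiv.mul_apply, inv_mul_cancel, AlgEquiv.one_apply]
      right_inv := fun σ => by
        refine AlgHom.ext fun y => ?_
        change g ((g⁻¹ : GG p) (σ y)) = σ y
        rw [← AlgEquiv.mul_apply, mul_inv_cancel, AlgEquiv.one_apply] }
  refine Fintype.sum_equiv e _ _ fun σ => ?_
  have hea : (e σ) x = g (σ x) := rfl
  rw [map_mul, hea, ← mul_assoc]
  congr 1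
  by_cases hσ : ∃ h ∈ F.fixingSubgroup, φ h = σ
  · obtain ⟨h, hh, rfl⟩ := hσ
    have h3 : e (φ h) = φ (g * h) := rfl
    rw [h3, hψ h hh, hψ (g * h) (mul_mem hg hh)]
    have h4 : (((χ h)⁻¹ : (PadicAlgCl p)ˣ) : PadicAlgCl p) ∈ F := by
      rw [Units.val_inv_eq_inv_val]
      exact inv_mem (hF h hh)
    rw [mem_fix.1 hg _ h4, map_mul, mul_inv_rev, Units.val_mul]
    rw [mul_comm (((χ h)⁻¹ : (PadicAlgCl p)ˣ) : PadicAlgCl p), ← mul_assoc, Units.mul_inv, one_mul]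
  · have h3 : ¬ ∃ h ∈ F.fixingSubgroup, φ h = e σ := by
      rintro ⟨h, hh, h5⟩
      refine hσ ⟨g⁻¹ * h, mul_mem (inv_mem hg) hh, ?_⟩
      have h6 : φ (g⁻¹ * h) = ((g⁻¹ : GG p) : PadicAlgCl p →ₐ[ℚ_[p]] PadicAlgCl p).comp (φ h) := rfl
      rw [h6, h5]
      exact e.left_inv σ
    rw [hψ0 σ hσ, hψ0 _ h3, map_zero, mul_zero]

end Pool.Agent.H22.KW
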