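import Pool.Agent.H22.KW.Bas

/-!
# Module NTa: orders

`order_cc`: for `p` odd `(1 + p) ^ k ≡ 1` modulo `p ^ (m + 2)` implies `p ^ (m + 1) ∣ k` (lifting the exponent: `v_p ((1 + p) ^ k - 1) = 1 + v_p (k)`, `padicValNat.pow_sub_pow`, `Int.emultiplicity_pow_sub_pow`; `k = 0` is trivial), for `p = 2` `5 ^ k ≡ 1` modulo `2 ^ (m + 2)` implies `2 ^ m ∣ k` (`Int.two_pow_sub_pow`, or `v_2 (5 ^ k - 1) = 2 + v_2 (k)`;
possibly `ZMod.orderOf_one_add_prime`, `ZMod.orderOf_five` are in Mathlib).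
`order_p`: `p ^ k ≡ 1` modulo `p ^ n - 1`: write `k = n q + r`, `r < n`; `p ^ k ≡ p ^ r`, so `p ^ n - 1 ∣ p ^ r - 1 < p ^ n - 1`, `r = 0`.
-/

set_option autoImplicit false

namespace Pool.Agent.H22.KW

open Polynomial Pool.Agent.H55.Tilt Pool.Agent.H22.QA

open scoped IntermediateField

variable {p : ℕ} [hp : Fact p.Prime]

theorem order_cc (p : ℕ) [Fact p.Prime] (m : ℕ) {k : ℕ} (h : cc p ^ k ≡ 1 [MOD p ^ (m + 2)]) : p ^ m ∣ k := by
  have hpr : p.Prime := Fact.out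
  have h1 : ((cc p : ℕ) : ZMod (p ^ (m + 2))) ^ k = 1 := by
    have h2 := (ZMod.natCast_eq_natCast_iff _ _ _).2 h
    simpa using h2
  have h3 := orderOf_dvd_of_pow_eq_one h1
  by_cases hp2 : p = 2
  · subst hp2
    have e : ((cc 2 : ℕ) : ZMod (2 ^ (m + 2))) = 5 := by
      unfold cc
      simp
    rw [e, ZMod.orderOf_five] at h3
    exact h3
  · have e : ((cc p : ℕ) : ZMod (p ^ (m + 1 + 1))) = 1 + p := by
      unfold cc
      rw [if_neg hp2]
      push_cast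
      ring
    have h4 : orderOf ((cc p : ℕ) : ZMod (p ^ (m + 1 + 1))) ∣ k := h3
    rw [e, ZMod.orderOf_one_add_prime hpr hp2] at h4
    exact (pow_dvd_pow p (Nat.le_succ m)).trans h4

theorem order_p (p : ℕ) [Fact p.Prime] {n : ℕ} (hn : 0 < n) {k : ℕ} (h : p ^ k ≡ 1 [MOD p ^ n - 1]) : n ∣ k := by
  have hpr : p.Prime := Fact.out
  have hp2 : 2 ≤ p := hpr.two_le
  have h1n : 1 ≤ p ^ n := Nat.one_le_pow _ _ hpr.pos
  have hb : p ^ n ≡ 1 [MOD p ^ n - 1] := by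
    refine Nat.ModEq.symm ((Nat.modEq_iff_dvd' h1n).2 ?_)
    exact dvd_refl _
  have hk : p ^ k ≡ p ^ (k % n) [MOD p ^ n - 1] := by
    have e : p ^ k = (p ^ n) ^ (k / n) * p ^ (k % n) := by
      rw [← pow_mul, ← pow_add, Nat.div_add_mod]
    rw [e]
    have h2 : (p ^ n) ^ (k / n) ≡ 1 ^ (k / n) [MOD p ^ n - 1] := hb.pow _
    rw [one_pow] at h2
    have h3 := h2.mul_right (p ^ (k % n))
    rwa [one_mul] at h3
  have hr : 1 ≡ p ^ (k % n) [MOD p ^ n - 1] := h.symm.trans hk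
  have h1r : 1 ≤ p ^ (k % n) := Nat.one_le_pow _ _ hpr.pos
  have hd : p ^ n - 1 ∣ p ^ (k % n) - 1 := (Nat.modEq_iff_dvd' h1r).1 hr
  have hlt : p ^ (k % n) < p ^ n := Nat.pow_lt_pow_right hp2 (Nat.mod_lt _ hn)
  have hz : p ^ (k % n) - 1 = 0 := by
    by_contra hne
    have := Nat.le_of_dvd (Nat.pos_of_ne_zero hne) hd
    omega
  have hone : p ^ (k % n) = 1 := by omega
  have hmod : k % n = 0 := by
    by_contra hne
    have h5 : 1 < p ^ (k % n) := Nat.one_lt_pow hne hpr.one_lt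
    omega
  exact Nat.dvd_of_mod_eq_zero hmod

end Pool.Agent.H22.KW
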