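import Pool.Agent.H22.KW.Kum

/-!
# Module Quart: `ℚ_2(i)` is not contained in a cyclic extension of degree four

`no_two_squares`: multiply `x ^ 2 + y ^ 2 = -1` by a power of `4` such that `x ^ 2 + y ^ 2 + z ^ 2 = 0` in `ℤ_2` with `x, y, z` not all even; but squares are `0` or `1` modulo `4`.
`quart`: `s i ≠ i` by `h1`, `(s i) ^ 2 = -1`, so `s i = - i`. `(ρ s) ^ 2 = -1` (its square is one, it is not one). Let `F = ℚ_[2]⟮i⟯`. For `g` fixing `F`: `(ρ g) ^ 2 = 1`, `ρ g = ± 1 ∈ F`. `kummer F hρ`: `α ≠ 0`, `g α = ρ g * α` for `g` fixing `F`. `s ^ 2 = s * s` fixes `i`, so `F`; `ρ (s * s) = -1`,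
`s (s α) = - α`. For `g` fixing `F`, `g' = s⁻¹ * g * s` fixes `F`, `ρ g' = ρ g`, `g (s α) = s (g' α) = ρ g * s α` (as `s (± 1) = ± 1`). So `c = s α / α` is fixed by `F.fixingSubgroup`, `c ∈ F`, `c = x + y i` with `x, y ∈ ℚ_2` (e.g. `adj_poly`, division by `X ^ 2 + 1`). `- α = s (s α) = s (c α) = (s c) c α`, so
`(s c) c = -1`, that is `(x - y i) (x + y i) = x ^ 2 + y ^ 2 = -1`, contradiction.
-/

set_option autoImplicit false

namespace Pool.Agent.H22.KW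

open Polynomial Pool.Agent.H55.Tilt Pool.Agent.H22.QA

open scoped IntermediateField

variable {p : ℕ} [hp : Fact p.Prime]

private lemma q_mod (a b : ZMod (2 ^ 2)) : a ^ 2 + b ^ 2 + 1 ≠ 0 := by
  revert a b
  decide

private lemma q_mod' (a b : ZMod (2 ^ 2)) (h : a ^ 2 + b ^ 2 = 0) : 2 * a = 0 ∧ 2 * b = 0 := by
  revert a b
  decide

private lemma q_half {a : ℤ_[2]} (h : 2 * PadicInt.toZModPow 2 a = 0) : ∃ c : ℤ_[2], a = 2 * c := by
  have h1 : (2 * a) ∈ RingHom.ker (PadicInt.toZModPow (p := 2) 2) := by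
    rw [RingHom.mem_ker, map_mul, map_ofNat]
    exact h
  rw [PadicInt.ker_toZModPow, Ideal.mem_span_singleton] at h1
  obtain ⟨c, hc⟩ := h1
  refine ⟨c, ?_⟩
  have h2 : (2 : ℤ_[2]) * a = 2 * (2 * c) := by
    rw [hc]
    push_cast
    ring
  exact mul_left_cancel₀ two_ne_zero h2

private lemma q_int (n : ℕ) : ∀ a b : ℤ_[2], a ^ 2 + b ^ 2 + (2 ^ n) ^ 2 ≠ 0 := by
  induction n with
  | zero =>
    intro a b h
    have h1 := congrArg (PadicInt.toZModPow (p := 2) 2) h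
    simp only [map_add, map_pow, map_zero, pow_zero, one_pow, map_one] at h1
    exact q_mod _ _ h1
  | succ n ih =>
    intro a b h
    have h1 := congrArg (PadicInt.toZModPow (p := 2) 2) h
    have h4 : PadicInt.toZModPow (p := 2) 2 (((2 : ℤ_[2]) ^ (n + 1)) ^ 2) = 0 := by
      have h5 : ((2 : ℤ_[2]) ^ (n + 1)) ^ 2 = ((2 ^ 2 : ℕ) : ℤ_[2]) * (2 ^ n) ^ 2 := by
        push_cast
        ring
      rw [h5, map_mul, map_natCast]
      have h6 : ((2 ^ 2 : ℕ) : ZMod (2 ^ 2)) = 0 := by decide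
      rw [h6, zero_mul]
    rw [map_add, h4, add_zero, map_add, map_pow, map_pow, map_zero] at h1
    obtain ⟨ha, hb⟩ := q_mod' _ _ h1
    obtain ⟨a', rfl⟩ := q_half ha
    obtain ⟨b', rfl⟩ := q_half hb
    refine ih a' b' ?_
    have h7 : (4 : ℤ_[2]) * (a' ^ 2 + b' ^ 2 + (2 ^ n) ^ 2) = 0 := by
      rw [← h]
      ring
    rcases mul_eq_zero.1 h7 with h8 | h8
    · exact absurd h8 (by norm_num)
    · exact h8

theorem no_two_squares (x y : ℚ_[2]) : x ^ 2 + y ^ 2 ≠ -1 := by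
  intro h
  obtain ⟨n, hn⟩ : ∃ n : ℕ, max ‖x‖ ‖y‖ ≤ 2 ^ n := by
    obtain ⟨n, hn⟩ := pow_unbounded_of_one_lt (max ‖x‖ ‖y‖) (one_lt_two)
    exact ⟨n, hn.le⟩
  have h2 : ‖(2 : ℚ_[2]) ^ n‖ = (2 ^ n)⁻¹ := by
    have h3 : ‖((2 : ℕ) : ℚ_[2])‖ = ((2 : ℕ) : ℝ)⁻¹ := Padic.norm_p
    rw [norm_pow]
    have h4 : ‖(2 : ℚ_[2])‖ = 2⁻¹ := by exact_mod_cast h3
    rw [h4, inv_pow]
  have hpos : (0 : ℝ) < 2 ^ n := by positivity
  have hx : ‖(2 : ℚ_[2]) ^ n * x‖ ≤ 1 := by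
    rw [norm_mul, h2, inv_mul_le_iff₀ hpos, mul_one]
    exact (le_max_left _ _).trans hn
  have hy : ‖(2 : ℚ_[2]) ^ n * y‖ ≤ 1 := by
    rw [norm_mul, h2, inv_mul_le_iff₀ hpos, mul_one]
    exact (le_max_right _ _).trans hn
  refine q_int n ⟨_, hx⟩ ⟨_, hy⟩ ?_
  apply Subtype.ext
  have h5 : ((2 : ℚ_[2]) ^ n * x) ^ 2 + (2 ^ n * y) ^ 2 + (2 ^ n) ^ 2 = 0 := by
    have h6 : ((2 : ℚ_[2]) ^ n * x) ^ 2 + (2 ^ n * y) ^ 2 + (2 ^ n) ^ 2
        = (2 ^ n) ^ 2 * (x ^ 2 + y ^ 2 + 1) := by ring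
    rw [h6, h]
    ring
  push_cast
  exact h5

private lemma q_fix {i : PadicAlgCl 2} {g : GG 2} (hg : g i = i) : g ∈ (ℚ_[2]⟮i⟯).fixingSubgroup := by
  rw [mem_fix]
  intro x hx
  induction hx using IntermediateField.adjoin_induction with
  | mem x hx =>
    rw [Set.mem_singleton_iff] at hx
    rw [hx, hg]
  | algebraMap x => exact g.commutes x
  | add x y _ _ hx hy => rw [map_add, hx, hy]
  | inv x _ hx => rw [map_inv₀, hx]
  | mul x y _ _ hx hy => rw [map_mul, hx, hy]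

theorem quart {ρ : Chr 2} (hρ : Sm ρ) {i : PadicAlgCl 2} (hi : i ^ 2 = -1)
    (h1 : ∀ g : GG 2, g i = i → ρ g ^ 2 = 1) {s : GG 2} (hs : ρ s ^ 2 ≠ 1) (hs4 : ρ s ^ 4 = 1) : False := by
  have hi0 : i ≠ 0 := by
    rintro rfl
    norm_num at hi
  have him : i ∈ ℚ_[2]⟮i⟯ := IntermediateField.mem_adjoin_simple_self _ _
  -- the action on `i`
  have hpm : ∀ g : GG 2, g i = i ∨ g i = -i := by
    intro g
    have h2 : (g i) ^ 2 = i ^ 2 := by rw [← map_pow, hi, map_neg, map_one]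
    exact sq_eq_sq_iff_eq_or_eq_neg.1 h2
  have hsi : s i = -i := by
    rcases hpm s with h2 | h2
    · exact absurd (h1 s h2) hs
    · exact h2
  -- the square of `ρ s`
  have hr : ((ρ s : (PadicAlgCl 2)ˣ) : PadicAlgCl 2) ^ 2 = -1 := by
    have h2 : ((ρ s : (PadicAlgCl 2)ˣ) : PadicAlgCl 2) ^ 4 = 1 := by
      rw [← Units.val_pow_eq_pow_val, hs4, Units.val_one]
    have h3 : ((ρ s : (PadicAlgCl 2)ˣ) : PadicAlgCl 2) ^ 2 ≠ 1 := by
      intro h
      apply hs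
      apply Units.ext
      rw [Units.val_pow_eq_pow_val, h, Units.val_one]
    have h4 : (((ρ s : (PadicAlgCl 2)ˣ) : PadicAlgCl 2) ^ 2 - 1) *
        (((ρ s : (PadicAlgCl 2)ˣ) : PadicAlgCl 2) ^ 2 + 1) = 0 := by
      linear_combination h2
    rcases mul_eq_zero.1 h4 with h5 | h5
    · exact absurd (sub_eq_zero.1 h5) h3
    · exact eq_neg_of_add_eq_zero_left h5
  -- the values on the subgroup
  have hval : ∀ g : GG 2, g i = i → ((ρ g : (PadicAlgCl 2)ˣ) : PadicAlgCl 2) = 1 ∨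
      ((ρ g : (PadicAlgCl 2)ˣ) : PadicAlgCl 2) = -1 := by
    intro g hg
    have h2 : ((ρ g : (PadicAlgCl 2)ˣ) : PadicAlgCl 2) ^ 2 = 1 := by
      rw [← Units.val_pow_eq_pow_val, h1 g hg, Units.val_one]
    exact sq_eq_sq_iff_eq_or_eq_neg.1 (by rw [h2, one_pow])
  have hfix : ∀ g ∈ (ℚ_[2]⟮i⟯).fixingSubgroup, g i = i := fun g hg => mem_fix.1 hg i him
  obtain ⟨α, hα, hk⟩ := kummer (ℚ_[2]⟮i⟯) hρ (by
    intro g hg
    rcases hval g (hfix g hg) with h2 | h2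
    · rw [h2]; exact one_mem _
    · rw [h2]; exact neg_mem (one_mem _))
  -- `s (s α) = - α`
  have hss : s (s α) = -α := by
    have h2 : (s * s) i = i := by
      rw [AlgEquiv.mul_apply, hsi, map_neg, hsi, neg_neg]
    have h3 := hk (s * s) (q_fix h2)
    have h4 : ((ρ s : (PadicAlgCl 2)ˣ) : PadicAlgCl 2) * (ρ s : (PadicAlgCl 2)ˣ) = -1 := by
      rw [← pow_two]; exact hr
    rw [AlgEquiv.mul_apply, map_mul, Units.val_mul, h4] at h3
    rw [h3, neg_one_mul]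
  have hinv : ∀ x : PadicAlgCl 2, s (s⁻¹ x) = x := by
    intro x
    rw [← AlgEquiv.mul_apply, mul_inv_cancel, AlgEquiv.one_apply]
  have hinvi : s⁻¹ (-i) = i := by
    have h2 : s⁻¹ (s i) = i := by
      rw [← AlgEquiv.mul_apply, inv_mul_cancel, AlgEquiv.one_apply]
    rwa [hsi] at h2
  have hconj : ∀ g : GG 2, g i = i → (s⁻¹ * g * s) i = i := by
    intro g hg
    rw [AlgEquiv.mul_apply, AlgEquiv.mul_apply, hsi, map_neg, hg, hinvi]
  have hsa : ∀ g : GG 2, g i = i → g (s α) = ρ g * s α := by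
    intro g hg
    have h2 : g (s α) = s ((s⁻¹ * g * s) α) := by
      rw [AlgEquiv.mul_apply, AlgEquiv.mul_apply, hinv]
    have h3 : ρ (s⁻¹ * g * s) = ρ g := by
      rw [map_mul, map_mul, map_inv, mul_comm, mul_inv_cancel_left]
    rw [h2, hk _ (q_fix (hconj g hg)), h3, map_mul]
    rcases hval g hg with h4 | h4
    · rw [h4, map_one]
    · rw [h4, map_neg, map_one]
  -- the element `c`
  obtain ⟨c, hc⟩ : ∃ c : PadicAlgCl 2, s α = c * α := ⟨s α / α, by field_simp⟩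
  have hcg : ∀ g : GG 2, g i = i → g c = c := by
    intro g hg
    have h2 := hsa g hg
    rw [hc, map_mul, hk g (q_fix hg)] at h2
    have h3 : ((ρ g : (PadicAlgCl 2)ˣ) : PadicAlgCl 2) * α ≠ 0 := mul_ne_zero (Units.ne_zero _) hα
    refine mul_right_cancel₀ h3 ?_
    rw [h2]
    ring
  have hscg : ∀ g : GG 2, g i = i → g (s c) = s c := by
    intro g hg
    have h2 : g (s c) = s ((s⁻¹ * g * s) c) := by
      rw [AlgEquiv.mul_apply, AlgEquiv.mul_apply, hinv]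
    rw [h2, hcg _ (hconj g hg)]
  have hcm : ∀ g : GG 2, g i = -i → g c = s c ∧ g (s c) = c := by
    intro g hg
    constructor
    · have h2 : (s⁻¹ * g) i = i := by rw [AlgEquiv.mul_apply, hg, hinvi]
      have h3 := hcg _ h2
      rw [AlgEquiv.mul_apply] at h3
      rw [← hinv (g c), h3]
    · have h2 : (g * s) i = i := by rw [AlgEquiv.mul_apply, hsi, map_neg, hg, neg_neg]
      have h3 := hcg _ h2
      rwa [AlgEquiv.mul_apply] at h3
  have hN : s c * c = -1 := by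
    have h2 : s (s α) = s c * c * α := by
      conv_lhs => rw [hc, map_mul, hc]
      ring
    rw [hss] at h2
    refine mul_right_cancel₀ hα ?_
    rw [← h2]
    ring
  have h20 : (2 : PadicAlgCl 2) ≠ 0 := two_ne_zero
  obtain ⟨x, hx⟩ : ∃ x : ℚ_[2], algebraMap ℚ_[2] (PadicAlgCl 2) x = (c + s c) / 2 := by
    have h2 : (c + s c) / 2 ∈ (⊥ : IntermediateField ℚ_[2] (PadicAlgCl 2)) := by
      apply mem_of_fixed
      intro g _
      rcases hpm g with hg | hg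
      · rw [map_div₀, map_add, hcg g hg, hscg g hg, map_ofNat]
      · rw [map_div₀, map_add, (hcm g hg).1, (hcm g hg).2, map_ofNat, add_comm]
    exact IntermediateField.mem_bot.1 h2
  obtain ⟨y, hy⟩ : ∃ y : ℚ_[2], algebraMap ℚ_[2] (PadicAlgCl 2) y = (c - s c) / (2 * i) := by
    have h2 : (c - s c) / (2 * i) ∈ (⊥ : IntermediateField ℚ_[2] (PadicAlgCl 2)) := by
      apply mem_of_fixed
      intro g _
      rcases hpm g with hg | hg
      · rw [map_div₀, map_sub, hcg g hg, hscg g hg, map_mul, map_ofNat, hg]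
      · rw [map_div₀, map_sub, (hcm g hg).1, (hcm g hg).2, map_mul, map_ofNat, hg]
        field_simp
        ring
    exact IntermediateField.mem_bot.1 h2
  refine no_two_squares x y ?_
  apply (algebraMap ℚ_[2] (PadicAlgCl 2)).injective
  rw [map_add, map_pow, map_pow, hx, hy, map_neg, map_one, div_pow, div_pow, mul_pow, hi]
  have h3 : (c + s c) ^ 2 / 2 ^ 2 + (c - s c) ^ 2 / (2 ^ 2 * -1) = s c * c := by
    field_simp
    ring
  rw [h3, hN]

end Pool.Agent.H22.KW
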