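import Pool.Agent.H22.KW.Bas

/-!
# Module Root: roots of units

`root_unit_UU`: `mem_of_fixed`; let `g` fix `UU p`. `(g x) ^ n = g (x ^ n) = x ^ n`, so `g x = ξ x`, `ξ = g x / x`, `ξ ^ n = 1`. `‖ξ - 1‖ = ‖g x - x‖ < 1` (`res_triv`, `mem_fix_UU`), so `ξ = 1` by `Mu_inj`. `root_unit_KMu`: the same (`KMu_fix_le`).
`root_p`: let `ζ` be a primitive `p`-th root of unity (`exists_prim_root`), `λ = ζ - 1 ∈ KMu p`, `‖λ‖ ^ (p - 1) = p⁻¹` (`norm_lam`). `u = x / λ`: `u ^ (p - 1) = p / λ ^ (p - 1) ∈ KMu p` has norm one, so `‖u‖ = 1` and `u ∈ KMu p` by `root_unit_KMu` (`p ∤ p - 1`), `x = u λ`.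
`s8`: 1. `‖x - 1‖ ≤ ‖λ‖`: `x ^ p - 1 = ∏ (x - ξ)` over the `p`-th roots of unity `ξ` (`X_pow_sub_one_eq_prod`, `p` factors, `card_nthRootsFinset`), so some `‖x - ξ‖ ≤ ‖λ‖`, and `‖ξ - 1‖ ≤ ‖λ‖`
(`ξ = ζ ^ j`, geometric sum). 2. `mem_of_fixed`; let `g` fix `KMu p`. `(g x) ^ p = x ^ p`, so `g x = ξ x` with `ξ ^ p = 1` (`x ≠ 0`, since `‖x - 1‖ < 1`, also `‖x‖ = 1`). Let `y = (x - 1) / λ`, `‖y‖ ≤ 1`; `g y - y = (g x - x) / λ = (ξ - 1) x / λ` as `g λ = λ`.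
By `res_triv` `‖g y - y‖ < 1`, so `‖ξ - 1‖ < ‖λ‖`. If `ξ ≠ 1` then `ξ` is a primitive `p`-th root of unity and `‖ξ - 1‖ = ‖λ‖` (`norm_lam` for `ξ` and `ζ`, `p - 1 ≥ 1`), contradiction. So `g x = x`.
-/

set_option autoImplicit false

namespace Pool.Agent.H22.KW

open Polynomial Pool.Agent.H55.Tilt Pool.Agent.H22.QA

open scoped IntermediateField

variable {p : ℕ} [hp : Fact p.Prime]

private theorem root_unit_aux {E : IntermediateField ℚ_[p] (PadicAlgCl p)}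
    (hE : ∀ g ∈ E.fixingSubgroup, ∀ z ∈ Mu p, g z = z) {n : ℕ} (hn : ¬ p ∣ n) {x : PadicAlgCl p}
    (hx : x ^ n ∈ E) (h1 : ‖x‖ = 1) : x ∈ E := by
  refine mem_of_fixed fun g hg => ?_
  have h2 := hE g hg
  have hx0 : x ≠ 0 := by
    rintro rfl
    simp at h1
  have h3 : (g x / x) ^ n = 1 := by
    rw [div_pow, ← map_pow, mem_fix.1 hg _ hx, div_self (pow_ne_zero _ hx0)]
  have h4 : ‖g x / x - 1‖ < 1 := by
    have h5 : g x / x - 1 = (g x - x) / x := by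
      rw [sub_div, div_self hx0]
    rw [h5, norm_div, h1, div_one]
    exact res_triv h2 h1.le
  have h6 : g x / x = 1 := Mu_inj hn h3 (one_pow _) h4
  rwa [div_eq_one_iff_eq hx0] at h6

theorem root_unit_UU {n : ℕ} (hn : ¬ p ∣ n) {x : PadicAlgCl p} (hx : x ^ n ∈ UU p) (h1 : ‖x‖ = 1) :
    x ∈ UU p :=
  root_unit_aux (fun _ hg => mem_fix_UU.1 hg) hn hx h1

theorem root_unit_KMu {n : ℕ} (hn : ¬ p ∣ n) {x : PadicAlgCl p} (hx : x ^ n ∈ KMu p) (h1 : ‖x‖ = 1) :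
    x ∈ KMu p :=
  root_unit_aux (fun _ hg => KMu_fix_le hg) hn hx h1

theorem root_p {x : PadicAlgCl p} (hx : x ^ (p - 1) = p) : x ∈ KMu p := by
  obtain ⟨ζ, hζ⟩ := exists_prim_root (p := p) p hp.out.ne_zero
  have hp1 : p - 1 ≠ 0 := by
    have := hp.out.two_le
    omega
  have hζm : ζ ∈ KMu p := root_mem_KMu hp.out.pos hζ.pow_eq_one
  have hlm : ζ - 1 ∈ KMu p := (KMu p).sub_mem hζm (KMu p).one_mem
  have hl0 : ζ - 1 ≠ 0 := norm_pos_iff.1 (lam_pos hζ)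
  have h1 : (x / (ζ - 1)) ^ (p - 1) ∈ KMu p := by
    rw [div_pow, hx]
    exact (KMu p).div_mem (natCast_mem _ _) (pow_mem hlm _)
  have h2 : ‖x / (ζ - 1)‖ = 1 := by
    have h3 : ‖x / (ζ - 1)‖ ^ (p - 1) = 1 := by
      rw [norm_div, div_pow, norm_lam hζ, ← norm_pow, hx, norm_p_cl, div_self]
      have : (p : ℝ) ≠ 0 := by exact_mod_cast hp.out.ne_zero
      exact inv_ne_zero this
    exact (pow_eq_one_iff_of_nonneg (norm_nonneg _) hp1).1 h3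
  have h4 : ¬ p ∣ p - 1 := fun h => by
    have := Nat.le_of_dvd (Nat.pos_of_ne_zero hp1) h
    omega
  have h5 := root_unit_KMu h4 h1 h2
  have h6 : x = x / (ζ - 1) * (ζ - 1) := by rw [div_mul_cancel₀ _ hl0]
  rw [h6]
  exact (KMu p).mul_mem h5 hlm

private theorem norm_root_sub {ζ : PadicAlgCl p} (hζ : IsPrimitiveRoot ζ p) {ξ : PadicAlgCl p}
    (hξ : ξ ^ p = 1) : ‖ξ - 1‖ ≤ ‖ζ - 1‖ := by
  have : NeZero p := ⟨hp.out.ne_zero⟩
  obtain ⟨i, _, rfl⟩ := hζ.eq_pow_of_pow_eq_one hξ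
  have h1 : ζ ^ i - 1 = (ζ - 1) * ∑ j ∈ Finset.range i, ζ ^ j := by
    rw [mul_comm, geom_sum_mul]
  have ha1 : ‖ζ‖ = 1 := norm_root hp.out.pos hζ.pow_eq_one
  rw [h1, norm_mul]
  apply mul_le_of_le_one_right (norm_nonneg _)
  apply IsUltrametricDist.norm_sum_le_of_forall_le_of_nonneg zero_le_one
  intro j _
  rw [norm_pow, ha1, one_pow]

theorem s8 {ζ : PadicAlgCl p} (hζ : IsPrimitiveRoot ζ p) {x : PadicAlgCl p} (hx : x ^ p ∈ KMu p)
    (h : ‖x ^ p - 1‖ ≤ ‖ζ - 1‖ ^ p) : x ∈ KMu p := by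
  have : NeZero p := ⟨hp.out.ne_zero⟩
  have hlp := lam_pos hζ
  have hl1 := lam_lt hζ
  have hζm : ζ ∈ KMu p := root_mem_KMu hp.out.pos hζ.pow_eq_one
  have hl0 : ζ - 1 ≠ 0 := norm_pos_iff.1 hlp
  -- step 1
  have hx1 : ‖x - 1‖ ≤ ‖ζ - 1‖ := by
    have h1 := X_pow_sub_one_eq_prod hp.out.pos hζ
    have h2 := congrArg (eval x) h1
    rw [eval_prod] at h2
    simp only [eval_sub, eval_pow, eval_X, eval_one, eval_C] at h2
    rw [h2, norm_prod] at h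
    by_contra hc
    rw [not_le] at hc
    have h3 : ∀ ξ ∈ nthRootsFinset p (1 : PadicAlgCl p), ‖ζ - 1‖ < ‖x - ξ‖ := by
      intro ξ hξ
      rw [mem_nthRootsFinset hp.out.pos] at hξ
      by_contra hc'
      rw [not_lt] at hc'
      have h4 : x - 1 = (x - ξ) + (ξ - 1) := by ring
      rw [h4] at hc
      exact absurd (norm_add_le_max' (x - ξ) (ξ - 1)) (not_le.2 (lt_of_le_of_lt (max_le hc' (norm_root_sub hζ hξ)) hc))
    have h5 : ∏ _ξ ∈ nthRootsFinset p (1 : PadicAlgCl p), ‖ζ - 1‖ <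
        ∏ ξ ∈ nthRootsFinset p (1 : PadicAlgCl p), ‖x - ξ‖ := by
      refine Finset.prod_lt_prod_of_nonempty (fun _ _ => hlp) h3 ⟨1, ?_⟩
      rw [mem_nthRootsFinset hp.out.pos, one_pow]
    rw [Finset.prod_const, hζ.card_nthRootsFinset] at h5
    exact absurd h (not_le.2 h5)
  have hx1' : ‖x - 1‖ < 1 := lt_of_le_of_lt hx1 hl1
  have hxn : ‖x‖ ≤ 1 := by
    have h2 : x = (x - 1) + 1 := by ring
    rw [h2]
    exact (norm_add_le_max' _ _).trans (max_le hx1'.le (norm_one).le)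
  have hx0 : x ≠ 0 := by
    rintro rfl
    simp at hx1'
  refine mem_of_fixed fun g hg => ?_
  have hgl : g (ζ - 1) = ζ - 1 := by rw [map_sub, map_one, mem_fix.1 hg ζ hζm]
  have h3 : (g x / x) ^ p = 1 := by
    rw [div_pow, ← map_pow, mem_fix.1 hg _ hx, div_self (pow_ne_zero _ hx0)]
  have hy : ‖(x - 1) / (ζ - 1)‖ ≤ 1 := by
    rw [norm_div]
    exact div_le_one_of_le₀ hx1 hlp.le
  have h4 := res_triv (KMu_fix_le hg) hy
  have h5 : g ((x - 1) / (ζ - 1)) - (x - 1) / (ζ - 1) = (g x / x - 1) * x / (ζ - 1) := by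
    rw [map_div₀, hgl, map_sub, map_one, ← sub_div, sub_mul, div_mul_cancel₀ _ hx0]
    congr 1
    ring
  have hxn1 : ‖x‖ = 1 := by
    refine le_antisymm hxn ?_
    by_contra hc
    rw [not_le] at hc
    have h6 : (1 : PadicAlgCl p) = x - (x - 1) := by ring
    have h7 : ‖(1 : PadicAlgCl p)‖ < 1 := by
      rw [h6]
      exact lt_of_le_of_lt (norm_sub_le_max' _ _) (max_lt hc hx1')
    rw [norm_one] at h7
    exact lt_irrefl _ h7
  rw [h5, norm_div, norm_mul, hxn1, mul_one, div_lt_one hlp] at h4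
  by_cases hξ : g x / x = 1
  · rwa [div_eq_one_iff_eq hx0] at hξ
  · exfalso
    have h8 : IsPrimitiveRoot (g x / x) p := by
      rw [IsPrimitiveRoot.iff_orderOf]
      exact orderOf_eq_prime h3 hξ
    exact absurd (norm_root_sub h8 hζ.pow_eq_one) (not_le.2 h4)

end Pool.Agent.H22.KW
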