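import Pool.Agent.H22.KW.FldB
import Pool.Agent.H22.KW.Irr

/-!
# Module Step: the unit filtration, levels `2 ≤ i < p`

`λ = ζ - 1`. Congruence modulo `λ ^ j` means norm of the difference `≤ ‖λ‖ ^ j`. Since `1 ≤ i - 1 ≤ p - 2` there is a natural number `c` prime to `p` with `p ∤ c ^ (i - 1) - 1` (a generator of the cyclic group `(ZMod p)ˣ`, `IsCyclic`, `orderOf_eq_card_of_forall_mem_zpowers`,
`ZMod.card_units`). `ζ ^ c` is a primitive `p`-th root of unity; `exists_gal_zeta 1` gives `g` with `g ζ = ζ ^ c`. Let `g a = a ^ c * b ^ p` with `b ∈ ℚ_[p]⟮ζ⟯` (`ha`). Write `a = 1 + λ ^ i x`: `x ∈ ℚ_[p]⟮ζ⟯`, `‖x‖ ≤ 1`; `‖x - k‖ ≤ ‖λ‖`, `k < p` natural (`F1_int`).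
(1) `g a = 1 + (g λ) ^ i * g x` is congruent to `1 + c ^ i k λ ^ i` modulo `λ ^ (i + 1)`: `g λ = c λ + O(λ²)` (`F1_lam`), `g x = x + O(λ) = k + O(λ)` (`F1_triv`). (2) `a ^ c` is congruent to `1 + c k λ ^ i` modulo `λ ^ (i + 1)` (binomial, `2 i ≥ i + 1`; or induction on `c`).
(3) `‖b ^ p - 1‖ < 1`, as `b ^ p = g a / a ^ c` and both are congruent to one modulo `λ` (norm one); so `‖b ^ p - 1‖ ≤ ‖λ‖ ^ p ≤ ‖λ‖ ^ (i + 1)` (`F1_powp`), and `g a` is congruent to `a ^ c` modulo `λ ^ (i + 1)`. So `‖(c ^ i - c) k λ ^ i‖ ≤ ‖λ‖ ^ (i + 1)`, `‖(c ^ i - c) k‖ ≤ ‖λ‖ < 1`,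
so `p ∣ c (c ^ (i - 1) - 1) k` (`norm_int_iff`), `p ∣ k`, `k = 0`, `‖x‖ ≤ ‖λ‖`.
-/

set_option autoImplicit false

namespace Pool.Agent.H22.KW

open Polynomial Pool.Agent.H55.Tilt Pool.Agent.H22.QA

open scoped IntermediateField

variable {p : ℕ} [hp : Fact p.Prime]

variable {ζ : PadicAlgCl p}

private lemma exists_c {m : ℕ} (h1 : 0 < m) (h2 : m < p - 1) :
    ∃ c : ℕ, c.Coprime p ∧ ¬ (p : ℤ) ∣ (c : ℤ) ^ m - 1 := by
  obtain ⟨g, hg⟩ := IsCyclic.exists_generator (α := (ZMod p)ˣ)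
  have ho : orderOf g = p - 1 := by
    rw [orderOf_eq_card_of_forall_mem_zpowers hg, Nat.card_eq_fintype_card, ZMod.card_units]
  refine ⟨(g : ZMod p).val, ZMod.val_coe_unit_coprime g, fun hd => ?_⟩
  have h3 : g ^ m ≠ 1 := pow_ne_one_of_lt_orderOf h1.ne' (by rw [ho]; exact h2)
  apply h3
  have h4 := (ZMod.intCast_zmod_eq_zero_iff_dvd _ p).2 hd
  push_cast at h4
  rw [ZMod.natCast_zmod_val] at h4
  ext
  push_cast
  exact sub_eq_zero.1 h4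

private lemma norm_nat_le (m : ℕ) : ‖(m : PadicAlgCl p)‖ ≤ 1 :=
  IsUltrametricDist.norm_natCast_le_one _ _

private lemma pow_lin {E : PadicAlgCl p} {e : ℝ} (he : ‖E‖ ≤ e) (he1 : e ≤ 1) (m : ℕ) :
    ‖(1 + E) ^ m - 1 - m * E‖ ≤ e ^ 2 := by
  have he0 : 0 ≤ e := (norm_nonneg _).trans he
  induction m with
  | zero => simp; positivity
  | succ m ih =>
    have h1 : (1 + E) ^ (m + 1) - 1 - ((m + 1 : ℕ) : PadicAlgCl p) * E =
        ((1 + E) ^ m - 1 - m * E) * (1 + E) + m * E ^ 2 := by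
      push_cast
      ring
    rw [h1]
    refine (norm_add_le_max' _ _).trans (max_le ?_ ?_)
    · rw [norm_mul]
      have h2 : ‖1 + E‖ ≤ 1 := by
        refine (norm_add_le_max' _ _).trans (max_le ?_ (he.trans he1))
        rw [norm_one]
      calc _ ≤ e ^ 2 * 1 := mul_le_mul ih h2 (norm_nonneg _) (by positivity)
        _ = e ^ 2 := mul_one _
    · rw [norm_mul, norm_pow]
      calc _ ≤ 1 * e ^ 2 := mul_le_mul (norm_nat_le m) (pow_le_pow_left₀ (norm_nonneg _) he 2)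
            (by positivity) zero_le_one
        _ = e ^ 2 := one_mul _

private lemma pow_diff {u v : PadicAlgCl p} {e f : ℝ} (hu : ‖u‖ ≤ e) (hv : ‖v‖ ≤ e) (hd : ‖u - v‖ ≤ f)
    (n : ℕ) : ‖u ^ (n + 1) - v ^ (n + 1)‖ ≤ f * e ^ n := by
  have he0 : 0 ≤ e := (norm_nonneg _).trans hu
  have hf0 : 0 ≤ f := (norm_nonneg _).trans hd
  rw [← (Commute.all u v).mul_geom_sum₂ (n + 1), norm_mul]
  apply mul_le_mul hd _ (norm_nonneg _) hf0
  apply IsUltrametricDist.norm_sum_le_of_forall_le_of_nonneg (by positivity)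
  intro j hj
  rw [Finset.mem_range] at hj
  have h1 : n = j + (n + 1 - 1 - j) := by omega
  rw [norm_mul, norm_pow, norm_pow]
  calc ‖u‖ ^ j * ‖v‖ ^ (n + 1 - 1 - j) ≤ e ^ j * e ^ (n + 1 - 1 - j) :=
        mul_le_mul (pow_le_pow_left₀ (norm_nonneg _) hu _) (pow_le_pow_left₀ (norm_nonneg _) hv _)
          (by positivity) (by positivity)
    _ = e ^ n := by rw [← pow_add, ← h1]

theorem step (hp2 : p ≠ 2) (hζ : IsPrimitiveRoot ζ p) {a : PadicAlgCl p} (ha : PP ζ a) {i : ℕ}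
    (h2 : 2 ≤ i) (hi : i < p) (h : ‖a - 1‖ ≤ ‖ζ - 1‖ ^ i) : ‖a - 1‖ ≤ ‖ζ - 1‖ ^ (i + 1) := by
  obtain ⟨haF, ha0, hPP⟩ := ha
  have hl0 := lam_pos hζ
  have hl1 := lam_lt hζ
  set l : ℝ := ‖ζ - 1‖ with hl
  obtain ⟨m, rfl⟩ : ∃ m, i = m + 1 := ⟨i - 1, by omega⟩
  obtain ⟨c, hc, hcd⟩ := exists_c (p := p) (m := m) (by omega) (by omega)
  have hζ1 : IsPrimitiveRoot ζ (p ^ 1) := by rw [pow_one]; exact hζ
  have hζc : IsPrimitiveRoot (ζ ^ c) (p ^ 1) := by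
    rw [pow_one]
    exact hζ.pow_of_coprime c hc
  obtain ⟨g, -, hg⟩ := exists_gal_zeta 1 hζ1 hζc
  obtain ⟨b, hbF, hb0, hb⟩ := hPP g c hg
  have hpi : (ζ - 1) ≠ 0 := norm_pos_iff.1 hl0
  have hpn : (ζ - 1) ^ (m + 1) ≠ 0 := pow_ne_zero _ hpi
  have hzF : ζ - 1 ∈ ℚ_[p]⟮ζ⟯ := sub_mem (IntermediateField.mem_adjoin_simple_self ℚ_[p] ζ) (one_mem _)
  obtain ⟨x, hx⟩ : ∃ x, x = (a - 1) / (ζ - 1) ^ (m + 1) := ⟨_, rfl⟩
  have hxF : x ∈ ℚ_[p]⟮ζ⟯ := by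
    rw [hx]
    exact div_mem (sub_mem haF (one_mem _)) (pow_mem hzF _)
  have hax : a - 1 = (ζ - 1) ^ (m + 1) * x := by
    rw [hx]
    field_simp
  have hx1 : ‖x‖ ≤ 1 := by
    rw [hax, norm_mul, norm_pow, ← hl] at h
    exact le_of_mul_le_mul_left (by rw [mul_one]; exact h) (by positivity)
  obtain ⟨k, hkp, hk⟩ := F1_int hζ hxF hx1
  rw [← hl] at hk
  have hgl : ‖g (ζ - 1) - c * (ζ - 1)‖ ≤ l ^ 2 := F1_lam hζ hg
  have hgx : ‖g x - x‖ ≤ l := F1_triv hζ g hxF hx1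
  have hgxk : ‖g x - k‖ ≤ l := by
    have h3 : g x - k = (g x - x) + (x - k) := by ring
    rw [h3]
    exact (norm_add_le_max' _ _).trans (max_le hgx hk)
  have hgx1 : ‖g x‖ ≤ 1 := by rw [norm_gal]; exact hx1
  have hgz : ‖g (ζ - 1)‖ ≤ l := by rw [norm_gal]
  have hcz : ‖(c : PadicAlgCl p) * (ζ - 1)‖ ≤ l := by
    rw [norm_mul]
    calc _ ≤ 1 * l := mul_le_mul (norm_nat_le c) le_rfl (norm_nonneg _) zero_le_one
      _ = l := one_mul _
  have e1 : ‖g a - 1 - (c : PadicAlgCl p) ^ (m + 1) * k * (ζ - 1) ^ (m + 1)‖ ≤ l ^ (m + 1 + 1) := by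
    have h3 : g a - 1 - (c : PadicAlgCl p) ^ (m + 1) * k * (ζ - 1) ^ (m + 1) =
        (g (ζ - 1) ^ (m + 1) - (c * (ζ - 1)) ^ (m + 1)) * g x +
          (c * (ζ - 1)) ^ (m + 1) * (g x - k) := by
      have h4 : g a - 1 = g (ζ - 1) ^ (m + 1) * g x := by
        rw [← map_pow, ← map_mul, ← hax, map_sub, map_one]
      rw [h4, mul_pow]
      ring
    rw [h3]
    refine (norm_add_le_max' _ _).trans (max_le ?_ ?_)
    · rw [norm_mul]
      have h4 := pow_diff hgz hcz hgl m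
      calc _ ≤ l ^ 2 * l ^ m * 1 := mul_le_mul h4 hgx1 (norm_nonneg _) (by positivity)
        _ = l ^ (m + 1 + 1) := by ring
    · rw [norm_mul, norm_pow]
      calc _ ≤ l ^ (m + 1) * l := mul_le_mul (pow_le_pow_left₀ (norm_nonneg _) hcz _) hgxk
            (norm_nonneg _) (by positivity)
        _ = l ^ (m + 1 + 1) := by ring
  have e2 : ‖a ^ c - 1 - (c : PadicAlgCl p) * k * (ζ - 1) ^ (m + 1)‖ ≤ l ^ (m + 1 + 1) := by
    have h3 : a ^ c - 1 - (c : PadicAlgCl p) * k * (ζ - 1) ^ (m + 1) =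
        ((1 + (a - 1)) ^ c - 1 - c * (a - 1)) + c * ((ζ - 1) ^ (m + 1) * (x - k)) := by
      have h4 : (c : PadicAlgCl p) * ((ζ - 1) ^ (m + 1) * (x - k)) =
          c * (a - 1) - c * k * (ζ - 1) ^ (m + 1) := by rw [hax]; ring
      rw [h4, add_sub_cancel]
      ring
    rw [h3]
    refine (norm_add_le_max' _ _).trans (max_le ?_ ?_)
    · refine (pow_lin h (pow_le_one₀ hl0.le hl1.le) c).trans ?_
      rw [← pow_mul]
      exact pow_le_pow_of_le_one hl0.le hl1.le (by omega)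
    · rw [norm_mul, norm_mul, norm_pow, ← hl]
      calc _ ≤ 1 * (l ^ (m + 1) * l) := mul_le_mul (norm_nat_le c)
            (mul_le_mul_of_nonneg_left hk (by positivity)) (by positivity) zero_le_one
        _ = l ^ (m + 1 + 1) := by ring
  have ha1 : ‖a - 1‖ < 1 := lt_of_le_of_lt h (pow_lt_one₀ hl0.le hl1 (by omega))
  have hna : ‖a‖ = 1 := by
    have h3 : ‖a‖ ≤ 1 := by
      have h4 : a = (a - 1) + 1 := by ring
      rw [h4]
      refine (norm_add_le_max' _ _).trans (max_le ha1.le ?_)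
      rw [norm_one]
    refine le_antisymm h3 ?_
    by_contra hlt
    rw [not_le] at hlt
    have h5 : ‖(1 : PadicAlgCl p)‖ < 1 := by
      have h4 : (1 : PadicAlgCl p) = a - (a - 1) := by ring
      calc ‖(1 : PadicAlgCl p)‖ = ‖a - (a - 1)‖ := by rw [← h4]
        _ ≤ max ‖a‖ ‖a - 1‖ := norm_sub_le_max' _ _
        _ < 1 := max_lt hlt ha1
    rw [norm_one] at h5
    exact lt_irrefl _ h5
  have hlm : l ^ (m + 1 + 1) < 1 := pow_lt_one₀ hl0.le hl1 (by omega)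
  have key : ∀ (r : PadicAlgCl p) (q : ℕ), ‖r - 1 - (q : PadicAlgCl p) * (ζ - 1) ^ (m + 1)‖ ≤ l ^ (m + 1 + 1) →
      ‖r - 1‖ < 1 := by
    intro r q hr
    have h3 : r - 1 = (r - 1 - (q : PadicAlgCl p) * (ζ - 1) ^ (m + 1)) + (q : PadicAlgCl p) * (ζ - 1) ^ (m + 1) := by
      ring
    rw [h3]
    refine lt_of_le_of_lt (norm_add_le_max' _ _) (max_lt (lt_of_le_of_lt hr hlm) ?_)
    rw [norm_mul, norm_pow, ← hl]
    calc _ ≤ 1 * l ^ (m + 1) := mul_le_mul (norm_nat_le q) le_rfl (by positivity) zero_le_one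
      _ < 1 := by rw [one_mul]; exact pow_lt_one₀ hl0.le hl1 (by omega)
  have hga1 : ‖g a - 1‖ < 1 := key _ (c ^ (m + 1) * k) (by push_cast; exact e1)
  have hac1 : ‖a ^ c - 1‖ < 1 := key _ (c * k) (by push_cast; exact e2)
  have hbp : ‖b ^ p - 1‖ < 1 := by
    have h3 : ‖b ^ p - 1‖ = ‖g a - a ^ c‖ := by
      have h4 : g a - a ^ c = a ^ c * (b ^ p - 1) := by rw [hb]; ring
      rw [h4, norm_mul, norm_pow, hna, one_pow, one_mul]
    rw [h3]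
    have h4 : g a - a ^ c = (g a - 1) - (a ^ c - 1) := by ring
    rw [h4]
    exact lt_of_le_of_lt (norm_sub_le_max' _ _) (max_lt hga1 hac1)
  have hbp2 : ‖b ^ p - 1‖ ≤ l ^ (m + 1 + 1) :=
    (F1_powp hζ hbF hbp).trans (pow_le_pow_of_le_one hl0.le hl1.le (by omega))
  have e3 : ‖g a - a ^ c‖ ≤ l ^ (m + 1 + 1) := by
    have h4 : g a - a ^ c = a ^ c * (b ^ p - 1) := by rw [hb]; ring
    rw [h4, norm_mul, norm_pow, hna, one_pow, one_mul]
    exact hbp2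
  have e4 : ‖(((c : ℤ) * ((c : ℤ) ^ m - 1) * (k : ℤ) : ℤ) : PadicAlgCl p) * (ζ - 1) ^ (m + 1)‖ ≤
      l ^ (m + 1 + 1) := by
    have h4 : (((c : ℤ) * ((c : ℤ) ^ m - 1) * (k : ℤ) : ℤ) : PadicAlgCl p) * (ζ - 1) ^ (m + 1) =
        ((g a - a ^ c) - (g a - 1 - (c : PadicAlgCl p) ^ (m + 1) * k * (ζ - 1) ^ (m + 1))) +
          (a ^ c - 1 - (c : PadicAlgCl p) * k * (ζ - 1) ^ (m + 1)) := by
      push_cast
      ring
    rw [h4]
    exact (norm_add_le_max' _ _).trans (max_le ((norm_sub_le_max' _ _).trans (max_le e3 e1)) e2)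
  have e5 : ‖(((c : ℤ) * ((c : ℤ) ^ m - 1) * (k : ℤ) : ℤ) : PadicAlgCl p)‖ < 1 := by
    rw [norm_mul, norm_pow, ← hl] at e4
    refine lt_of_le_of_lt ?_ hl1
    apply le_of_mul_le_mul_right _ (show 0 < l ^ (m + 1) by positivity)
    calc _ ≤ l ^ (m + 1 + 1) := e4
      _ = l * l ^ (m + 1) := by ring
  rw [norm_int_iff] at e5
  have hpp : Prime (p : ℤ) := Nat.prime_iff_prime_int.1 hp.out
  have hk0 : k = 0 := by
    rcases hpp.dvd_or_dvd e5 with h3 | h3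
    · rcases hpp.dvd_or_dvd h3 with h4 | h4
      · exfalso
        have h5 : p ∣ c := by exact_mod_cast h4
        have h6 := Nat.eq_one_of_dvd_coprimes hc h5 (dvd_refl p)
        exact hp.out.one_lt.ne' h6
      · exact absurd h4 hcd
    · have h5 : p ∣ k := by exact_mod_cast h3
      exact Nat.eq_zero_of_dvd_of_lt h5 hkp
  have hxl : ‖x‖ ≤ l := by
    rw [hk0, Nat.cast_zero, sub_zero] at hk
    exact hk
  rw [hax, norm_mul, norm_pow, ← hl]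
  calc _ ≤ l ^ (m + 1) * l := mul_le_mul_of_nonneg_left hxl (by positivity)
    _ = l ^ (m + 1 + 1) := by ring

end Pool.Agent.H22.KW
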