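import Pool.Agent.H22.KW.Kum
import Pool.Agent.H22.KW.Frb
import Pool.Agent.H22.KW.Root

/-!
# Module Tame: characters of order prime to `p`

`n ≠ 0` as `p ∤ n`. For all `g`, `(χ g : PadicAlgCl p) ^ n = 1`, so `χ g ∈ Mu p ⊆ UU p`; `kummer (UU p) hχ`: `α ≠ 0` with `g α = χ g * α` for `g` fixing `UU p`. Let `φ` be the automorphism of `exists_gal_frob` for `m = n`. For `g ∈ (UU p).fixingSubgroup`, `g' = φ⁻¹ * g * φ` is in `(UU p).fixingSubgroup` too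
(`mem_fix_UU`; `φ` maps `Mu p` to itself), `χ g' = χ g` (the target is commutative), so `g (φ α) = φ (g' α) = φ (χ g * α) = (χ g) ^ p * φ α`, and `g (α ^ p) = (χ g) ^ p * α ^ p`. So `γ = φ α / α ^ p` is fixed: `γ ∈ UU p` (`mem_of_fixed`). `‖γ‖ = ‖α‖ / ‖α‖ ^ p` (`norm_gal`), and
`‖γ‖ = p ^ k`, `k : ℤ` (`UU_norm`). So `‖α‖ ^ (p - 1) = p ^ (-k)`. Let `ϖ ^ (p - 1) = p` (`IsAlgClosed.exists_pow_nat_eq`, `p - 1 ≥ 1`), so `‖ϖ‖ ^ (p - 1) = p⁻¹`, `‖α‖ = ‖ϖ‖ ^ k` (`(p - 1)`-th powers of nonnegative numbers); `δ = α * ϖ ^ (-k)` has norm one and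
`δ ^ (n * (p - 1)) = (α ^ n) ^ (p - 1) * p ^ (-k * n) ∈ UU p`, since `α ^ n` is fixed by `(UU p).fixingSubgroup` (`(χ g) ^ n = 1`). `p ∤ n * (p - 1)`; `root_unit_UU`: `δ ∈ UU p ≤ KMu p`, `ϖ ∈ KMu p` (`root_p`), so `α ∈ KMu p`. For `g` fixing `KMu p`: `g` fixes `UU p`, `α = g α = χ g * α`, `χ g = 1`.
-/

set_option autoImplicit false

namespace Pool.Agent.H22.KW

open Polynomial Pool.Agent.H55.Tilt Pool.Agent.H22.QA

open scoped IntermediateField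

variable {p : ℕ} [hp : Fact p.Prime]

theorem tame {χ : Chr p} (hχ : Sm χ) {n : ℕ} (hn : ¬ p ∣ n) (h : χ ^ n = 1) : X2 χ := by
  have hp1 : p - 1 ≠ 0 := by have := hp.out.one_lt; omega
  have hpow : ∀ g : GG p, (χ g : PadicAlgCl p) ^ n = 1 := by
    intro g
    have := (chr_pow_one_iff χ n).1 h g
    rw [← Units.val_pow_eq_pow_val, this, Units.val_one]
  have hmu : ∀ g : GG p, (χ g : PadicAlgCl p) ∈ Mu p := fun g => ⟨n, hn, hpow g⟩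
  obtain ⟨α, hα0, hα⟩ := kummer (UU p) hχ fun g _ => Mu_mem_UU (hmu g)
  obtain ⟨φ, hφ⟩ := exists_gal_frob (p := p) hn
  have hφmu : ∀ z ∈ Mu p, φ z ∈ Mu p := by
    rintro z ⟨m, hm, hz⟩
    exact ⟨m, hm, by rw [← map_pow, hz, map_one]⟩
  have hγ : φ α / α ^ p ∈ UU p := by
    apply mem_of_fixed
    intro g hg
    have hg' : φ⁻¹ * g * φ ∈ (UU p).fixingSubgroup := by
      rw [mem_fix_UU]
      intro z hz
      have h1 : g (φ z) = φ z := mem_fix_UU.1 hg _ (hφmu z hz)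
      show φ⁻¹ (g (φ z)) = z
      rw [h1]
      show (φ⁻¹ * φ) z = z
      rw [inv_mul_cancel]
      rfl
    have h1 := hα _ hg'
    have h2 : χ (φ⁻¹ * g * φ) = χ g := by
      rw [map_mul, map_mul, map_inv, mul_right_comm, inv_mul_cancel, one_mul]
    rw [h2] at h1
    have h3 : g (φ α) = (χ g : PadicAlgCl p) ^ p * φ α := by
      have h4 : φ ((φ⁻¹ * g * φ) α) = g (φ α) := by
        show (φ * (φ⁻¹ * g * φ)) α = g (φ α)
        rw [← mul_assoc, ← mul_assoc, mul_inv_cancel, one_mul]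
        rfl
      rw [← h4, h1, map_mul, hφ _ (hpow g)]
    have h5 : g (α ^ p) = (χ g : PadicAlgCl p) ^ p * α ^ p := by
      rw [map_pow, hα g hg, mul_pow]
    rw [map_div₀, h3, h5]
    have hne : (χ g : PadicAlgCl p) ^ p ≠ 0 := pow_ne_zero _ (Units.ne_zero _)
    rw [mul_div_mul_left _ _ hne]
  have hγ0 : φ α / α ^ p ≠ 0 := div_ne_zero ((map_ne_zero φ).2 hα0) (pow_ne_zero _ hα0)
  obtain ⟨k, hk⟩ := UU_norm hγ hγ0
  rw [norm_div, norm_gal, norm_pow] at hk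
  have hαn : 0 < ‖α‖ := norm_pos_iff.2 hα0
  have hk' : ‖α‖ ^ (p - 1) = (p : ℝ) ^ (-k) := by
    have h1 : ‖α‖ ^ p = ‖α‖ ^ (p - 1) * ‖α‖ := by
      rw [← pow_succ, Nat.sub_add_cancel hp.out.one_lt.le]
    rw [zpow_neg, ← hk, h1]
    field_simp
  obtain ⟨ϖ, hϖ⟩ := IsAlgClosed.exists_pow_nat_eq (p : PadicAlgCl p) (n := p - 1)
    (Nat.pos_of_ne_zero hp1)
  have hϖ0 : ϖ ≠ 0 := by
    rintro rfl
    rw [zero_pow hp1] at hϖ
    exact p_ne hϖ.symm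
  have hϖn : ‖ϖ‖ ^ (p - 1) = (p : ℝ)⁻¹ := by rw [← norm_pow, hϖ, norm_p_cl]
  have hϖp : 0 < ‖ϖ‖ := norm_pos_iff.2 hϖ0
  have hnorm : ‖α‖ = ‖ϖ‖ ^ k := by
    refine (pow_left_inj₀ hαn.le (zpow_nonneg hϖp.le k) hp1).1 ?_
    rw [hk', ← zpow_natCast (‖ϖ‖ ^ k), ← zpow_mul, mul_comm k, zpow_mul, zpow_natCast, hϖn,
      inv_zpow, zpow_neg]
  have hδ1 : ‖α * ϖ ^ (-k)‖ = 1 := by
    rw [norm_mul, norm_zpow, hnorm, ← zpow_add₀ hϖp.ne', add_neg_cancel, zpow_zero]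
  have hαU : α ^ n ∈ UU p := mem_of_fixed fun g hg => by
    rw [map_pow, hα g hg, mul_pow, hpow, one_mul]
  have hδm : (α * ϖ ^ (-k)) ^ (n * (p - 1)) ∈ UU p := by
    have h1 : (α * ϖ ^ (-k)) ^ (n * (p - 1)) =
        (α ^ n) ^ (p - 1) * ((p : PadicAlgCl p) ^ (-k)) ^ n := by
      have h2 : (ϖ ^ (-k)) ^ (n * (p - 1)) = ((p : PadicAlgCl p) ^ (-k)) ^ n := by
        rw [mul_comm n, pow_mul]
        congr 1
        rw [← zpow_natCast, ← zpow_mul, mul_comm, zpow_mul, zpow_natCast, hϖ]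
      rw [mul_pow, h2, pow_mul]
    rw [h1]
    refine mul_mem (pow_mem hαU _) (pow_mem (zpow_mem ?_ _) _)
    exact natCast_mem (UU p) p
  have hnp : ¬ p ∣ n * (p - 1) := not_dvd_mul hn fun hd => by
    have h1 := Nat.le_of_dvd (Nat.pos_of_ne_zero hp1) hd
    omega
  have hδU := root_unit_UU hnp hδm hδ1
  have hαK : α ∈ KMu p := by
    have h1 : α = (α * ϖ ^ (-k)) * ϖ ^ k := by
      rw [mul_assoc, ← zpow_add₀ hϖ0, neg_add_cancel, zpow_zero, mul_one]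
    rw [h1]
    exact mul_mem (UU_le_KMu hδU) (zpow_mem (root_p hϖ) k)
  intro g hg
  have h1 := hα g (mem_fix_UU.2 (KMu_fix_le hg))
  rw [mem_fix.1 hg α hαK] at h1
  have h2 : (χ g : PadicAlgCl p) * α = 1 * α := by rw [← h1, one_mul]
  exact Units.ext (mul_right_cancel₀ hα0 h2)

end Pool.Agent.H22.KW
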