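import Pool.Agent.H22.KW.Cyc
import Pool.Agent.H22.KW.Chars
import Pool.Agent.H22.KW.NTa

/-!
# Module The: explicit characters with given values at `g₁`, `g₂`

`θ = θ₁ * θ₂`. `θ₁ = Θ₁ ∘ κ₁`, `κ₁` the character of `exists_cyc` for `M = p ^ (m + 2)`, `Θ₁` from `exists_char` for `B = (ZMod M)ˣ`, `u = κ₁ g₁`, `ω = a`. With `z` a primitive `M`-th root of unity: `g₁ z = z ^ cc p = z ^ (u : ZMod M).val`, so `(u : ZMod M) = cc p`, and
`u ^ k = 1` implies `cc p ^ k ≡ 1` modulo `M`, so `p ^ m ∣ orderOf u` (`order_cc`) and `a ^ orderOf u = 1`. `κ₁ g₂ = 1` as `g₂ z = z`. So `θ₁ g₁ = a`, `θ₁ g₂ = 1`.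
`θ₂ = Θ₂ ∘ κ₂`, `M = p ^ n - 1` with `n = p ^ m` (`M > 0`, `p ∤ M`), `u = κ₂ g₂`, `(u : ZMod M) = p` (if `M = 1`, then `p = 2`, `m = 0`, everything is trivial), `n ∣ orderOf u` by `order_p`, `ω = b`; `κ₂ g₁ = 1` as `g₁` fixes the `M`-th roots of unity.
`Sm`: `L = ℚ_[p]⟮z⟯`, `z` a primitive `M`-th root of unity: if `g z = z` then `κ g = 1`. `X2`: `g` fixing `KMu p` fixes `z`. (`Sm.mul`, `X2.mul`.) The order of `θ₁ θ₂` is a power of `p`: `θ ^ p ^ (r₁ + r₂) = 1`.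
-/

set_option autoImplicit false

namespace Pool.Agent.H22.KW

open Polynomial Pool.Agent.H55.Tilt Pool.Agent.H22.QA

open scoped IntermediateField

variable {p : ℕ} [hp : Fact p.Prime]

/-- The value of the cyclotomic character at an automorphism which acts as an exponent. -/
private theorem the_val {M : ℕ} (hM : 0 < M) {κ : GG p →* (ZMod M)ˣ}
    (hκ : ∀ (g : GG p) (z : PadicAlgCl p), z ^ M = 1 → g z = z ^ ((κ g : (ZMod M)ˣ) : ZMod M).val)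
    {g : GG p} {c : ℕ} (h : ∀ z : PadicAlgCl p, z ^ M = 1 → g z = z ^ c) :
    ((κ g : (ZMod M)ˣ) : ZMod M) = (c : ZMod M) := by
  have hM0 : NeZero M := ⟨hM.ne'⟩
  obtain ⟨z, hz⟩ := exists_prim_root (p := p) M hM.ne'
  have h1 : z ^ ((κ g : (ZMod M)ˣ) : ZMod M).val = z ^ c := by
    rw [← hκ g z hz.pow_eq_one, h z hz.pow_eq_one]
  have hu : IsUnit z := hz.isUnit hM.ne'
  obtain ⟨w, rfl⟩ := hu
  have hw : orderOf w = M := by
    rw [← orderOf_units]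
    exact hz.eq_orderOf.symm
  have h2 : w ^ ((κ g : (ZMod M)ˣ) : ZMod M).val = w ^ c := by
    apply Units.ext
    rw [Units.val_pow_eq_pow_val, Units.val_pow_eq_pow_val]
    exact h1
  have h3 := pow_eq_pow_iff_modEq.1 h2
  rw [hw] at h3
  have h4 := (ZMod.natCast_eq_natCast_iff _ _ _).2 h3
  rw [ZMod.natCast_zmod_val] at h4
  exact h4

private theorem the_one {M : ℕ} (hM : 0 < M) {κ : GG p →* (ZMod M)ˣ}
    (hκ : ∀ (g : GG p) (z : PadicAlgCl p), z ^ M = 1 → g z = z ^ ((κ g : (ZMod M)ˣ) : ZMod M).val)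
    {g : GG p} (h : ∀ z : PadicAlgCl p, z ^ M = 1 → g z = z) : κ g = 1 := by
  have h1 := the_val hM hκ (g := g) (c := 1) (fun z hz => by rw [pow_one]; exact h z hz)
  apply Units.ext
  rw [h1]
  simp

/-- Characters factoring through the action on the `M`-th roots of unity. -/
private theorem the_main {M : ℕ} (hM : 0 < M) {g₁ : GG p} {c : ℕ}
    (hc : ∀ z : PadicAlgCl p, z ^ M = 1 → g₁ z = z ^ c) {m : ℕ} {ω : (PadicAlgCl p)ˣ}
    (h : ω ^ p ^ m = 1) (hd : ∀ k : ℕ, c ^ k ≡ 1 [MOD M] → p ^ m ∣ k) :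
    ∃ θ : Chr p, Sm θ ∧ X2 θ ∧ (∃ r : ℕ, θ ^ p ^ r = 1) ∧ θ g₁ = ω ∧
      ∀ g : GG p, (∀ z : PadicAlgCl p, z ^ M = 1 → g z = z) → θ g = 1 := by
  have hM0 : NeZero M := ⟨hM.ne'⟩
  obtain ⟨κ, hκ⟩ := exists_cyc p M hM
  have hv := the_val hM hκ hc
  have hord : p ^ m ∣ orderOf (κ g₁) := by
    apply hd
    have h1 : (κ g₁) ^ orderOf (κ g₁) = 1 := pow_orderOf_eq_one _
    have h2 := congrArg (fun u : (ZMod M)ˣ => (u : ZMod M)) h1
    simp only [Units.val_pow_eq_pow_val, Units.val_one] at h2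
    rw [hv] at h2
    rw [← ZMod.natCast_eq_natCast_iff]
    push_cast
    exact h2
  have hω : ω ^ orderOf (κ g₁) = 1 := by
    obtain ⟨e, he⟩ := hord
    rw [he, pow_mul, h, one_pow]
  obtain ⟨Θ, hΘ, r, hr⟩ := exists_char (p := p) (κ g₁) ω h hω
  have hone : ∀ g : GG p, (∀ z : PadicAlgCl p, z ^ M = 1 → g z = z) → (Θ.comp κ) g = 1 := by
    intro g hg
    rw [MonoidHom.comp_apply, the_one hM hκ hg, map_one]
  refine ⟨Θ.comp κ, ?_, ?_, ⟨r, ?_⟩, ?_, hone⟩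
  · obtain ⟨z, hz⟩ := exists_prim_root (p := p) M hM.ne'
    refine ⟨ℚ_[p]⟮z⟯, IntermediateField.adjoin.finiteDimensional (Algebra.IsIntegral.isIntegral z), ?_⟩
    intro g hg
    apply hone
    intro w hw
    exact mem_fix.1 hg w (mem_adj_of_pow hM.ne' hz hw)
  · intro g hg
    apply hone
    intro w hw
    exact mem_fix_KMu.1 hg M w hM hw
  · rw [chr_pow_one_iff]
    intro g
    rw [MonoidHom.comp_apply, ← MonoidHom.pow_apply, hr]
    rfl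
  · rw [MonoidHom.comp_apply]
    exact hΘ

theorem exists_theta {g₁ g₂ : GG p} (h1 : IsG1 g₁) (h2 : IsG2 g₂) (m : ℕ) (a b : (PadicAlgCl p)ˣ)
    (ha : a ^ p ^ m = 1) (hb : b ^ p ^ m = 1) :
    ∃ θ : Chr p, Sm θ ∧ X2 θ ∧ (∃ r : ℕ, θ ^ p ^ r = 1) ∧ θ g₁ = a ∧ θ g₂ = b := by
  have hpr : p.Prime := hp.out
  have hM1 : 0 < p ^ (m + 2) := pow_pos hpr.pos _
  have hpm : 0 < p ^ m := pow_pos hpr.pos _
  have hpn : 2 ≤ p ^ p ^ m := hpr.two_le.trans (Nat.le_self_pow hpm.ne' p)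
  have hM2 : 0 < p ^ p ^ m - 1 := by omega
  have hnd : ¬ p ∣ p ^ p ^ m - 1 := by
    intro hdv
    have h3 : p ∣ p ^ p ^ m := dvd_pow_self p hpm.ne'
    have h4 : p ∣ 1 := by
      have h5 := Nat.dvd_sub h3 hdv
      have h6 : p ^ p ^ m - (p ^ p ^ m - 1) = 1 := by omega
      rwa [h6] at h5
    exact hpr.one_lt.ne' (Nat.dvd_one.1 h4)
  obtain ⟨θ₁, hs1, hx1, ⟨r₁, hr1⟩, hv1, ho1⟩ := the_main hM1 (g₁ := g₁) (c := cc p)
    (fun z hz => h1.2 (m + 2) z hz) ha (fun k hk => order_cc p m hk)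
  obtain ⟨θ₂, hs2, hx2, ⟨r₂, hr2⟩, hv2, ho2⟩ := the_main hM2 (g₁ := g₂) (c := p)
    (fun z hz => h2.1 z ⟨_, hnd, hz⟩) hb (fun k hk => order_p p hpm hk)
  refine ⟨θ₁ * θ₂, hs1.mul hs2, hx1.mul hx2, ⟨r₁ + r₂, ?_⟩, ?_, ?_⟩
  · rw [chr_pow_one_iff]
    intro g
    rw [MonoidHom.mul_apply, mul_pow]
    have e1 := (chr_pow_one_iff _ _).1 hr1 g
    have e2 := (chr_pow_one_iff _ _).1 hr2 g
    rw [pow_add, pow_mul, e1, one_pow, one_mul, mul_comm (p ^ r₁), pow_mul, e2, one_pow]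
  · rw [MonoidHom.mul_apply, hv1, ho2 g₁ (fun z hz => h1.1 z ⟨_, hnd, hz⟩), mul_one]
  · rw [MonoidHom.mul_apply, hv2, ho1 g₂ (fun z hz => h2.2 (m + 2) z hz), one_mul]

end Pool.Agent.H22.KW
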