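import Pool.Agent.H22.KW.Bas

/-!
# Module Tors: a smooth character has finite order

`χ.ker` contains `L.fixingSubgroup` with `L` finite over `ℚ_p`, which has finite index: it is the stabiliser of a primitive element `x` of `L` (`Field.exists_primitive_element`), and `g x` is one of the finitely many roots of the minimal polynomial of `x`
(or: the map `g ↦ g.comp L.val` into the finite type `L →ₐ[ℚ_[p]] PadicAlgCl p` separates the cosets; or open subgroups of a compact group). So `χ.ker` has finite index `n ≠ 0` (`Subgroup.finiteIndex_of_le`), it is normal, and `g ^ n ∈ χ.ker` (`Subgroup.pow_index_mem`).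
-/

set_option autoImplicit false

namespace Pool.Agent.H22.KW

open Polynomial Pool.Agent.H55.Tilt Pool.Agent.H22.QA

open scoped IntermediateField

variable {p : ℕ} [hp : Fact p.Prime]

private theorem tors_fin (L : IntermediateField ℚ_[p] (PadicAlgCl p)) (hL : FiniteDimensional ℚ_[p] L) :
    L.fixingSubgroup.FiniteIndex := by
  have hop : IsOpen (L.fixingSubgroup : Set (GG p)) := IntermediateField.fixingSubgroup_isOpen L
  have hfin : Finite (GG p ⧸ L.fixingSubgroup) := Subgroup.quotient_finite_of_isOpen _ hop
  exact Subgroup.finiteIndex_of_finite_quotient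

theorem Sm.torsion {χ : Chr p} (hχ : Sm χ) : ∃ n : ℕ, 0 < n ∧ χ ^ n = 1 := by
  obtain ⟨L, hL, h1⟩ := hχ
  have hfi := tors_fin L hL
  have hle : L.fixingSubgroup ≤ χ.ker := fun g hg => h1 g hg
  have hk : χ.ker.FiniteIndex := Subgroup.finiteIndex_of_le hle
  refine ⟨χ.ker.index, Nat.pos_of_ne_zero hk.index_ne_zero, ?_⟩
  rw [chr_pow_one_iff]
  intro g
  have h2 : g ^ χ.ker.index ∈ χ.ker := Subgroup.pow_index_mem χ.ker g
  rw [MonoidHom.mem_ker, map_pow] at h2
  exact h2

end Pool.Agent.H22.KW
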