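import Pool.Agent.H22.KW.Step
import Pool.Agent.H22.KW.Root

/-!
# Module UF: the `p`-th roots of the elements of the eigenspace

`λ = ζ - 1`, `F = ℚ_[p]⟮ζ⟯`. `PP ζ` is closed under products and inverses (`PP.mul`, `PP.inv`), contains `x ^ p` for `0 ≠ x ∈ F` (`PP.powp`: `g (x ^ p) = (x ^ p) ^ c * (g x / x ^ c) ^ p`, `F1_mem`) and `ζ` (`PP.zeta`, `b = 1`).
Call `QQ a`: every `α` with `α ^ p = a` is in `KMu p`. If `β ∈ KMu p`, `β ≠ 0` and `QQ (a * β ^ p)` then `QQ a`. In particular for `β = x ∈ F`, `x ≠ 0` (`F ≤ KMu p`), and for a `p`-th root `β` of a power of `ζ` (a root of unity of order `p ^ 2`).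
1. `‖a‖ = ‖λ‖ ^ n`, `n : ℤ` (`F1_norm`). Choose `g` with `g ζ = ζ ^ 2` (`p` odd, `exists_gal_zeta 1`): `g a = a ^ 2 * b ^ p`, `‖b‖ = ‖λ‖ ^ k`, so `n = 2 n + p k`, `n = - p k`; `‖a * (λ ^ k) ^ p‖ = 1`. So we may assume `‖a‖ = 1`.
2. `‖a - k‖ ≤ ‖λ‖`, `k < p` natural, `k ≠ 0` (`‖a‖ = 1`), `‖k‖ = 1`, `p ∣ k ^ p - k` so `‖a - k ^ p‖ ≤ ‖λ‖`, `‖a * (k⁻¹) ^ p - 1‖ ≤ ‖λ‖`. So we may assume `‖a - 1‖ ≤ ‖λ‖`.
3. `(a - 1) / λ ∈ F` is integral, so congruent to a natural number `k` modulo `λ`; `ζ ^ k = (1 + λ) ^ k` is congruent to `1 + k λ` modulo `λ ^ 2`. So `‖a - ζ ^ k‖ ≤ ‖λ‖ ^ 2`, `‖a * ζ⁻¹ ^ k - 1‖ ≤ ‖λ‖ ^ 2`. So we may assume `‖a - 1‖ ≤ ‖λ‖ ^ 2`.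
4. `step` for `i = 2, .., p - 1` gives `‖a - 1‖ ≤ ‖λ‖ ^ p` (`p ≥ 3`). 5. `s8`.
-/

set_option autoImplicit false

namespace Pool.Agent.H22.KW

open Polynomial Pool.Agent.H55.Tilt Pool.Agent.H22.QA

open scoped IntermediateField

variable {p : ℕ} [hp : Fact p.Prime]

variable {ζ : PadicAlgCl p}

/-- every `p`-th root of `a` is in the field of the roots of unity -/
private def QQ (a : PadicAlgCl p) : Prop := ∀ α : PadicAlgCl p, α ^ p = a → α ∈ KMu p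

private theorem QQ.of {a β : PadicAlgCl p} (hβ : β ∈ KMu p) (h0 : β ≠ 0) (h : QQ (a * β ^ p)) : QQ a := by
  intro α hα
  have h1 : α * β ∈ KMu p := h _ (by rw [mul_pow, hα])
  have h2 : α = α * β / β := by field_simp
  rw [h2]
  exact div_mem h1 hβ

private theorem PP.mul' {a b : PadicAlgCl p} (ha : PP ζ a) (hb : PP ζ b) : PP ζ (a * b) := by
  obtain ⟨h1, h2, h3⟩ := ha
  obtain ⟨h4, h5, h6⟩ := hb
  refine ⟨mul_mem h1 h4, mul_ne_zero h2 h5, fun g c hc => ?_⟩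
  obtain ⟨x, hx, hx0, hx1⟩ := h3 g c hc
  obtain ⟨y, hy, hy0, hy1⟩ := h6 g c hc
  refine ⟨x * y, mul_mem hx hy, mul_ne_zero hx0 hy0, ?_⟩
  rw [map_mul, hx1, hy1, mul_pow, mul_pow]
  ring

private theorem PP.powp' (hζ : IsPrimitiveRoot ζ p) {x : PadicAlgCl p} (hx : x ∈ ℚ_[p]⟮ζ⟯) (h0 : x ≠ 0) :
    PP ζ (x ^ p) := by
  refine ⟨pow_mem hx p, pow_ne_zero _ h0, fun g c _ => ?_⟩
  have hg0 : g x ≠ 0 := fun h => h0 ((map_eq_zero g).1 h)
  refine ⟨g x / x ^ c, div_mem (F1_mem hζ g hx) (pow_mem hx c), div_ne_zero hg0 (pow_ne_zero _ h0), ?_⟩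
  rw [map_pow, div_pow, ← pow_mul, ← pow_mul, mul_comm p c, mul_div_cancel₀ _ (pow_ne_zero _ h0)]

private theorem PP.zeta' (hζ : IsPrimitiveRoot ζ p) : PP ζ ζ⁻¹ := by
  have h0 : ζ ≠ 0 := hζ.ne_zero hp.out.ne_zero
  refine ⟨inv_mem (IntermediateField.mem_adjoin_simple_self _ _), inv_ne_zero h0, fun g c hc => ?_⟩
  refine ⟨1, one_mem _, one_ne_zero, ?_⟩
  rw [map_inv₀, hc, one_pow, mul_one, inv_pow]

private theorem PP.pow' {a : PadicAlgCl p} (ha : PP ζ a) (k : ℕ) : PP ζ (a ^ k) := by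
  induction k with
  | zero =>
    rw [pow_zero]
    refine ⟨one_mem _, one_ne_zero, fun g c _ => ⟨1, one_mem _, one_ne_zero, ?_⟩⟩
    rw [map_one, one_pow, one_pow, mul_one]
  | succ k ih =>
    rw [pow_succ]
    exact ih.mul' ha

private theorem F_le (hζ : IsPrimitiveRoot ζ p) : ℚ_[p]⟮ζ⟯ ≤ KMu p := by
  rw [IntermediateField.adjoin_simple_le_iff]
  exact root_mem_KMu hp.out.pos hζ.pow_eq_one

/-- level two -/
private theorem uf_two (hp2 : p ≠ 2) (hζ : IsPrimitiveRoot ζ p) {a : PadicAlgCl p} (ha : PP ζ a)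
    (h : ‖a - 1‖ ≤ ‖ζ - 1‖ ^ 2) : QQ a := by
  have h3 : 3 ≤ p := by
    have := hp.out.two_le
    omega
  have h1 : ∀ i : ℕ, i + 2 ≤ p → ‖a - 1‖ ≤ ‖ζ - 1‖ ^ (i + 2) := by
    intro i
    induction i with
    | zero => intro _; exact h
    | succ i ih =>
      intro hi
      have h4 := step hp2 hζ ha (i := i + 2) (by omega) (by omega) (ih (by omega))
      rw [show i + 1 + 2 = i + 2 + 1 by ring]
      exact h4
  have h2 : ‖a - 1‖ ≤ ‖ζ - 1‖ ^ p := by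
    have h4 := h1 (p - 2) (by omega)
    rwa [show p - 2 + 2 = p by omega] at h4
  intro α hα
  exact s8 hζ (by rw [hα]; exact F_le hζ ha.1) (by rw [hα]; exact h2)

private theorem norm_zeta (hζ : IsPrimitiveRoot ζ p) : ‖ζ‖ = 1 := norm_root hp.out.pos hζ.pow_eq_one

private theorem norm_zeta_pow_sub (hζ : IsPrimitiveRoot ζ p) (j : ℕ) : ‖ζ ^ j - 1‖ ≤ ‖ζ - 1‖ := by
  rw [← mul_geom_sum, norm_mul]
  apply mul_le_of_le_one_right (norm_nonneg _)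
  apply IsUltrametricDist.norm_sum_le_of_forall_le_of_nonneg zero_le_one
  intro i _
  rw [norm_pow, norm_zeta hζ, one_pow]

private theorem norm_zeta_pow_sub2 (hζ : IsPrimitiveRoot ζ p) (k : ℕ) :
    ‖ζ ^ k - 1 - k * (ζ - 1)‖ ≤ ‖ζ - 1‖ ^ 2 := by
  have h1 : ζ ^ k - 1 - k * (ζ - 1) = (ζ - 1) * ∑ j ∈ Finset.range k, (ζ ^ j - 1) := by
    have h2 := mul_geom_sum ζ k
    rw [Finset.sum_sub_distrib, Finset.sum_const, Finset.card_range, nsmul_eq_mul, mul_one,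
      mul_sub (ζ - 1) _ (k : PadicAlgCl p), h2]
    ring
  rw [h1, norm_mul, sq]
  apply mul_le_mul_of_nonneg_left _ (norm_nonneg _)
  apply IsUltrametricDist.norm_sum_le_of_forall_le_of_nonneg (norm_nonneg _)
  intro i _
  exact norm_zeta_pow_sub hζ i

/-- level one -/
private theorem uf_one (hp2 : p ≠ 2) (hζ : IsPrimitiveRoot ζ p) {a : PadicAlgCl p} (ha : PP ζ a)
    (h : ‖a - 1‖ ≤ ‖ζ - 1‖) : QQ a := by
  have hlam := lam_pos hζ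
  have hlam0 : ζ - 1 ≠ 0 := norm_pos_iff.1 hlam
  have hζF : ζ ∈ ℚ_[p]⟮ζ⟯ := IntermediateField.mem_adjoin_simple_self _ _
  have hxF : (a - 1) / (ζ - 1) ∈ ℚ_[p]⟮ζ⟯ := div_mem (sub_mem ha.1 (one_mem _)) (sub_mem hζF (one_mem _))
  have hx1 : ‖(a - 1) / (ζ - 1)‖ ≤ 1 := by
    rw [norm_div, div_le_one hlam]
    exact h
  obtain ⟨k, _, hk⟩ := F1_int hζ hxF hx1
  have h1 : ‖a - 1 - k * (ζ - 1)‖ ≤ ‖ζ - 1‖ ^ 2 := by
    have h2 : a - 1 - k * (ζ - 1) = ((a - 1) / (ζ - 1) - k) * (ζ - 1) := by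
      field_simp
    rw [h2, norm_mul, sq]
    exact mul_le_mul_of_nonneg_right hk (norm_nonneg _)
  have h2 : ‖a - ζ ^ k‖ ≤ ‖ζ - 1‖ ^ 2 := by
    have h3 : a - ζ ^ k = (a - 1 - k * (ζ - 1)) - (ζ ^ k - 1 - k * (ζ - 1)) := by ring
    rw [h3]
    exact (norm_sub_le_max' _ _).trans (max_le h1 (norm_zeta_pow_sub2 hζ k))
  have hζ0 : ζ ≠ 0 := hζ.ne_zero hp.out.ne_zero
  have ha' : PP ζ (a * ζ⁻¹ ^ k) := ha.mul' ((PP.zeta' hζ).pow' k)
  have h3 : ‖a * ζ⁻¹ ^ k - 1‖ ≤ ‖ζ - 1‖ ^ 2 := by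
    have h4 : a * ζ⁻¹ ^ k - 1 = (a - ζ ^ k) * ζ⁻¹ ^ k := by
      rw [sub_mul, inv_pow, mul_inv_cancel₀ (pow_ne_zero _ hζ0)]
    rw [h4, norm_mul, norm_pow, norm_inv, norm_zeta hζ, inv_one, one_pow, mul_one]
    exact h2
  obtain ⟨β, hβ⟩ := IsAlgClosed.exists_pow_nat_eq (ζ⁻¹ ^ k) hp.out.pos
  have hβ0 : β ≠ 0 := by
    rintro rfl
    rw [zero_pow hp.out.ne_zero] at hβ
    exact pow_ne_zero k (inv_ne_zero hζ0) hβ.symm
  have hβK : β ∈ KMu p := by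
    refine root_mem_KMu (n := p * p) (Nat.mul_pos hp.out.pos hp.out.pos) ?_
    rw [pow_mul, hβ, ← pow_mul, mul_comm, pow_mul, inv_pow, hζ.pow_eq_one, inv_one, one_pow]
  refine QQ.of hβK hβ0 ?_
  rw [hβ]
  exact uf_two hp2 hζ ha' h3

/-- level zero -/
private theorem uf_zero (hp2 : p ≠ 2) (hζ : IsPrimitiveRoot ζ p) {a : PadicAlgCl p} (ha : PP ζ a)
    (h : ‖a‖ = 1) : QQ a := by
  have hlam := lam_pos hζ
  have hlt := lam_lt hζ
  obtain ⟨k, _, hk⟩ := F1_int hζ ha.1 h.le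
  have hk1 : ‖(k : PadicAlgCl p)‖ = 1 := by
    apply le_antisymm
    · have h1 : (k : PadicAlgCl p) = a - (a - k) := by ring
      rw [h1]
      refine (norm_sub_le_max' _ _).trans (max_le h.le ?_)
      linarith
    · by_contra h2
      rw [not_le] at h2
      have h3 : a = (a - k) + k := by ring
      have h4 : ‖a‖ < 1 := by
        rw [h3]
        exact lt_of_le_of_lt (norm_add_le_max' _ _) (max_lt (by linarith) h2)
      linarith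
  have hk0 : (k : PadicAlgCl p) ≠ 0 := by
    intro h1
    rw [h1, norm_zero] at hk1
    exact zero_ne_one hk1
  have hpl : ‖(p : PadicAlgCl p)‖ ≤ ‖ζ - 1‖ := by
    rw [norm_p_cl, ← norm_lam hζ]
    have h1 : p - 1 ≠ 0 := by
      have := hp.out.two_le
      omega
    exact pow_le_of_le_one (norm_nonneg _) hlt.le h1
  have hferm : ‖(k : PadicAlgCl p) - (k : PadicAlgCl p) ^ p‖ ≤ ‖ζ - 1‖ := by
    have h1 : (p : ℤ) ∣ (k : ℤ) - (k : ℤ) ^ p := by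
      rw [← ZMod.intCast_zmod_eq_zero_iff_dvd]
      push_cast
      rw [ZMod.pow_card, sub_self]
    obtain ⟨c, hc⟩ := h1
    have h2 : (k : PadicAlgCl p) - (k : PadicAlgCl p) ^ p = (p : PadicAlgCl p) * (c : PadicAlgCl p) := by
      have h3 := congrArg (Int.cast (R := PadicAlgCl p)) hc
      push_cast at h3
      exact h3
    have h3 : ‖(c : PadicAlgCl p)‖ ≤ 1 := by
      by_contra h4
      have h5 : ¬ ‖(c : PadicAlgCl p)‖ < 1 := by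
        rw [not_lt]
        exact (not_le.1 h4).le
      have h6 := IsUltrametricDist.norm_intCast_le_one (PadicAlgCl p) c
      exact h4 h6
    rw [h2, norm_mul]
    calc ‖(p : PadicAlgCl p)‖ * ‖(c : PadicAlgCl p)‖ ≤ ‖ζ - 1‖ * 1 :=
          mul_le_mul hpl h3 (norm_nonneg _) (norm_nonneg _)
      _ = ‖ζ - 1‖ := mul_one _
  have hkF : (k : PadicAlgCl p) ∈ ℚ_[p]⟮ζ⟯ := natCast_mem _ k
  have hβF : (k : PadicAlgCl p)⁻¹ ∈ ℚ_[p]⟮ζ⟯ := inv_mem hkF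
  refine QQ.of (F_le hζ hβF) (inv_ne_zero hk0) (uf_one hp2 hζ (ha.mul' (PP.powp' hζ hβF (inv_ne_zero hk0))) ?_)
  have h4 : a * (k : PadicAlgCl p)⁻¹ ^ p - 1 = (a - (k : PadicAlgCl p) ^ p) * (k : PadicAlgCl p)⁻¹ ^ p := by
    rw [sub_mul, inv_pow, mul_inv_cancel₀ (pow_ne_zero _ hk0)]
  rw [h4, norm_mul, norm_pow, norm_inv, hk1, inv_one, one_pow, mul_one]
  have h5 : a - (k : PadicAlgCl p) ^ p = (a - k) + ((k : PadicAlgCl p) - (k : PadicAlgCl p) ^ p) := by ring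
  rw [h5]
  exact (norm_add_le_max' _ _).trans (max_le hk hferm)

theorem uf (hp2 : p ≠ 2) (hζ : IsPrimitiveRoot ζ p) {a : PadicAlgCl p} (ha : PP ζ a)
    {α : PadicAlgCl p} (hα : α ^ p = a) : α ∈ KMu p := by
  have hlam := lam_pos hζ
  have hlt := lam_lt hζ
  have hlam0 : ζ - 1 ≠ 0 := norm_pos_iff.1 hlam
  obtain ⟨n, hn⟩ := F1_norm hζ ha.1 ha.2.1
  have hodd : Nat.Coprime 2 p := by
    rw [Nat.coprime_primes Nat.prime_two hp.out]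
    exact fun h => hp2 h.symm
  obtain ⟨g, _, hg⟩ := exists_gal_zeta (p := p) 1 (ζ := ζ) (ζ' := ζ ^ 2) (by rw [pow_one]; exact hζ)
    (by rw [pow_one]; exact hζ.pow_of_coprime 2 hodd)
  obtain ⟨b, hb, hb0, hb1⟩ := ha.2.2 g 2 hg
  obtain ⟨k, hk⟩ := F1_norm hζ hb hb0
  have hnk : n = 2 * n + p * k := by
    have h1 := congrArg norm hb1
    rw [norm_gal, norm_mul, norm_pow, norm_pow, hn, hk, ← zpow_natCast, ← zpow_natCast, ← zpow_mul,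
      ← zpow_mul, ← zpow_add₀ hlam.ne'] at h1
    have h2 := zpow_right_injective₀ hlam hlt.ne h1
    push_cast at h2
    linarith
  have hζF : ζ ∈ ℚ_[p]⟮ζ⟯ := IntermediateField.mem_adjoin_simple_self _ _
  have hβF : (ζ - 1) ^ k ∈ ℚ_[p]⟮ζ⟯ := zpow_mem (sub_mem hζF (one_mem _)) k
  have hβ0 : (ζ - 1) ^ k ≠ 0 := zpow_ne_zero _ hlam0
  have hQ : QQ a := by
    refine QQ.of (F_le hζ hβF) hβ0 (uf_zero hp2 hζ (ha.mul' (PP.powp' hζ hβF hβ0)) ?_)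
    rw [norm_mul, norm_pow, norm_zpow, hn, ← zpow_natCast, ← zpow_mul, ← zpow_add₀ hlam.ne']
    have h3 : n + k * (p : ℤ) = 0 := by linarith
    rw [h3, zpow_zero]
  exact hQ α hα

end Pool.Agent.H22.KW
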