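import Pool.Agent.H22.KW.Kum
import Pool.Agent.H22.KW.UF

/-!
# Module WOdd: characters of order `p`, `p` odd

`ζ` a primitive `p`-th root of unity (`exists_prim_root`), `F = ℚ_[p]⟮ζ⟯`. The values of `ε` are `p`-th roots of unity, so powers of `ζ`, in `F`. `kummer F hε`: `α ≠ 0`, `g α = ε g * α` for `g` fixing `F`. `a = α ^ p` is fixed by these `g`, so `a ∈ F` (`mem_of_fixed`).
`PP ζ a`: let `s ζ = ζ ^ c`. For `g ∈ F.fixingSubgroup`, `g' = s⁻¹ * g * s ∈ F.fixingSubgroup` (`s` maps `F` to itself; it is enough that `g' ζ = ζ`), `ε g' = ε g` is a power of `ζ`, so `s (ε g) = (ε g) ^ c` and `g (s α) = s (g' α) = s (ε g * α) = (ε g) ^ c * s α`. So `b = s α / α ^ c` is fixed by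
`F.fixingSubgroup`: `b ∈ F`, and `s a = a ^ c * b ^ p`. By `uf` `α ∈ KMu p`. `g ∈ (KMu p).fixingSubgroup` fixes `F` and `α`, so `ε g = 1`.
-/

set_option autoImplicit false

namespace Pool.Agent.H22.KW

open Polynomial Pool.Agent.H55.Tilt Pool.Agent.H22.QA

open scoped IntermediateField

variable {p : ℕ} [hp : Fact p.Prime]

theorem w1_odd (hp2 : p ≠ 2) {ε : Chr p} (hε : Sm ε) (h : ε ^ p = 1) : X2 ε := by
  obtain ⟨ζ, hζ⟩ := exists_prim_root (p := p) p hp.out.ne_zero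
  have hval : ∀ g : GG p, ((ε g : (PadicAlgCl p)ˣ) : PadicAlgCl p) ^ p = 1 := by
    intro g
    have h1 := (chr_pow_one_iff ε p).1 h g
    rw [← Units.val_pow_eq_pow_val, h1, Units.val_one]
  have hζF : ζ ∈ ℚ_[p]⟮ζ⟯ := IntermediateField.mem_adjoin_simple_self _ _
  have hpow : ∀ g : GG p, ∃ i : ℕ, ζ ^ i = ((ε g : (PadicAlgCl p)ˣ) : PadicAlgCl p) := by
    intro g
    obtain ⟨i, _, hi⟩ := hζ.eq_pow_of_pow_eq_one (hval g)
    exact ⟨i, hi⟩
  have hεF : ∀ g : GG p, ((ε g : (PadicAlgCl p)ˣ) : PadicAlgCl p) ∈ ℚ_[p]⟮ζ⟯ := by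
    intro g
    obtain ⟨i, hi⟩ := hpow g
    rw [← hi]
    exact pow_mem hζF i
  obtain ⟨α, hα0, hα⟩ := kummer ℚ_[p]⟮ζ⟯ hε (fun g _ => hεF g)
  have haF : α ^ p ∈ ℚ_[p]⟮ζ⟯ := by
    refine mem_of_fixed fun g hg => ?_
    rw [map_pow, hα g hg, mul_pow, hval g, one_mul]
  have hPP : PP ζ (α ^ p) := by
    refine ⟨haF, pow_ne_zero _ hα0, fun s c hs => ?_⟩
    have hsα0 : s α ≠ 0 := fun h0 => hα0 ((map_eq_zero s).1 h0)
    refine ⟨s α / α ^ c, ?_, div_ne_zero hsα0 (pow_ne_zero _ hα0), ?_⟩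
    · refine mem_of_fixed fun g hg => ?_
      have hg' : s⁻¹ * g * s ∈ (ℚ_[p]⟮ζ⟯).fixingSubgroup := by
        rw [mem_fix]
        intro x hx
        have h1 : g (s x) = s x := mem_fix.1 hg _ (F1_mem hζ s hx)
        show s⁻¹ (g (s x)) = x
        rw [h1]
        exact s.symm_apply_apply x
      have hεg : ε (s⁻¹ * g * s) = ε g := by
        rw [map_mul, map_mul, map_inv, mul_comm, ← mul_assoc, mul_inv_cancel, one_mul]
      have h2 : g (s α) = s ((s⁻¹ * g * s) α) := by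
        show g (s α) = s (s⁻¹ (g (s α)))
        exact (s.apply_symm_apply _).symm
      obtain ⟨i, hi⟩ := hpow g
      have h3 : s ((ε g : (PadicAlgCl p)ˣ) : PadicAlgCl p) = ((ε g : (PadicAlgCl p)ˣ) : PadicAlgCl p) ^ c := by
        rw [← hi, map_pow, hs, ← pow_mul, ← pow_mul, mul_comm]
      have hne : ((ε g : (PadicAlgCl p)ˣ) : PadicAlgCl p) ≠ 0 := Units.ne_zero _
      rw [map_div₀, map_pow, h2, hα _ hg', hα g hg, hεg, map_mul, h3, mul_pow]
      rw [mul_div_mul_left _ _ (pow_ne_zero c hne)]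
    · rw [map_pow, div_pow, ← pow_mul, ← pow_mul, mul_comm p c]
      rw [mul_div_cancel₀ _ (pow_ne_zero _ hα0)]
  have hαK : α ∈ KMu p := uf hp2 hζ hPP rfl
  intro g hg
  have hgF : g ∈ (ℚ_[p]⟮ζ⟯).fixingSubgroup := by
    rw [mem_fix]
    intro x hx
    have hle : ℚ_[p]⟮ζ⟯ ≤ KMu p := by
      rw [IntermediateField.adjoin_simple_le_iff]
      exact root_mem_KMu hp.out.pos hζ.pow_eq_one
    exact mem_fix.1 hg x (hle hx)
  have h1 := hα g hgF
  rw [mem_fix.1 hg α hαK] at h1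
  have h2 : ((ε g : (PadicAlgCl p)ˣ) : PadicAlgCl p) = 1 := by
    have h3 : ((ε g : (PadicAlgCl p)ˣ) : PadicAlgCl p) * α = 1 * α := by rw [one_mul]; exact h1.symm
    exact mul_right_cancel₀ hα0 h3
  exact Units.ext h2

end Pool.Agent.H22.KW
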