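import Pool.Agent.H22.KW.Kum

/-!
# Module WTwo: quadratic characters of `ℚ_2`

`ε g = ± 1`. `kummer ⊥ hε`: `α ≠ 0` with `g α = ε g * α` for all `g`. `a = α ^ 2` is fixed by all `g`, so `a ∈ ℚ_2` (`mem_of_fixed`, `⊥`). `a = 2 ^ k * u`, `u` a unit of `ℤ_2`; `u` is congruent to one of `1, 3, 5, 7` modulo `8`, so `u = v * w ^ 2` with `v ∈ {1, -1, 3, -3}`, `w ∈ ℤ_2`:
`1 + 8 t` is a square in `ℤ_2` (Hensel: `hensels_lemma` for `X ^ 2 - (1 + 8 t)` at `1`: `‖8 t‖ < ‖2‖ ^ 2`). Now `√(-1) = i` with `i ^ 4 = 1`, `√2 = z + z⁻¹` with `z` a primitive `8`-th root of unity, `√(-3) = 2 z + 1` with `z` a primitive third root of unity, `√3 = i √(-3)`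
(up to sign) are in `KMu 2`. So `α ∈ KMu 2` (`α ^ 2 = β ^ 2` with `β ∈ KMu 2`, `α = ± β`), and `g α = α`, `ε g = 1` for `g` fixing `KMu 2`.
-/

set_option autoImplicit false

namespace Pool.Agent.H22.KW

open Polynomial Pool.Agent.H55.Tilt Pool.Agent.H22.QA

open scoped IntermediateField

variable {p : ℕ} [hp : Fact p.Prime]

/-- the elements of `ℚ_2` with a square root in `KMu 2` -/
private def wtS (q : ℚ_[2]) : Prop := ∃ β ∈ KMu 2, β ^ 2 = algebraMap ℚ_[2] (PadicAlgCl 2) q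

private lemma wtS_mul {q r : ℚ_[2]} (hq : wtS q) (hr : wtS r) : wtS (q * r) := by
  obtain ⟨b, hb, hb2⟩ := hq
  obtain ⟨c, hc, hc2⟩ := hr
  exact ⟨b * c, mul_mem hb hc, by rw [mul_pow, hb2, hc2, map_mul]⟩

private lemma wtS_sq (q : ℚ_[2]) : wtS (q ^ 2) :=
  ⟨algebraMap _ _ q, (KMu 2).algebraMap_mem q, by rw [map_pow]⟩

private lemma wtS_pow {q : ℚ_[2]} (hq : wtS q) (n : ℕ) : wtS (q ^ n) := by
  induction n with
  | zero => simpa using wtS_sq 1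
  | succ n ih => rw [pow_succ]; exact wtS_mul ih hq

/-- cancellation -/
private lemma wtS_of_mul {q r : ℚ_[2]} (hr0 : r ≠ 0) (hqr : wtS (q * r)) (hr : wtS r) : wtS q := by
  have h := wtS_mul (wtS_mul hqr hr) (wtS_sq r⁻¹)
  have e : q * r * r * r⁻¹ ^ 2 = q := by field_simp
  rwa [e] at h

private lemma wtS_neg_one : wtS (-1) := by
  obtain ⟨i, hi⟩ := IsAlgClosed.exists_pow_nat_eq (-1 : PadicAlgCl 2) (n := 2) (by norm_num)
  refine ⟨i, root_mem_KMu (n := 4) (by norm_num) ?_, ?_⟩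
  · calc i ^ 4 = (i ^ 2) ^ 2 := by ring
      _ = 1 := by rw [hi]; norm_num
  · rw [hi, map_neg, map_one]

private lemma wtS_two : wtS 2 := by
  obtain ⟨i, hi⟩ := IsAlgClosed.exists_pow_nat_eq (-1 : PadicAlgCl 2) (n := 2) (by norm_num)
  obtain ⟨z, hz⟩ := IsAlgClosed.exists_pow_nat_eq i (n := 2) (by norm_num)
  have hz8 : z ^ 8 = 1 := by
    calc z ^ 8 = ((z ^ 2) ^ 2) ^ 2 := by ring
      _ = 1 := by rw [hz, hi]; norm_num
  have hz0 : z ≠ 0 := by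
    rintro rfl
    norm_num at hz8
  have hm : z ∈ KMu 2 := root_mem_KMu (n := 8) (by norm_num) hz8
  refine ⟨z + z⁻¹, add_mem hm (inv_mem hm), ?_⟩
  have h4 : z ^ 4 = -1 := by
    calc z ^ 4 = (z ^ 2) ^ 2 := by ring
      _ = -1 := by rw [hz, hi]
  have h2 : (algebraMap ℚ_[2] (PadicAlgCl 2)) 2 = 2 := map_ofNat _ 2
  rw [h2]
  have : (z + z⁻¹) ^ 2 * z ^ 2 = 2 * z ^ 2 := by
    have e : (z + z⁻¹) ^ 2 * z ^ 2 = z ^ 4 + 2 * z ^ 2 + 1 := by
      field_simp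
      ring
    rw [e, h4]; ring
  exact mul_right_cancel₀ (pow_ne_zero 2 hz0) this

private lemma wtS_neg_three : wtS (-3) := by
  obtain ⟨s, hs⟩ := IsAlgClosed.exists_pow_nat_eq (-3 : PadicAlgCl 2) (n := 2) (by norm_num)
  have h20 : (2 : PadicAlgCl 2) ≠ 0 := two_ne_zero
  set w : PadicAlgCl 2 := (s - 1) / 2 with hw
  have hw1 : w ^ 2 + w + 1 = 0 := by
    have e : w ^ 2 + w + 1 = (s ^ 2 + 3) / 4 := by
      rw [hw]; ring
    rw [e, hs]; norm_num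
  have hw3 : w ^ 3 = 1 := by
    have : w ^ 3 - 1 = (w - 1) * (w ^ 2 + w + 1) := by ring
    rw [hw1, mul_zero] at this
    exact sub_eq_zero.1 this
  have hm : w ∈ KMu 2 := root_mem_KMu (n := 3) (by norm_num) hw3
  have h2m : (2 : PadicAlgCl 2) ∈ KMu 2 := by
    have := (KMu 2).algebraMap_mem (2 : ℚ_[2])
    rwa [map_ofNat] at this
  refine ⟨2 * w + 1, add_mem (mul_mem h2m hm) (one_mem _), ?_⟩
  have e : 2 * w + 1 = s := by rw [hw]; field_simp; ring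
  rw [e, hs, map_neg, map_ofNat]

private lemma wtS_three : wtS 3 := by
  have h := wtS_mul wtS_neg_one wtS_neg_three
  norm_num at h
  exact h

private lemma wt_hensel (t : ℤ_[2]) : ∃ z : ℤ_[2], z ^ 2 = 1 + 8 * t := by
  set F : Polynomial ℤ_[2] := X ^ 2 - C (1 + 8 * t) with hF
  have h1 : F.aeval (1 : ℤ_[2]) = -(8 * t) := by
    rw [hF]; simp
  have h2 : F.derivative.aeval (1 : ℤ_[2]) = 2 := by
    rw [hF]; simp
    norm_num
  have n2 : ‖(2 : ℤ_[2])‖ = 1 / 2 := by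
    have := PadicInt.norm_p (p := 2)
    norm_num at this ⊢
    exact this
  have hn : ‖F.aeval (1 : ℤ_[2])‖ < ‖F.derivative.aeval (1 : ℤ_[2])‖ ^ 2 := by
    rw [h1, h2, norm_neg]
    have e8 : (8 : ℤ_[2]) = 2 ^ 3 := by norm_num
    rw [norm_mul, e8, norm_pow, n2]
    have ht := PadicInt.norm_le_one t
    nlinarith [norm_nonneg t]
  obtain ⟨z, hz, -⟩ := hensels_lemma hn
  refine ⟨z, ?_⟩
  have h3 : F.aeval z = z ^ 2 - (1 + 8 * t) := by
    rw [hF]; simp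
  rw [h3] at hz
  exact sub_eq_zero.1 hz

private lemma wtS_eight (t : ℤ_[2]) : wtS (((1 + 8 * t : ℤ_[2]) : ℚ_[2])) := by
  obtain ⟨z, hz⟩ := wt_hensel t
  rw [← hz]
  push_cast
  exact wtS_sq _

private lemma wtS_unit (u : ℤ_[2]) (hu : ‖u‖ = 1) : wtS (u : ℚ_[2]) := by
  have hspec := PadicInt.appr_spec 3 u
  have hlt := PadicInt.appr_lt u 3
  obtain ⟨c, hc⟩ := Ideal.mem_span_singleton'.1 hspec
  have hc' : u = (u.appr 3 : ℤ_[2]) + 8 * c := by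
    have : (2 : ℤ_[2]) ^ 3 = 8 := by norm_num
    have h0 : u - (u.appr 3 : ℤ_[2]) = c * 8 := by
      rw [← hc]
      norm_num
    linear_combination h0
  have hodd : ¬ 2 ∣ u.appr 3 := by
    rintro ⟨m, hm⟩
    have h2 : u = 2 * (m + 4 * c) := by
      rw [hc', hm]; push_cast; ring
    have h3 : ‖u‖ ≤ 1 / 2 := by
      rw [h2, norm_mul]
      have n2 : ‖(2 : ℤ_[2])‖ = 1 / 2 := by
        have := PadicInt.norm_p (p := 2)
        norm_num at this ⊢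
        exact this
      rw [n2]
      have := PadicInt.norm_le_one ((m : ℤ_[2]) + 4 * c)
      linarith
    rw [hu] at h3
    norm_num at h3
  have key : ∀ (r : ℤ) (s : ℤ), (u.appr 3 : ℤ) * r = 1 + 8 * s → (r : ℚ_[2]) ≠ 0 → wtS (r : ℚ_[2]) → wtS (u : ℚ_[2]) := by
    intro r s hrs hr0 hr
    refine wtS_of_mul hr0 ?_ hr
    have h4 : u * (r : ℤ_[2]) = 1 + 8 * ((s : ℤ_[2]) + c * r) := by
      have h5 : ((u.appr 3 : ℤ) : ℤ_[2]) * (r : ℤ_[2]) = 1 + 8 * (s : ℤ_[2]) := by exact_mod_cast congrArg (Int.cast : ℤ → ℤ_[2]) hrs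
      have h6 : ((u.appr 3 : ℤ) : ℤ_[2]) = (u.appr 3 : ℤ_[2]) := by push_cast; rfl
      rw [h6] at h5
      calc u * (r : ℤ_[2]) = ((u.appr 3 : ℤ_[2]) + 8 * c) * (r : ℤ_[2]) := by rw [← hc']
        _ = _ := by linear_combination h5
    have h7 := wtS_eight ((s : ℤ_[2]) + c * r)
    rw [← h4] at h7
    push_cast at h7
    exact h7
  have hlt8 : u.appr 3 < 8 := by simpa using hlt
  have hcases : u.appr 3 = 1 ∨ u.appr 3 = 3 ∨ u.appr 3 = 5 ∨ u.appr 3 = 7 := by omega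
  rcases hcases with h | h | h | h
  · exact key 1 0 (by rw [h]; norm_num) (by norm_num) (by simpa using wtS_sq 1)
  · exact key 3 1 (by rw [h]; norm_num) (by norm_num) (by simpa using wtS_three)
  · exact key (-3) (-2) (by rw [h]; norm_num) (by norm_num) (by simpa using wtS_neg_three)
  · exact key (-1) (-1) (by rw [h]; norm_num) (by norm_num) (by simpa using wtS_neg_one)

private lemma wtS_int (x : ℤ_[2]) (hx : x ≠ 0) : wtS (x : ℚ_[2]) := by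
  have h := PadicInt.unitCoeff_spec hx
  rw [h]
  push_cast
  refine wtS_mul (wtS_unit _ (PadicInt.norm_units _)) ?_
  exact wtS_pow wtS_two x.valuation

private lemma wtS_all (q : ℚ_[2]) (hq : q ≠ 0) : wtS q := by
  obtain ⟨n, hn⟩ : ∃ n : ℕ, ‖q * (2 ^ n) ^ 2‖ ≤ 1 := by
    obtain ⟨n, hn⟩ := exists_nat_gt ‖q‖
    refine ⟨n, ?_⟩
    have n2 : ‖(2 : ℚ_[2])‖ = 1 / 2 := by
      have := Padic.norm_p (p := 2)
      norm_num at this ⊢
      exact this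
    rw [norm_mul, norm_pow, norm_pow, n2]
    have h1 : (n : ℝ) < 2 ^ n := by exact_mod_cast Nat.lt_two_pow_self
    have h2 : ((1 : ℝ) / 2) ^ n * 2 ^ n = 1 := by rw [← mul_pow]; norm_num
    have h3 : 0 < ((1 : ℝ) / 2) ^ n := by positivity
    have h4 : ((1 : ℝ) / 2) ^ n ≤ 1 := pow_le_one₀ (by norm_num) (by norm_num)
    have h5 : ‖q‖ * ((1 : ℝ) / 2) ^ n ≤ 1 := by
      calc ‖q‖ * ((1 : ℝ) / 2) ^ n ≤ 2 ^ n * ((1 : ℝ) / 2) ^ n := by
            apply mul_le_mul_of_nonneg_right (by linarith) h3.le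
        _ = 1 := by rw [mul_comm]; exact h2
    calc ‖q‖ * (((1 : ℝ) / 2) ^ n) ^ 2 = (‖q‖ * ((1 : ℝ) / 2) ^ n) * ((1 : ℝ) / 2) ^ n := by ring
      _ ≤ 1 * 1 := mul_le_mul h5 h4 h3.le zero_le_one
      _ = 1 := one_mul 1
  have h20 : ((2 : ℚ_[2]) ^ n) ^ 2 ≠ 0 := pow_ne_zero 2 (pow_ne_zero n two_ne_zero)
  refine wtS_of_mul h20 ?_ (wtS_sq _)
  obtain ⟨x, hx⟩ : ∃ x : ℤ_[2], (x : ℚ_[2]) = q * (2 ^ n) ^ 2 := ⟨⟨_, hn⟩, rfl⟩
  have hx0 : x ≠ 0 := by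
    rintro rfl
    exact mul_ne_zero hq h20 hx.symm
  rw [← hx]
  exact wtS_int _ hx0

theorem w1_two {ε : Chr 2} (hε : Sm ε) (h : ε ^ 2 = 1) : X2 ε := by
  have hsq : ∀ g, ((ε g : (PadicAlgCl 2)ˣ) : PadicAlgCl 2) ^ 2 = 1 := by
    intro g
    have h1 := (chr_pow_one_iff ε 2).1 h g
    have h2 := congrArg (Units.val) h1
    simpa using h2
  have hF : ∀ g ∈ (⊥ : IntermediateField ℚ_[2] (PadicAlgCl 2)).fixingSubgroup,
      ((ε g : (PadicAlgCl 2)ˣ) : PadicAlgCl 2) ∈ (⊥ : IntermediateField ℚ_[2] (PadicAlgCl 2)) := by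
    intro g _
    rcases mul_self_eq_one_iff.1 ((sq _).symm.trans (hsq g)) with h1 | h1
    · rw [h1]; exact one_mem _
    · rw [h1]; exact neg_mem (one_mem _)
  obtain ⟨α, hα0, hα⟩ := kummer ⊥ hε hF
  have hbot : ∀ g : GG 2, g ∈ (⊥ : IntermediateField ℚ_[2] (PadicAlgCl 2)).fixingSubgroup := by
    intro g
    rw [mem_fix]
    intro x hx
    rw [IntermediateField.mem_bot] at hx
    obtain ⟨y, rfl⟩ := hx
    exact g.commutes y
  have hmem : α ^ 2 ∈ (⊥ : IntermediateField ℚ_[2] (PadicAlgCl 2)) := by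
    refine mem_of_fixed fun g _ => ?_
    rw [map_pow, hα g (hbot g), mul_pow, hsq g, one_mul]
  rw [IntermediateField.mem_bot] at hmem
  obtain ⟨q, hq⟩ := hmem
  have hq0 : q ≠ 0 := by
    rintro rfl
    rw [map_zero] at hq
    exact pow_ne_zero 2 hα0 hq.symm
  obtain ⟨β, hβ, hβ2⟩ := wtS_all q hq0
  have hαm : α ∈ KMu 2 := by
    have h1 : β ^ 2 = α ^ 2 := by rw [hβ2, hq]
    rcases sq_eq_sq_iff_eq_or_eq_neg.1 h1 with h2 | h2
    · rwa [← h2]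
    · have : α = -β := by rw [h2, neg_neg]
      rw [this]; exact neg_mem hβ
  intro g hg
  have h1 := hα g (hbot g)
  rw [mem_fix.1 hg α hαm] at h1
  have h2 : ((ε g : (PadicAlgCl 2)ˣ) : PadicAlgCl 2) = 1 := by
    have : (((ε g : (PadicAlgCl 2)ˣ) : PadicAlgCl 2) - 1) * α = 0 := by
      linear_combination -h1
    rcases mul_eq_zero.1 this with h3 | h3
    · exact sub_eq_zero.1 h3
    · exact absurd h3 hα0
  exact Units.ext h2

end Pool.Agent.H22.KW
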