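import Pool.Agent.H22.KW.Uni
import Pool.Agent.H22.KW.The
import Pool.Agent.H22.KW.Gen
import Pool.Agent.H22.KW.WOdd
import Pool.Agent.H22.KW.WTwo
import Pool.Agent.H22.KW.Quart

/-!
# Module Wild: characters of order a power of `p`

`g₁`, `g₂` from `exists_g1`, `exists_g2`; `θ` from `exists_theta` with `a = χ g₁`, `b = χ g₂`. `ψ = χ * θ⁻¹`: smooth, `ψ ^ p ^ R = 1` for some `R`, `ψ g₁ = ψ g₂ = 1`. Let `j` be minimal with `ψ ^ p ^ j = 1` (`Nat.find`). If `j = 0`, `ψ = 1`, `χ = θ` is `X2`. Otherwise `ε = ψ ^ p ^ (j - 1) ≠ 1`, `ε ^ p = 1`, `ε g₁ = ε g₂ = 1`.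
`p` odd: `w1_odd`, `gen_odd`: `ε = 1`, contradiction. `p = 2` (`subst`): if `j = 1` then `ψ ^ 2 = 1`, `ψ` is `X2` by `w1_two`, and `χ = ψ * θ`. If `j ≥ 2`: `ρ = ψ ^ 2 ^ (j - 2)`, `ρ ^ 2 = ε`; `ε` is `X2` (`w1_two`), `gen_two`: `ε g = 1` if `g i = i`, where `i ^ 2 = -1` (`IsAlgClosed.exists_pow_nat_eq`); `ε s ≠ 1` for some `s`; `quart`: contradiction.
-/

set_option autoImplicit false

namespace Pool.Agent.H22.KW

open Polynomial Pool.Agent.H55.Tilt Pool.Agent.H22.QA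

open scoped IntermediateField

variable {p : ℕ} [hp : Fact p.Prime]

private theorem wild_eq {χ θ : Chr p} (h : χ * θ⁻¹ = 1) : χ = θ := by
  refine MonoidHom.ext fun g => ?_
  have h1 := DFunLike.congr_fun h g
  rw [MonoidHom.mul_apply, MonoidHom.inv_apply, MonoidHom.one_apply] at h1
  exact mul_inv_eq_one.1 h1

private theorem wild_mul (χ θ : Chr p) : (χ * θ⁻¹) * θ = χ := by
  refine MonoidHom.ext fun g => ?_
  rw [MonoidHom.mul_apply, MonoidHom.mul_apply, MonoidHom.inv_apply, inv_mul_cancel_right]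

private theorem wild_ne {ε : Chr p} (h : ε ≠ 1) : ∃ g, ε g ≠ 1 := by
  by_contra hcon
  push Not at hcon
  exact h (MonoidHom.ext fun g => hcon g)

theorem wild {χ : Chr p} (hχ : Sm χ) {m : ℕ} (h : χ ^ p ^ m = 1) : X2 χ := by
  classical
  obtain ⟨g₁, h1⟩ := exists_g1 p
  obtain ⟨g₂, h2⟩ := exists_g2 p
  have hval := (chr_pow_one_iff χ (p ^ m)).1 h
  obtain ⟨θ, hθ, hθx, ⟨r, hr⟩, hθ1, hθ2⟩ := exists_theta h1 h2 m (χ g₁) (χ g₂) (hval g₁) (hval g₂)
  have hrv := (chr_pow_one_iff θ (p ^ r)).1 hr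
  set ψ : Chr p := χ * θ⁻¹ with hψdef
  have hψ : Sm ψ := hχ.mul hθ.inv
  have hψg : ∀ g, ψ g = χ g * (θ g)⁻¹ := fun g => by
    rw [hψdef, MonoidHom.mul_apply, MonoidHom.inv_apply]
  have hψ1 : ψ g₁ = 1 := by rw [hψg, hθ1, mul_inv_cancel]
  have hψ2 : ψ g₂ = 1 := by rw [hψg, hθ2, mul_inv_cancel]
  have hex : ∃ j : ℕ, ψ ^ p ^ j = 1 := by
    refine ⟨m + r, (chr_pow_one_iff ψ _).2 fun g => ?_⟩
    rw [hψg, mul_pow, inv_pow]
    have e1 : χ g ^ p ^ (m + r) = 1 := by rw [pow_add, pow_mul, hval g, one_pow]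
    have e2 : θ g ^ p ^ (m + r) = 1 := by rw [add_comm, pow_add, pow_mul, hrv g, one_pow]
    rw [e1, e2, inv_one, mul_one]
  have hj := Nat.find_spec hex
  have hmin : ∀ k, k < Nat.find hex → ψ ^ p ^ k ≠ 1 := fun k hk => Nat.find_min hex hk
  generalize Nat.find hex = j at hj hmin
  have hfin : ψ = 1 → X2 χ := fun hψ1 => by
    rw [wild_eq hψ1]
    exact hθx
  rcases j with _ | k
  · apply hfin
    refine MonoidHom.ext fun g => ?_
    have h3 := (chr_pow_one_iff ψ _).1 hj g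
    rw [pow_zero, pow_one] at h3
    exact h3
  · have hε1 : ψ ^ p ^ k ≠ 1 := hmin k (Nat.lt_succ_self k)
    have hεp : (ψ ^ p ^ k) ^ p = 1 := by
      rw [← chr_pow_mul, ← pow_succ]
      exact hj
    have hεs : Sm (ψ ^ p ^ k) := hψ.pow _
    have hεg₁ : (ψ ^ p ^ k) g₁ = 1 := by rw [chr_pow_apply, hψ1, one_pow]
    have hεg₂ : (ψ ^ p ^ k) g₂ = 1 := by rw [chr_pow_apply, hψ2, one_pow]
    by_cases hp2 : p = 2
    · subst hp2
      rcases k with _ | l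
      · have h4 : ψ ^ 2 = 1 := by
          refine (chr_pow_one_iff ψ 2).2 fun g => ?_
          have h5 := (chr_pow_one_iff ψ _).1 hj g
          rw [zero_add, pow_one] at h5
          exact h5
        have h6 := (w1_two hψ h4).mul hθx
        rw [hψdef, wild_mul] at h6
        exact h6
      · exfalso
        have hεx : X2 (ψ ^ 2 ^ (l + 1)) := w1_two hεs hεp
        obtain ⟨i, hi⟩ := IsAlgClosed.exists_pow_nat_eq (-1 : PadicAlgCl 2) (n := 2) (by norm_num)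
        have hρε : ∀ g, (ψ ^ 2 ^ l) g ^ 2 = (ψ ^ 2 ^ (l + 1)) g := by
          intro g
          rw [chr_pow_apply, chr_pow_apply, ← pow_mul, ← pow_succ]
        obtain ⟨s, hs⟩ := wild_ne hε1
        refine quart (hψ.pow (2 ^ l)) hi (fun g hg => ?_) (s := s) ?_ ?_
        · rw [hρε]
          exact gen_two h1 h2 hεs hεx hεg₁ hεg₂ hi hg
        · rw [hρε]
          exact hs
        · have h7 : (ψ ^ 2 ^ l) s ^ 4 = ((ψ ^ 2 ^ l) s ^ 2) ^ 2 := by rw [← pow_mul]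
          rw [h7, hρε, ← chr_pow_apply, hεp]
          rfl
    · exact absurd (gen_odd hp2 h1 h2 hεs (w1_odd hp2 hεs hεp) hεp hεg₁ hεg₂) hε1

end Pool.Agent.H22.KW
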