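import Pool.Agent.H22.KW.Tame
import Pool.Agent.H22.KW.Wild
import Pool.Agent.H22.KW.Tors
import Pool.Agent.H22.KW.AbL
import Pool.Agent.H22.KW.AbK

/-!
# Local Kronecker-Weber theorem over `ℚ_p`

Every smooth character is trivial on the automorphisms which fix all roots of unity, and the maximal abelian extension of `ℚ_p` is generated by the roots of unity.
-/

set_option autoImplicit false

namespace Pool.Agent.H22.KW

open Polynomial Pool.Agent.H55.Tilt Pool.Agent.H22.QA

open scoped IntermediateField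

variable {p : ℕ} [hp : Fact p.Prime]

theorem all_X2 {χ : Chr p} (hχ : Sm χ) : X2 χ := by
  obtain ⟨n, hn, h⟩ := hχ.torsion
  obtain ⟨m, n', hn', rfl⟩ := Nat.exists_eq_pow_mul_and_not_dvd hn.ne' p hp.out.one_lt.ne'
  have h1 : X2 (χ ^ p ^ m) := tame (hχ.pow _) hn' (by rw [← chr_pow_mul]; exact h)
  have h2 : X2 (χ ^ n') := wild (hχ.pow _) (m := m) (by rw [← chr_pow_mul, mul_comm]; exact h)
  have hco : Nat.Coprime (p ^ m) n' :=
    Nat.Coprime.pow_left m ((Nat.Prime.coprime_iff_not_dvd hp.out).2 hn')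
  intro g hg
  have e1 : (χ g) ^ p ^ m = 1 := by rw [← MonoidHom.pow_apply]; exact h1 g hg
  have e2 : (χ g) ^ n' = 1 := by rw [← MonoidHom.pow_apply]; exact h2 g hg
  have e3 := orderOf_dvd_of_pow_eq_one e1
  have e4 := orderOf_dvd_of_pow_eq_one e2
  have e5 : orderOf (χ g) ∣ Nat.gcd (p ^ m) n' := Nat.dvd_gcd e3 e4
  rw [hco] at e5
  exact orderOf_eq_one_iff.1 (Nat.dvd_one.1 e5)

/-- **Local Kronecker-Weber theorem**: the compositum of all finite abelian extensions of `ℚ_p` is generated by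
the roots of unity. -/
theorem kw (p : ℕ) [Fact p.Prime] : (⨆ L : {L : IntermediateField ℚ_[p] (PadicAlgCl p) //
    FiniteDimensional ℚ_[p] L ∧ IsGalois ℚ_[p] L ∧ ∀ σ τ : L ≃ₐ[ℚ_[p]] L, σ * τ = τ * σ}, L.1) = KMu p := by
  apply le_antisymm
  · apply iSup_le
    rintro ⟨L, h1, h2, h3⟩
    exact ab_le_KMu (fun χ hχ => all_X2 hχ) L h3
  · exact KMu_le p

end Pool.Agent.H22.KW
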