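import Pool.Agent.H22.KW.Cpt
import Pool.Agent.H22.KW.Irr
import Pool.Agent.H22.KW.Frb

/-!
# Module Uni: the automorphisms `g₁`, `g₂`

`exists_g1`: `cpt` with `S n = {g | (∀ z ∈ Mu p, g z = z) ∧ ∀ z, z ^ p ^ n = 1 → g z = z ^ cc p}`: closed (intersection of sets `{g | g x = y}`), decreasing (`z ^ p ^ n = 1` implies `z ^ p ^ (n + 1) = 1`), nonempty: `ζ` a primitive `p ^ n`-th root of unity (`exists_prim_root`),
`ζ ^ cc p` is one too (`cc p` is prime to `p`; `IsPrimitiveRoot.pow_of_coprime`), `exists_gal_zeta`; all `z` with `z ^ p ^ n = 1` are powers of `ζ`.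
`exists_g2`: `S n = {g | (∀ z, z ^ (p ^ n ! - 1) = 1 → g z = z ^ p) ∧ ∀ z, z ^ p ^ n = 1 → g z = z}`: closed, decreasing (`p ^ n ! - 1 ∣ p ^ (n + 1) ! - 1`); nonempty: take `φ` of `exists_gal_frob` for `m = p ^ n ! - 1` and `g'` of `exists_gal_zeta` with
`g' (φ ζ) = ζ`, `ζ` a primitive `p ^ n`-th root of unity; `g = g' * φ`: on `m`-th roots `g z = g' (z ^ p) = z ^ p`. At the end: if `z ^ m = 1` and `p ∤ m` then `m ∣ p ^ φ(m) - 1 ∣ p ^ n ! - 1` for `n = φ(m)` (`Nat.totient`, Euler).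
-/

set_option autoImplicit false

namespace Pool.Agent.H22.KW

open Polynomial Pool.Agent.H55.Tilt Pool.Agent.H22.QA

open scoped IntermediateField

variable {p : ℕ} [hp : Fact p.Prime]

private theorem cc_coprime (p : ℕ) [hp : Fact p.Prime] : Nat.Coprime (cc p) p := by
  unfold cc
  split_ifs with h
  · subst h
    decide
  · rw [add_comm]
    exact (Nat.coprime_add_self_left).2 (Nat.coprime_one_left p)

private theorem pow_pn_succ {n : ℕ} {z : PadicAlgCl p} (h : z ^ p ^ n = 1) : z ^ p ^ (n + 1) = 1 := by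
  rw [pow_succ, pow_mul, h, one_pow]

theorem exists_g1 (p : ℕ) [Fact p.Prime] : ∃ g : GG p, IsG1 g := by
  have hp : p.Prime := Fact.out
  suffices h : ∃ g : GG p, ∀ n, g ∈ {g : GG p | (∀ z ∈ Mu p, g z = z) ∧
      ∀ z : PadicAlgCl p, z ^ p ^ n = 1 → g z = z ^ cc p} by
    obtain ⟨g, hg⟩ := h
    exact ⟨g, (hg 0).1, fun n z hz => (hg n).2 z hz⟩
  refine cpt (fun n => {g : GG p | (∀ z ∈ Mu p, g z = z) ∧
      ∀ z : PadicAlgCl p, z ^ p ^ n = 1 → g z = z ^ cc p}) ?_ ?_ ?_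
  · intro n
    have h1 : {g : GG p | (∀ z ∈ Mu p, g z = z) ∧
        ∀ z : PadicAlgCl p, z ^ p ^ n = 1 → g z = z ^ cc p}
        = (⋂ z ∈ Mu p, {g : GG p | g z = z}) ∩
          ⋂ z ∈ {z : PadicAlgCl p | z ^ p ^ n = 1}, {g : GG p | g z = z ^ cc p} := by
      ext g
      simp only [Set.mem_setOf_eq, Set.mem_inter_iff, Set.mem_iInter]
    show IsClosed {g : GG p | (∀ z ∈ Mu p, g z = z) ∧
        ∀ z : PadicAlgCl p, z ^ p ^ n = 1 → g z = z ^ cc p}
    rw [h1]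
    exact (isClosed_biInter fun z _ => isClosed_eval z z).inter
      (isClosed_biInter fun z _ => isClosed_eval z _)
  · intro n g hg
    exact ⟨hg.1, fun z hz => hg.2 z (pow_pn_succ hz)⟩
  · intro n
    have hpn : p ^ n ≠ 0 := pow_ne_zero n hp.ne_zero
    obtain ⟨ζ, hζ⟩ := exists_prim_root (p := p) (p ^ n) hpn
    have hζ' : IsPrimitiveRoot (ζ ^ cc p) (p ^ n) :=
      hζ.pow_of_coprime _ ((cc_coprime p).pow_right n)
    obtain ⟨g, hg1, hg2⟩ := exists_gal_zeta n hζ hζ'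
    refine ⟨g, hg1, fun z hz => ?_⟩
    have : NeZero (p ^ n) := ⟨hpn⟩
    obtain ⟨i, _, rfl⟩ := hζ.eq_pow_of_pow_eq_one hz
    rw [map_pow, hg2, ← pow_mul, ← pow_mul, mul_comm]

private theorem not_dvd_pow_fact (p : ℕ) [hp : Fact p.Prime] (n : ℕ) : ¬ p ∣ p ^ Nat.factorial n - 1 := by
  intro h
  have h1 : p ∣ p ^ Nat.factorial n := dvd_pow_self p (Nat.factorial_ne_zero n)
  have h2 : 1 ≤ p ^ Nat.factorial n := Nat.one_le_pow _ _ hp.out.pos
  have h3 : p ∣ 1 := by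
    have := (Nat.dvd_sub h1 h)
    rwa [Nat.sub_sub_self h2] at this
  exact hp.out.one_lt.ne' (Nat.dvd_one.1 h3)

private theorem pow_sub_dvd (p a b : ℕ) (h : a ∣ b) : p ^ a - 1 ∣ p ^ b - 1 := by
  obtain ⟨c, rfl⟩ := h
  have := Nat.sub_dvd_pow_sub_pow (p ^ a) 1 c
  rwa [one_pow, ← pow_mul] at this

private theorem pow_of_dvd {m k : ℕ} {z : PadicAlgCl p} (hz : z ^ m = 1) (h : m ∣ k) : z ^ k = 1 := by
  obtain ⟨c, rfl⟩ := h
  rw [pow_mul, hz, one_pow]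

theorem exists_g2 (p : ℕ) [Fact p.Prime] : ∃ g : GG p, IsG2 g := by
  have hp : p.Prime := Fact.out
  suffices h : ∃ g : GG p, ∀ n, g ∈ {g : GG p | (∀ z : PadicAlgCl p,
      z ^ (p ^ Nat.factorial n - 1) = 1 → g z = z ^ p) ∧
      ∀ z : PadicAlgCl p, z ^ p ^ n = 1 → g z = z} by
    obtain ⟨g, hg⟩ := h
    refine ⟨g, fun z hz => ?_, fun n z hz => (hg n).2 z hz⟩
    obtain ⟨m, hm, hz⟩ := hz
    refine (hg (Nat.totient m)).1 z (pow_of_dvd hz ?_)
    have hcop : Nat.Coprime p m := (Nat.Prime.coprime_iff_not_dvd hp).2 hm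
    have h1 : p ^ Nat.totient m ≡ 1 [MOD m] := Nat.ModEq.pow_totient hcop
    have h2 : m ∣ p ^ Nat.totient m - 1 :=
      (Nat.modEq_iff_dvd' (Nat.one_le_pow _ _ hp.pos)).1 h1.symm
    have hm0 : 0 < m := Nat.pos_of_ne_zero (by rintro rfl; exact hm (dvd_zero p))
    exact h2.trans (pow_sub_dvd p _ _ (Nat.dvd_factorial (Nat.totient_pos.2 hm0) le_rfl))
  refine cpt (fun n => {g : GG p | (∀ z : PadicAlgCl p,
      z ^ (p ^ Nat.factorial n - 1) = 1 → g z = z ^ p) ∧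
      ∀ z : PadicAlgCl p, z ^ p ^ n = 1 → g z = z}) ?_ ?_ ?_
  · intro n
    have h1 : {g : GG p | (∀ z : PadicAlgCl p, z ^ (p ^ Nat.factorial n - 1) = 1 → g z = z ^ p) ∧
        ∀ z : PadicAlgCl p, z ^ p ^ n = 1 → g z = z}
        = (⋂ z ∈ {z : PadicAlgCl p | z ^ (p ^ Nat.factorial n - 1) = 1}, {g : GG p | g z = z ^ p}) ∩
          ⋂ z ∈ {z : PadicAlgCl p | z ^ p ^ n = 1}, {g : GG p | g z = z} := by
      ext g
      simp only [Set.mem_setOf_eq, Set.mem_inter_iff, Set.mem_iInter]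
    show IsClosed {g : GG p | (∀ z : PadicAlgCl p, z ^ (p ^ Nat.factorial n - 1) = 1 → g z = z ^ p) ∧
        ∀ z : PadicAlgCl p, z ^ p ^ n = 1 → g z = z}
    rw [h1]
    exact (isClosed_biInter fun z _ => isClosed_eval z _).inter
      (isClosed_biInter fun z _ => isClosed_eval z _)
  · intro n g hg
    refine ⟨fun z hz => hg.1 z (pow_of_dvd hz (pow_sub_dvd p _ _ ?_)),
      fun z hz => hg.2 z (pow_pn_succ hz)⟩
    exact Nat.factorial_dvd_factorial (Nat.le_succ n)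
  · intro n
    have hpn : p ^ n ≠ 0 := pow_ne_zero n hp.ne_zero
    obtain ⟨ζ, hζ⟩ := exists_prim_root (p := p) (p ^ n) hpn
    obtain ⟨f, hφ⟩ := exists_gal_frob (p := p) (not_dvd_pow_fact p n)
    have hφζ : IsPrimitiveRoot (f ζ) (p ^ n) := hζ.map_of_injective f.injective
    obtain ⟨g', hg1, hg2⟩ := exists_gal_zeta n hφζ hζ
    refine ⟨g' * f, fun z hz => ?_, fun z hz => ?_⟩
    · rw [AlgEquiv.mul_apply, hφ z hz]
      refine hg1 _ ⟨p ^ Nat.factorial n - 1, not_dvd_pow_fact p n, ?_⟩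
      rw [← pow_mul, mul_comm, pow_mul, hz, one_pow]
    · have : NeZero (p ^ n) := ⟨hpn⟩
      obtain ⟨i, _, rfl⟩ := hζ.eq_pow_of_pow_eq_one hz
      rw [AlgEquiv.mul_apply, map_pow, map_pow, hg2]

end Pool.Agent.H22.KW
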